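import Mathlib
import Pool.Agent.R753.Sums

set_option autoImplicit false

/-!
Sums of convex bodies with exchangeable classes of summands: geometric lemmas.
-/

namespace Pool.Agent.Zk58.SS

open Finset Filter Topology

/-- coverings from directions -/
theorem cover_dirs {V : Type} [NormedAddCommGroup V] [NormedSpace ℝ V] {K : Set V}
    (hK : Convex ℝ K) (hKc : IsCompact K) {I : Type} [Fintype I] (d : I → V)
    (h : ∀ x ∈ K, ∃ c, ∃ t : ℝ, 0 < t ∧ x - t • d c ∈ interior K) :
    ∃ T : Finset V, T.card ≤ Fintype.card I ∧ K ⊆ ⋃ t ∈ T, (fun x => t + x) '' interior K := by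
  classical
  rcases K.eq_empty_or_nonempty with hKe | ⟨x₁, hx₁⟩
  · exact ⟨∅, by simp, by simp [hKe]⟩
  have hI : Nonempty I := ⟨(h x₁ hx₁).choose⟩
  choose! c t ht hc using h
  have hU : ∀ x ∈ K, {y | y - t x • d (c x) ∈ interior K} ∈ 𝓝 x := by
    intro x hx
    refine IsOpen.mem_nhds ?_ (hc x hx)
    exact isOpen_interior.preimage (by fun_prop)
  obtain ⟨F, hFK, hF⟩ := hKc.elim_nhds_subcover _ hU
  rcases F.eq_empty_or_nonempty with hFe | hFne
  · subst hFe
    refine ⟨∅, by simp, ?_⟩
    intro x hx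
    have := hF hx
    simp at this
  · obtain ⟨x₀, hx₀, hmin⟩ := Finset.exists_min_image F t hFne
    have ht0 : 0 < t x₀ := ht x₀ (hFK x₀ hx₀)
    refine ⟨univ.image fun i => t x₀ • d i, ?_, ?_⟩
    · exact card_image_le.trans (le_of_eq (Finset.card_univ))
    · intro y hy
      obtain ⟨x, hxF, hyx⟩ := Set.mem_iUnion₂.1 (hF hy)
      have hyx' : y - t x • d (c x) ∈ interior K := hyx
      have htx : 0 < t x := ht x (hFK x hxF)
      have hle : t x₀ ≤ t x := hmin x hxF
      refine Set.mem_iUnion₂.2 ⟨t x₀ • d (c x), mem_image_of_mem _ (mem_univ _),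
        y - t x₀ • d (c x), ?_, by simp⟩
      have h1 : (1 - t x₀ / t x) • y + (t x₀ / t x) • (y - t x • d (c x)) ∈ interior K := by
        refine hK.combo_self_interior_mem_interior hy hyx' ?_ (by positivity) (by ring)
        rw [sub_nonneg, div_le_one htx]
        exact hle
      have h2 : (1 - t x₀ / t x) • y + (t x₀ / t x) • (y - t x • d (c x)) =
          y - t x₀ • d (c x) := by
        rw [smul_sub, smul_smul, div_mul_cancel₀ _ htx.ne']
        module
      rwa [h2] at h1

variable {ι : Type} [Fintype ι]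

/-- `v` is an outer normal of `M` at `X` -/
def Nor (M : Set (ι → ℝ)) (X v : ι → ℝ) : Prop := ∀ Y ∈ M, ∑ j, v j * Y j ≤ ∑ j, v j * X j

lemma ray {M : Set (ι → ℝ)} (hMc : Convex ℝ M) (hMi : (interior M).Nonempty) {X G : ι → ℝ}
    (hX : X ∈ M) (h : ∀ w, Nor M X w → w ≠ 0 → ∑ j, w j * G j < 0) :
    ∃ t₁ : ℝ, 0 < t₁ ∧ ∀ t : ℝ, 0 < t → t ≤ t₁ → X + t • G ∈ interior M := by
  classical
  suffices hs : ∃ t₁ : ℝ, 0 < t₁ ∧ X + t₁ • G ∈ interior M by
    obtain ⟨t₁, ht₁, hmem⟩ := hs
    refine ⟨t₁, ht₁, fun t ht htt => ?_⟩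
    have h1 : (1 - t / t₁) • X + (t / t₁) • (X + t₁ • G) ∈ interior M := by
      refine hMc.combo_self_interior_mem_interior hX hmem ?_ (by positivity) (by ring)
      rw [sub_nonneg, div_le_one ht₁]
      exact htt
    have h2 : (1 - t / t₁) • X + (t / t₁) • (X + t₁ • G) = X + t • G := by
      rw [smul_add, smul_smul, div_mul_cancel₀ _ ht₁.ne']
      module
    rwa [h2] at h1
  by_contra hcon
  push Not at hcon
  set S : Set (ι → ℝ) := {Y | ∃ t : ℝ, 0 < t ∧ Y = X + t • G} with hS
  have hSc : Convex ℝ S := by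
    rintro _ ⟨t, ht, rfl⟩ _ ⟨t', ht', rfl⟩ p q hp hq hpq
    refine ⟨p * t + q * t', ?_, ?_⟩
    · rcases hp.eq_or_lt with rfl | hp'
      · have : q = 1 := by linarith
        rw [this]
        linarith
      · have := mul_pos hp' ht
        have := mul_nonneg hq ht'.le
        linarith
    · have : X = p • X + q • X := by rw [← add_smul, hpq, one_smul]
      nth_rewrite 3 [this]
      module
  have hdis : Disjoint (interior M) S := by
    rw [Set.disjoint_left]
    rintro _ hY ⟨t, ht, rfl⟩
    exact hcon t ht hY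
  obtain ⟨f, u, hf1, hf2⟩ := geometric_hahn_banach_open hMc.interior isOpen_interior hSc hdis
  have hfM : ∀ Y ∈ M, f Y ≤ u := by
    intro Y hY
    have h1 : Y ∈ closure (interior M) := by
      rw [hMc.closure_interior_eq_closure_of_nonempty_interior hMi]
      exact subset_closure hY
    have h2 : closure (interior M) ⊆ {Y | f Y ≤ u} :=
      closure_minimal (fun a ha => (hf1 a ha).le) (isClosed_le f.continuous continuous_const)
    exact h2 h1
  have hfX : f X ≤ u := hfM X hX
  have hray : ∀ t : ℝ, 0 < t → u ≤ f X + t * f G := by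
    intro t ht
    have := hf2 _ ⟨t, ht, rfl⟩
    rwa [map_add, map_smul, smul_eq_mul] at this
  have hXu : u ≤ f X := by
    have h1 : Tendsto (fun t : ℝ => f X + t * f G) (𝓝[>] 0) (𝓝 (f X + 0 * f G)) := by
      have : Tendsto (fun t : ℝ => f X + t * f G) (𝓝 0) (𝓝 (f X + 0 * f G)) :=
        (continuous_const.add (continuous_id.mul continuous_const)).tendsto 0
      exact this.mono_left nhdsWithin_le_nhds
    rw [zero_mul, add_zero] at h1
    exact ge_of_tendsto h1 (eventually_mem_nhdsWithin.mono fun t ht => hray t ht)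
  have hG : 0 ≤ f G := by
    have := hray 1 one_pos
    linarith
  set w : ι → ℝ := fun i => f (fun j => if i = j then 1 else 0) with hw
  have hfw : ∀ Y, f Y = ∑ j, w j * Y j := by
    intro Y
    have := LinearMap.pi_apply_eq_sum_univ (f : (ι → ℝ) →ₗ[ℝ] ℝ) Y
    have h2 : f Y = ∑ i, Y i • f (fun j => if i = j then 1 else 0) := this
    rw [h2]
    refine Finset.sum_congr rfl fun i _ => ?_
    rw [smul_eq_mul, mul_comm]
  have hnor : Nor M X w := by
    intro Y hY
    rw [← hfw, ← hfw]
    exact (hfM Y hY).trans hXu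
  have hw0 : w ≠ 0 := by
    intro h0
    obtain ⟨Y, hY⟩ := hMi
    have h1 := hf1 Y hY
    rw [hfw, h0] at h1
    have h2 := hXu
    rw [hfw, h0] at h2
    simp only [Pi.zero_apply, zero_mul, Finset.sum_const_zero] at h1 h2
    linarith
  have h1 := h w hnor hw0
  rw [← hfw] at h1
  linarith

/-- normals of a solid set: nonnegative on the support -/
lemma nor_nonneg {M : Set (ι → ℝ)} (hsol : Pool.Agent.R753.Sol M) {X w : ι → ℝ} (hX : X ∈ M)
    (hX0 : ∀ j, 0 ≤ X j) (hw : Nor M X w) {i : ι} (hi : X i ≠ 0) : 0 ≤ w i := by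
  classical
  have h1 : Function.update X i 0 ∈ M := by
    refine hsol X hX _ fun j => ?_
    by_cases hj : j = i
    · subst hj
      rw [Function.update_self]
      exact Set.left_mem_uIcc
    · rw [Function.update_of_ne hj]
      exact Set.right_mem_uIcc
  have h2 := hw _ h1
  have h3 : ∑ j, w j * X j = ∑ j, w j * Function.update X i 0 j + w i * X i := by
    rw [← Finset.add_sum_erase _ _ (mem_univ i),
      ← Finset.add_sum_erase _ (fun j => w j * Function.update X i 0 j) (mem_univ i)]
    rw [Function.update_self, mul_zero, zero_add, add_comm]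
    congr 1
    refine Finset.sum_congr rfl fun j hj => ?_
    rw [Function.update_of_ne (Finset.ne_of_mem_erase hj)]
  have h4 : 0 ≤ w i * X i := by linarith
  have h5 : 0 < X i := lt_of_le_of_ne (hX0 i) (Ne.symm hi)
  by_contra hcon
  push Not at hcon
  have := mul_neg_of_neg_of_pos hcon h5
  linarith

/-- the size of the normals -/
lemma nor_size {M : Set (ι → ℝ)} {ρ : ℝ} (hρ : 0 ≤ ρ) (hball : ∀ Y : ι → ℝ, (∀ j, |Y j| ≤ ρ) → Y ∈ M)
    {X w : ι → ℝ} (hw : Nor M X w) : ρ * ∑ j, |w j| ≤ ∑ j, w j * X j := by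
  have h1 := hw (fun j => ρ * SignType.sign (w j)) ?_
  · refine le_trans (le_of_eq ?_) h1
    rw [Finset.mul_sum]
    refine Finset.sum_congr rfl fun j _ => ?_
    rw [mul_left_comm, ← sign_mul_abs (w j)]
    rw [sign_mul_abs, self_mul_sign]
  · apply hball
    intro j
    rw [abs_mul, abs_of_nonneg hρ]
    refine mul_le_of_le_one_right hρ ?_
    rcases lt_trichotomy (w j) 0 with h | h | h
    · rw [sign_neg h]; simp
    · rw [h]; simp
    · rw [sign_pos h]; simp

end Pool.Agent.Zk58.SS
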