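import Mathlib

set_option autoImplicit false

/-!
Sums of convex bodies with exchangeable classes of summands: the choice of the weights inside a
class, one level of the tree.
-/

namespace Pool.Agent.Zk58.SS

open Finset
open scoped Classical

variable {ι : Type} [Fintype ι] [LinearOrder ι]

/-- `i` is the last element of the first run of `b` in `Z` -/
def IsD (Z : Finset ι) (b : ι → Bool) (i : ι) : Prop :=
  i ∈ Z ∧ (∀ j ∈ Z, j ≤ i → b j = b i) ∧ ∀ j ∈ Z, i < j → ∃ j' ∈ Z, j' ≤ j ∧ b j' ≠ b i

omit [Fintype ι] in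
lemma IsD.le {Z : Finset ι} {b : ι → Bool} {i i' : ι} (h : IsD Z b i) (h' : IsD Z b i') :
    i' ≤ i := by
  by_contra hcon
  push Not at hcon
  obtain ⟨j, hj, hj1, hj2⟩ := h.2.2 i' h'.1 hcon
  have h1 := h'.2.1 j hj hj1
  have h2 := h'.2.1 i h.1 hcon.le
  exact hj2 (h1.trans h2.symm)

omit [Fintype ι] in
lemma IsD.unique {Z : Finset ι} {b : ι → Bool} {i i' : ι} (h : IsD Z b i) (h' : IsD Z b i') :
    i = i' := le_antisymm (h'.le h) (h.le h')

omit [Fintype ι] in
lemma isD_congr {Z : Finset ι} {b b' : ι → Bool} (h : ∀ i ∈ Z, b i = b' i) (i : ι) :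
    IsD Z b i ↔ IsD Z b' i := by
  have key : ∀ b b' : ι → Bool, (∀ i ∈ Z, b i = b' i) → IsD Z b i → IsD Z b' i := by
    rintro b b' h ⟨h1, h2, h3⟩
    refine ⟨h1, fun j hj hji => ?_, fun j hj hij => ?_⟩
    · rw [← h j hj, ← h i h1]
      exact h2 j hj hji
    · obtain ⟨j', hj', hle, hne⟩ := h3 j hj hij
      refine ⟨j', hj', hle, ?_⟩
      rw [← h j' hj', ← h i h1]
      exact hne
  exact ⟨key b b' h, key b' b fun i hi => (h i hi).symm⟩

omit [Fintype ι] in
lemma exists_isD {Z L : Finset ι} (hLZ : L ⊆ Z) (hL : L.Nonempty) (b₀ : ι → Bool) :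
    ∃ b : ι → Bool, (∀ i ∈ L, b i = b₀ i) ∧ ∃ l ∈ L, IsD Z b l := by
  set G : Finset ι := L.filter fun i => ∀ j ∈ L, j ≤ i → b₀ j = b₀ i with hG
  have hGne : G.Nonempty := by
    refine ⟨L.min' hL, mem_filter.2 ⟨L.min'_mem hL, fun j hj hle => ?_⟩⟩
    rw [le_antisymm hle (L.min'_le j hj)]
  set l := G.max' hGne with hl
  have hlG : l ∈ G := G.max'_mem hGne
  obtain ⟨hlL, hl2⟩ := mem_filter.1 hlG
  refine ⟨fun i => if i ∈ L then b₀ i else if i < l then b₀ l else !b₀ l, fun i hi => if_pos hi,
    l, hlL, hLZ hlL, ?_, ?_⟩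
  · intro j hj hjl
    simp only [if_pos hlL]
    by_cases hjL : j ∈ L
    · rw [if_pos hjL]
      exact hl2 j hjL hjl
    · have hlt : j < l := lt_of_le_of_ne hjl fun h => hjL (h ▸ hlL)
      rw [if_neg hjL, if_pos hlt]
  · intro j hj hlj
    simp only [if_pos hlL]
    by_cases hjL : j ∈ L
    · have hjG : j ∉ G := fun h => absurd (G.le_max' j h) (not_le.2 hlj)
      rw [hG, mem_filter] at hjG
      push Not at hjG
      obtain ⟨j', hj'L, hle, hne⟩ := hjG hjL
      by_cases hb : b₀ j = b₀ l
      · refine ⟨j', hLZ hj'L, hle, ?_⟩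
        rw [if_pos hj'L, ← hb]
        exact hne
      · refine ⟨j, hj, le_rfl, ?_⟩
        rw [if_pos hjL]
        exact hb
    · refine ⟨j, hj, le_rfl, ?_⟩
      rw [if_neg hjL, if_neg (not_lt.2 hlj.le)]
      simp

/-- representative of the class -/
noncomputable def rep (s : Setoid ι) (j : ι) : ι := (Quotient.mk s j).out

omit [Fintype ι] [LinearOrder ι] in
lemma rep_rel (s : Setoid ι) (j : ι) : s (rep s j) j := Quotient.mk_out j

omit [Fintype ι] [LinearOrder ι] in
lemma rep_eq {s : Setoid ι} {i j : ι} : rep s i = rep s j ↔ s i j := by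
  constructor
  · intro h
    have h1 := rep_rel s i
    rw [h] at h1
    exact s.trans (s.symm h1) (rep_rel s j)
  · intro h
    unfold rep
    rw [Quotient.sound h]

omit [Fintype ι] [LinearOrder ι] in
lemma rep_rep (s : Setoid ι) (j : ι) : rep s (rep s j) = rep s j := rep_eq.2 (rep_rel s j)

/-- the good systems of weights for the classes of `s`; `V Q v` says that `v` is an admissible
normal at a point with support `Q` -/
def PP (N : ι → ℕ) (s : Setoid ι) (A : ℝ) (V : Finset ι → (ι → ℝ) → Prop) : Prop :=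
  ∃ a : (∀ j, Fin (N j)) → ι → ℝ, (∀ c j, 1 ≤ a c j) ∧
    (∀ c c' j, (∀ i, s i j → c i = c' i) → a c j = a c' j) ∧
    ∀ (Q : Finset ι) (c₀ : ∀ j, Fin (N j)), ∃ c : ∀ j, Fin (N j), (∀ i ∈ Q, c i = c₀ i) ∧
      ∀ v, V Q v → ∀ q ∈ Q, ∑ j with s j q, v j ≤
        ∑ j with s j q, (if j ∈ Q then a c j * v j else -(A * (a c j * v j)))

lemma pp_bot (N : ι → ℕ) (A : ℝ) (V : Finset ι → (ι → ℝ) → Prop) : PP N ⊥ A V := by
  refine ⟨fun _ _ => 1, fun _ _ => le_rfl, fun _ _ _ _ => rfl, fun Q c₀ => ⟨c₀, fun _ _ => rfl,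
    fun v _ q hq => ?_⟩⟩
  refine Finset.sum_le_sum fun j hj => ?_
  have hj' : j = q := (mem_filter.1 hj).2
  rw [hj', if_pos hq, one_mul]

/-- the bit of an index -/
def bit {N : ι → ℕ} (c : ∀ j, Fin (N j)) (i : ι) : Bool := decide (0 < (c i : ℕ))

theorem pp_step {N : ι → ℕ} (hN : ∀ j, 2 ≤ N j) {s s' : Setoid ι} (hss : s ≤ s') {A C : ℝ}
    (hA : 0 ≤ A) (hC : 0 ≤ C) {V : Finset ι → (ι → ℝ) → Prop}
    (hV0 : ∀ Q v, V Q v → ∀ j, 0 ≤ v j)
    (hV : ∀ Q v, V Q v → ∀ i ∈ Q, ∀ l, s' i l → (∀ l', s l l' → l' ∉ Q) →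
      v l ≤ C * ∑ i' with s i' i, v i')
    (h : PP N s A V) : PP N s' A V := by
  obtain ⟨a, ha1, haloc, ha⟩ := h
  obtain ⟨B, hB⟩ := Finite.exists_le (fun p : (∀ j, Fin (N j)) × ι => a p.1 p.2)
  have hB' : ∀ c j, a c j ≤ max B 0 := fun c j => (hB (c, j)).trans (le_max_left _ _)
  set B' : ℝ := max B 0 with hBdef
  have hB0 : 0 ≤ B' := le_max_right _ _
  set n : ℝ := (Fintype.card ι : ℝ) with hn
  have hn0 : 0 ≤ n := Nat.cast_nonneg _
  set W : ℝ := 1 + (A * B' + 1) * C * n * n with hW
  have hW1 : 1 ≤ W := by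
    rw [hW]
    have : 0 ≤ (A * B' + 1) * C * n * n := by positivity
    linarith
  -- representatives of the `s`-classes in a class of `s'`
  set R : Quotient s' → Finset ι := fun x =>
    (univ.filter fun i : ι => Quotient.mk s' i = x).image (rep s) with hR
  have hRmem : ∀ x i, i ∈ R x → rep s i = i ∧ Quotient.mk s' i = x := by
    intro x i hi
    obtain ⟨i', hi', rfl⟩ := mem_image.1 hi
    refine ⟨rep_rep s i', ?_⟩
    rw [← (mem_filter.1 hi').2]
    exact Quotient.sound (hss (rep_rel s i'))
  have hrepR : ∀ j, rep s j ∈ R (Quotient.mk s' j) := fun j =>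
    mem_image_of_mem _ (mem_filter.2 ⟨mem_univ _, rfl⟩)
  set a' : (∀ j, Fin (N j)) → ι → ℝ := fun c j =>
    (if IsD (R (Quotient.mk s' j)) (bit c) (rep s j) then W else 1) * a c j with ha'
  refine ⟨a', ?_, ?_, ?_⟩
  · intro c j
    simp only [ha']
    have h1 : (1 : ℝ) ≤ (if IsD (R (Quotient.mk s' j)) (bit c) (rep s j) then W else 1) := by
      split_ifs
      · exact hW1
      · exact le_rfl
    have h2 := ha1 c j
    nlinarith
  · intro c c' j hcc
    simp only [ha']
    rw [haloc c c' j fun i hi => hcc i (hss hi)]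
    have h1 : IsD (R (Quotient.mk s' j)) (bit c) (rep s j) ↔
        IsD (R (Quotient.mk s' j)) (bit c') (rep s j) := by
      refine isD_congr (fun i hi => ?_) _
      have h2 : s' i j := Quotient.exact (hRmem _ i hi).2
      unfold bit
      rw [hcc i h2]
    rw [if_congr h1 rfl rfl]
  · intro Q c₀
    obtain ⟨c₁, hc₁, hgain⟩ := ha Q c₀
    set L : Quotient s' → Finset ι := fun x =>
      (univ.filter fun i : ι => i ∈ Q ∧ Quotient.mk s' i = x).image (rep s) with hL
    have hLR : ∀ x, L x ⊆ R x := by
      intro x i hi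
      obtain ⟨i', hi', rfl⟩ := mem_image.1 hi
      exact mem_image_of_mem _ (mem_filter.2 ⟨mem_univ _, (mem_filter.1 hi').2.2⟩)
    have hb : ∀ x, ∃ b : ι → Bool, (L x).Nonempty →
        (∀ i ∈ L x, b i = bit c₁ i) ∧ ∃ l ∈ L x, IsD (R x) b l := by
      intro x
      by_cases hne : (L x).Nonempty
      · obtain ⟨b, hb⟩ := exists_isD (hLR x) hne (bit c₁)
        exact ⟨b, fun _ => hb⟩
      · exact ⟨fun _ => true, fun h => absurd h hne⟩
    choose b hb using hb
    set pick : ∀ j, Bool → Fin (N j) := fun j β =>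
      if β then ⟨1, lt_of_lt_of_le (by norm_num) (hN j)⟩
        else ⟨0, lt_of_lt_of_le (by norm_num) (hN j)⟩ with hpick
    have hpick' : ∀ (j : ι) (β : Bool), decide (0 < (pick j β : ℕ)) = β := by
      intro j β
      cases β <;> simp [hpick]
    set c : ∀ j, Fin (N j) := fun j =>
      if rep s j = j ∧ rep s j ∉ L (Quotient.mk s' j) then pick j (b (Quotient.mk s' j) j)
        else c₁ j with hc
    have hcQ : ∀ q ∈ Q, ∀ i, s i q → c i = c₁ i := by
      intro q hq i hi
      have h1 : rep s i ∈ L (Quotient.mk s' i) := by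
        rw [rep_eq.2 hi]
        refine mem_image_of_mem _ (mem_filter.2 ⟨mem_univ _, hq, ?_⟩)
        exact Quotient.sound (s'.symm (hss hi))
      simp only [hc]
      rw [if_neg]
      exact fun h => h.2 h1
    refine ⟨c, fun i hi => (hcQ i hi i (s.refl i)).trans (hc₁ i hi), ?_⟩
    intro v hv q hq
    have hv0 := hV0 Q v hv
    set x : Quotient s' := Quotient.mk s' q with hx
    have hLne : (L x).Nonempty := ⟨rep s q, mem_image_of_mem _ (mem_filter.2 ⟨mem_univ _, hq, rfl⟩)⟩
    obtain ⟨hb1, l, hlL, hlD⟩ := hb x hLne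
    have hbits : ∀ i ∈ R x, bit c i = b x i := by
      intro i hi
      obtain ⟨hi1, hi2⟩ := hRmem x i hi
      by_cases hiL : i ∈ L x
      · rw [hb1 i hiL]
        unfold bit
        have : c i = c₁ i := by
          simp only [hc]
          rw [if_neg]
          rintro ⟨-, h2⟩
          rw [hi1, hi2] at h2
          exact h2 hiL
        rw [this]
      · unfold bit
        have : c i = pick i (b x i) := by
          simp only [hc]
          rw [if_pos, hi2]
          rw [hi1, hi2]
          exact ⟨rfl, hiL⟩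
        rw [this]
        exact hpick' i _
    have hlD' : IsD (R x) (bit c) l := (isD_congr hbits l).2 hlD
    obtain ⟨q₁, hq₁, hq₁l⟩ := mem_image.1 hlL
    obtain ⟨-, hq₁Q, hq₁x⟩ := mem_filter.1 hq₁
    -- the sums over the `s`-classes
    set F : ι → ℝ := fun j => (if j ∈ Q then a' c j * v j else -(A * (a' c j * v j))) - v j with hF
    set Vs : ℝ := ∑ j with s j q₁, v j with hVs
    have hVs0 : 0 ≤ Vs := Finset.sum_nonneg fun j _ => hv0 j
    have hcls : ∀ i₀, (univ.filter fun j => rep s j = rep s i₀) = univ.filter fun j => s j i₀ := by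
      intro i₀
      ext j
      simp only [mem_filter, mem_univ, true_and, rep_eq]
    have hT : ∀ ρ ∈ R x, (if ρ = l then (W - 1) * Vs else 0) - (A * B' + 1) * C * n * Vs ≤
        ∑ j with rep s j = ρ, F j := by
      intro ρ hρ
      obtain ⟨hρ1, hρ2⟩ := hRmem x ρ hρ
      have hnn : 0 ≤ (A * B' + 1) * C * n * Vs := by positivity
      set μ : ℝ := if IsD (R x) (bit c) ρ then W else 1 with hμ
      have hμ1 : 1 ≤ μ := by
        rw [hμ]
        split_ifs
        · exact hW1
        · exact le_rfl
      have ha'μ : ∀ j, rep s j = ρ → a' c j = μ * a c j := by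
        intro j hj
        have h1 : Quotient.mk s' j = x := by
          rw [← hρ2]
          refine Quotient.sound (hss ?_)
          rw [← hj]
          exact s.symm (rep_rel s j)
        simp only [ha']
        rw [h1, hj]
      by_cases hρL : ρ ∈ L x
      · -- a class which meets `Q`
        obtain ⟨q₂, hq₂, hq₂ρ⟩ := mem_image.1 hρL
        obtain ⟨-, hq₂Q, hq₂x⟩ := mem_filter.1 hq₂
        have h1 := hgain v hv q₂ hq₂Q
        have h2 : ∀ j, s j q₂ → a c j = a c₁ j := by
          intro j hj
          exact haloc c c₁ j fun i hi => hcQ q₂ hq₂Q i (s.trans hi hj)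
        have h3 : ∑ j with rep s j = ρ, F j = μ * (∑ j with s j q₂,
            (if j ∈ Q then a c₁ j * v j else -(A * (a c₁ j * v j)))) -
            ∑ j with s j q₂, v j := by
          rw [← hq₂ρ, hcls q₂, Finset.mul_sum, ← Finset.sum_sub_distrib]
          refine Finset.sum_congr rfl fun j hj => ?_
          have hj' : s j q₂ := (mem_filter.1 hj).2
          simp only [hF]
          rw [ha'μ j ((rep_eq.2 hj').trans hq₂ρ), h2 j hj']
          split_ifs <;> ring
        have h4 : 0 ≤ ∑ j with s j q₂, v j := Finset.sum_nonneg fun j _ => hv0 j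
        rw [h3]
        by_cases hρl : ρ = l
        · have h5 : s q₁ q₂ := by
            rw [← rep_eq, hq₁l, ← hρl, hq₂ρ]
          have h6 : Vs = ∑ j with s j q₂, v j := by
            rw [hVs, ← hcls, ← hcls, rep_eq.2 h5]
          have h7 : μ = W := by
            rw [hμ, if_pos]
            rw [hρl]
            exact hlD'
          rw [if_pos hρl, h7, h6]
          have h8 : 0 ≤ (A * B' + 1) * C * n * Vs := hnn
          rw [h6] at h8
          have h9 : W * ∑ j with s j q₂, v j ≤ W * (∑ j with s j q₂,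
            (if j ∈ Q then a c₁ j * v j else -(A * (a c₁ j * v j)))) :=
            mul_le_mul_of_nonneg_left h1 (by linarith)
          linarith
        · rw [if_neg hρl]
          have h9 : μ * ∑ j with s j q₂, v j ≤ μ * (∑ j with s j q₂,
            (if j ∈ Q then a c₁ j * v j else -(A * (a c₁ j * v j)))) :=
            mul_le_mul_of_nonneg_left h1 (by linarith)
          have h10 : ∑ j with s j q₂, v j ≤ μ * ∑ j with s j q₂, v j :=
            le_mul_of_one_le_left h4 hμ1
          linarith
      · -- a class which does not meet `Q`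
        have hρl : ρ ≠ l := fun h => hρL (h ▸ hlL)
        have hμ' : μ = 1 := by
          rw [hμ, if_neg]
          exact fun h => hρl (h.unique hlD')
        have hjQ : ∀ j, rep s j = ρ → j ∉ Q := by
          intro j hj hjQ
          apply hρL
          rw [← hj]
          refine mem_image_of_mem _ (mem_filter.2 ⟨mem_univ _, hjQ, ?_⟩)
          rw [← hρ2]
          refine Quotient.sound (hss ?_)
          rw [← hj]
          exact s.symm (rep_rel s j)
        have hvj : ∀ j, rep s j = ρ → v j ≤ C * Vs := by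
          intro j hj
          refine hV Q v hv q₁ hq₁Q j ?_ ?_
          · have h1 : Quotient.mk s' j = x := by
              rw [← hρ2]
              refine Quotient.sound (hss ?_)
              rw [← hj]
              exact s.symm (rep_rel s j)
            exact Quotient.exact (hq₁x.trans h1.symm)
          · intro l' hl'
            exact hjQ l' ((rep_eq.2 (s.symm hl')).trans hj)
        rw [if_neg hρl, zero_sub]
        have h1 : ∀ j ∈ univ.filter (fun j => rep s j = ρ), -((A * B' + 1) * (C * Vs)) ≤ F j := by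
          intro j hj
          have hj' : rep s j = ρ := (mem_filter.1 hj).2
          simp only [hF]
          rw [if_neg (hjQ j hj'), ha'μ j hj', hμ', one_mul]
          have h2 := hvj j hj'
          have h3 : a c j * v j ≤ B' * (C * Vs) :=
            mul_le_mul (hB' c j) h2 (hv0 j) hB0
          have h4 : A * (a c j * v j) ≤ A * (B' * (C * Vs)) := mul_le_mul_of_nonneg_left h3 hA
          nlinarith
        have h2 := Finset.card_nsmul_le_sum _ F _ h1
        rw [nsmul_eq_mul] at h2
        have h3 : ((univ.filter (fun j => rep s j = ρ)).card : ℝ) ≤ n := by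
          rw [hn]
          exact_mod_cast Finset.card_le_univ _
        have h4 : 0 ≤ (A * B' + 1) * (C * Vs) := by positivity
        have h5 := mul_le_mul_of_nonneg_right h3 h4
        have h6 : n * ((A * B' + 1) * (C * Vs)) = (A * B' + 1) * C * n * Vs := by ring
        linarith
    have hsum : ∑ ρ ∈ R x, ∑ j with rep s j = ρ, F j = ∑ j with s' j q, F j := by
      rw [← Finset.sum_fiberwise_of_maps_to (s := univ.filter fun j => s' j q) (t := R x)
        (g := rep s) (f := F)]
      · refine Finset.sum_congr rfl fun ρ hρ => ?_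
        refine Finset.sum_congr ?_ fun _ _ => rfl
        ext j
        simp only [mem_filter, mem_univ, true_and]
        constructor
        · intro hj
          refine ⟨?_, hj⟩
          obtain ⟨hρ1, hρ2⟩ := hRmem x ρ hρ
          have h1 : s' ρ q := Quotient.exact hρ2
          refine s'.trans (hss ?_) h1
          rw [← hj]
          exact s.symm (rep_rel s j)
        · exact fun hj => hj.2
      · intro j hj
        have h1 := hrepR j
        have h2 : Quotient.mk s' j = x := Quotient.sound (mem_filter.1 hj).2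
        rwa [h2] at h1
    have htot : 0 ≤ ∑ j with s' j q, F j := by
      rw [← hsum]
      refine le_trans ?_ (Finset.sum_le_sum hT)
      rw [Finset.sum_sub_distrib, Finset.sum_ite_eq' (R x) l, if_pos hlD'.1, Finset.sum_const,
        nsmul_eq_mul]
      have h3 : ((R x).card : ℝ) ≤ n := by
        rw [hn]
        exact_mod_cast Finset.card_le_univ _
      have h4 : 0 ≤ (A * B' + 1) * C * n * Vs := by positivity
      have h5 := mul_le_mul_of_nonneg_right h3 h4
      have h6 : (W - 1) * Vs = n * ((A * B' + 1) * C * n * Vs) := by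
        rw [hW]
        ring
      linarith
    simp only [hF] at htot
    rw [Finset.sum_sub_distrib] at htot
    linarith

end Pool.Agent.Zk58.SS
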