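import Mathlib
import Pool.Agent.R753.Sums
import Pool.Agent.Zk58.SS.Step
import Pool.Agent.Zk58.SS.Ray

set_option autoImplicit false

/-!
Sums of convex bodies with exchangeable classes of summands: the main theorem.
-/

namespace Pool.Agent.Zk58.SS

open Finset Filter Topology
open scoped Classical

variable {ι : Type} [Fintype ι] [LinearOrder ι]

/-- all levels of the tree -/
lemma pp_levels {N : ι → ℕ} (hN : ∀ j, 2 ≤ N j) {r : ℕ → Setoid ι} {h : ℕ} (hr0 : r 0 = ⊥)
    (hr : ∀ t < h, r t ≤ r (t + 1)) {A C : ℝ} (hA : 0 ≤ A) (hC : 0 ≤ C)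
    {V : Finset ι → (ι → ℝ) → Prop} (hV0 : ∀ Q v, V Q v → ∀ j, 0 ≤ v j)
    (hV : ∀ t < h, ∀ Q v, V Q v → ∀ i ∈ Q, ∀ l, r (t + 1) i l → (∀ l', r t l l' → l' ∉ Q) →
      v l ≤ C * ∑ i' with r t i' i, v i') :
    ∀ t, t ≤ h → PP N (r t) A V := by
  intro t
  induction t with
  | zero =>
    intro _
    rw [hr0]
    exact pp_bot N A V
  | succ t ih =>
    intro ht
    exact pp_step hN (hr t ht) hA hC hV0 (fun Q v hv i hi l => hV t ht Q v hv i hi l)
      (ih (by omega))

/-- the order of the classes of the highest level -/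
lemma rank_top {N : ι → ℕ} (hN : ∀ j, 2 ≤ N j) (s : Setoid ι)
    (hk : ∑ x : Quotient s, ∏ j with Quotient.mk s j = x, (1 : ℝ) / N j ≤ 1) :
    ∃ (M₀ : ℕ) (b : (∀ j, Fin (N j)) → Quotient s → ℕ), (∀ c x, b c x ≤ M₀) ∧
      ∀ (S : Finset (Quotient s)) (c₁ : ∀ j, Fin (N j)), ∃ c : ∀ j, Fin (N j),
        (∀ j, Quotient.mk s j ∈ S → c j = c₁ j) ∧ ∀ x ∈ S, ∀ y, y ∉ S → b c y < b c x := by
  set N' : Quotient s → ℕ := fun x => Fintype.card (∀ j : {j // Quotient.mk s j = x}, Fin (N j))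
    with hN'
  set e : ∀ x : Quotient s, (∀ j : {j // Quotient.mk s j = x}, Fin (N j)) ≃ Fin (N' x) :=
    fun x => Fintype.equivFin _ with he
  have hne : ∀ j, Nonempty (Fin (N j)) := fun j => ⟨⟨0, lt_of_lt_of_le (by norm_num) (hN j)⟩⟩
  have h1 : ∀ x, 0 < N' x := fun x => Fintype.card_pos
  have h2 : ∑ x, (1 : ℝ) / N' x ≤ 1 := by
    refine le_trans (le_of_eq ?_) hk
    refine Finset.sum_congr rfl fun x _ => ?_
    rw [hN']
    simp only [Fintype.card_pi, Fintype.card_fin]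
    rw [Finset.prod_div_distrib, Finset.prod_const_one]
    congr 1
    push_cast
    rw [Finset.prod_subtype (p := fun j => Quotient.mk s j = x)
      (univ.filter fun j => Quotient.mk s j = x) (fun j => by simp) (fun j => ((N j : ℕ) : ℝ))]
  obtain ⟨b, hb1, hb2⟩ := Pool.Agent.R753.exists_rank N' h1 h2
  set f : (∀ j, Fin (N j)) → ∀ x, Fin (N' x) := fun c x => e x fun j => c j with hf
  refine ⟨Fintype.card (Quotient s) + 1, fun c x => b (f c) x, fun c x => hb1 _ x, ?_⟩
  intro S c₁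
  obtain ⟨c', hc'1, hc'2⟩ := hb2 S (f c₁)
  refine ⟨fun j => (e (Quotient.mk s j)).symm (c' (Quotient.mk s j)) ⟨j, rfl⟩, ?_, ?_⟩
  · intro j hj
    beta_reduce
    rw [hc'1 _ hj]
    simp only [hf, Equiv.symm_apply_apply]
  · have h3 : f (fun j => (e (Quotient.mk s j)).symm (c' (Quotient.mk s j)) ⟨j, rfl⟩) = c' := by
      funext x
      simp only [hf]
      rw [← Equiv.eq_symm_apply]
      funext ⟨j, hj⟩
      subst hj
      rfl
    beta_reduce
    rw [h3]
    exact hc'2

/-- the weights, and the total gain -/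
lemma weights {N : ι → ℕ} (hN : ∀ j, 2 ≤ N j) (s : Setoid ι) {A : ℝ} (hA : 0 ≤ A)
    {V : Finset ι → (ι → ℝ) → Prop} (hV0 : ∀ Q v, V Q v → ∀ j, 0 ≤ v j)
    (hk : ∑ x : Quotient s, ∏ j with Quotient.mk s j = x, (1 : ℝ) / N j ≤ 1)
    (hP : PP N s A V) {τ : ℝ} (hτ : 0 < τ) :
    ∃ α : (∀ j, Fin (N j)) → ι → ℝ, (∀ c j, 0 < α c j) ∧
      ∀ (Q : Finset ι) (c₀ : ∀ j, Fin (N j)), ∃ c : ∀ j, Fin (N j), (∀ i ∈ Q, c i = c₀ i) ∧
        ∀ v, V Q v → τ * ∑ j, v j < ∑ j ∈ Q, v j →
          0 < ∑ j, (if j ∈ Q then α c j * v j else -(A * (α c j * v j))) := by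
  obtain ⟨a, ha1, haloc, ha⟩ := hP
  obtain ⟨M₀, b, hb1, hb2⟩ := rank_top hN s hk
  obtain ⟨B, hB⟩ := Finite.exists_le (fun p : (∀ j, Fin (N j)) × ι => a p.1 p.2)
  have hB' : ∀ c j, a c j ≤ max B 0 := fun c j => (hB (c, j)).trans (le_max_left _ _)
  set B' : ℝ := max B 0 with hBdef
  have hB0 : 0 ≤ B' := le_max_right _ _
  set δ : ℝ := min 1 (τ / (A * B' + 1)) with hδ
  have hAB : 0 < A * B' + 1 := by positivity
  have hδ0 : 0 < δ := lt_min one_pos (by positivity)
  have hδ1 : δ ≤ 1 := min_le_left _ _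
  have hδ2 : A * B' * δ ≤ τ := by
    have h1 : δ ≤ τ / (A * B' + 1) := min_le_right _ _
    rw [le_div_iff₀ hAB] at h1
    nlinarith
  refine ⟨fun c j => δ ^ (M₀ - b c (Quotient.mk s j)) * a c j, fun c j => ?_, ?_⟩
  · have := ha1 c j
    positivity
  · intro Q c₀
    obtain ⟨c₁, hc₁, hgain⟩ := ha Q c₀
    set S : Finset (Quotient s) := Q.image (Quotient.mk s) with hS
    obtain ⟨c, hc, hrank⟩ := hb2 S c₁
    refine ⟨c, fun i hi => (hc i (mem_image_of_mem _ hi)).trans (hc₁ i hi), ?_⟩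
    intro v hv hτv
    have hv0 := hV0 Q v hv
    have hQne : Q.Nonempty := by
      by_contra hcon
      rw [not_nonempty_iff_eq_empty] at hcon
      rw [hcon, Finset.sum_empty] at hτv
      have : 0 ≤ τ * ∑ j, v j := mul_nonneg hτ.le (Finset.sum_nonneg fun j _ => hv0 j)
      linarith
    have hSne : S.Nonempty := hQne.image _
    obtain ⟨y, hyS, hymin⟩ := Finset.exists_min_image S (b c) hSne
    set m : ℝ := δ ^ (M₀ - b c y) with hm
    have hm0 : 0 < m := pow_pos hδ0 _
    set F : ι → ℝ := fun j => if j ∈ Q then δ ^ (M₀ - b c (Quotient.mk s j)) * a c j * v j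
      else -(A * (δ ^ (M₀ - b c (Quotient.mk s j)) * a c j * v j)) with hF
    have hT : ∀ x : Quotient s, m * (∑ j with Quotient.mk s j = x, (if j ∈ Q then v j else 0)) -
        m * (∑ j with Quotient.mk s j = x, τ * v j) ≤ ∑ j with Quotient.mk s j = x, F j := by
      intro x
      have hnn : 0 ≤ ∑ j with Quotient.mk s j = x, τ * v j :=
        Finset.sum_nonneg fun j _ => mul_nonneg hτ.le (hv0 j)
      have hnn' := mul_nonneg hm0.le hnn
      by_cases hx : x ∈ S
      · obtain ⟨q, hq, hqx⟩ := mem_image.1 hx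
        have h1 := hgain v hv q hq
        have h2 : ∀ j, Quotient.mk s j = x → a c j = a c₁ j := by
          intro j hj
          refine haloc c c₁ j fun i hi => hc i ?_
          have : Quotient.mk s i = x := (Quotient.sound hi).trans hj
          rwa [this]
        have hcls : (univ.filter fun j => Quotient.mk s j = x) = univ.filter fun j => s j q := by
          ext j
          simp only [mem_filter, mem_univ, true_and]
          rw [← hqx]
          exact Quotient.eq
        have h3 : ∑ j with Quotient.mk s j = x, F j = δ ^ (M₀ - b c x) *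
            ∑ j with s j q, (if j ∈ Q then a c₁ j * v j else -(A * (a c₁ j * v j))) := by
          rw [hcls, Finset.mul_sum]
          refine Finset.sum_congr rfl fun j hj => ?_
          have hj' : Quotient.mk s j = x := by
            rw [← hqx]
            exact Quotient.sound (mem_filter.1 hj).2
          simp only [hF]
          rw [hj', h2 j hj']
          split_ifs <;> ring
        have h4 : m ≤ δ ^ (M₀ - b c x) := by
          rw [hm]
          refine pow_le_pow_of_le_one hδ0.le hδ1 ?_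
          have := hymin x hx
          omega
        have h5 : 0 ≤ ∑ j with s j q, v j := Finset.sum_nonneg fun j _ => hv0 j
        have h6 : ∑ j with Quotient.mk s j = x, (if j ∈ Q then v j else 0) ≤
            ∑ j with s j q, v j := by
          rw [hcls]
          refine Finset.sum_le_sum fun j _ => ?_
          split_ifs
          · exact le_rfl
          · exact hv0 j
        rw [h3]
        have h7 : m * ∑ j with s j q, v j ≤ δ ^ (M₀ - b c x) *
            ∑ j with s j q, (if j ∈ Q then a c₁ j * v j else -(A * (a c₁ j * v j))) :=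
          mul_le_mul h4 h1 h5 (hm0.le.trans h4)
        have h8 := mul_le_mul_of_nonneg_left h6 hm0.le
        linarith
      · have hjQ : ∀ j, Quotient.mk s j = x → j ∉ Q := by
          intro j hj hjQ
          apply hx
          rw [← hj]
          exact mem_image_of_mem _ hjQ
        have h1 : ∑ j with Quotient.mk s j = x, (if j ∈ Q then v j else 0) = 0 := by
          refine Finset.sum_eq_zero fun j hj => if_neg (hjQ j (mem_filter.1 hj).2)
        rw [h1, mul_zero, zero_sub, Finset.mul_sum, ← Finset.sum_neg_distrib]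
        refine Finset.sum_le_sum fun j hj => ?_
        have hj' : Quotient.mk s j = x := (mem_filter.1 hj).2
        simp only [hF]
        rw [if_neg (hjQ j hj'), hj', neg_le_neg_iff]
        have h2 : δ ^ (M₀ - b c x) ≤ m * δ := by
          rw [hm, ← pow_succ]
          refine pow_le_pow_of_le_one hδ0.le hδ1 ?_
          have h3 := hrank y hyS x hx
          have h4 := hb1 c y
          omega
        have h3 : 0 ≤ a c j := (zero_le_one).trans (ha1 c j)
        have h4 := hB' c j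
        have h5 := hv0 j
        have h6 : δ ^ (M₀ - b c x) * a c j * v j ≤ (m * δ) * B' * v j := by
          have hp : 0 ≤ δ ^ (M₀ - b c x) := pow_nonneg hδ0.le _
          gcongr
        calc A * (δ ^ (M₀ - b c x) * a c j * v j) ≤ A * ((m * δ) * B' * v j) :=
              mul_le_mul_of_nonneg_left h6 hA
          _ = m * ((A * B' * δ) * v j) := by ring
          _ ≤ m * (τ * v j) := by
              refine mul_le_mul_of_nonneg_left ?_ hm0.le
              exact mul_le_mul_of_nonneg_right hδ2 h5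
    have hsum : ∑ x : Quotient s, ∑ j with Quotient.mk s j = x, F j = ∑ j, F j :=
      Finset.sum_fiberwise _ _ _
    have hsum1 : ∑ x : Quotient s, ∑ j with Quotient.mk s j = x, (if j ∈ Q then v j else 0) =
        ∑ j ∈ Q, v j := by
      rw [Finset.sum_fiberwise]
      rw [Finset.sum_ite_mem, Finset.univ_inter]
    have hsum2 : ∑ x : Quotient s, ∑ j with Quotient.mk s j = x, τ * v j = τ * ∑ j, v j := by
      rw [Finset.sum_fiberwise, Finset.mul_sum]
    have htot := Finset.sum_le_sum fun x (_ : x ∈ (univ : Finset (Quotient s))) => hT x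
    rw [hsum, Finset.sum_sub_distrib, ← Finset.mul_sum, ← Finset.mul_sum, hsum1, hsum2] at htot
    have h9 : 0 < m * (∑ j ∈ Q, v j - τ * ∑ j, v j) := mul_pos hm0 (by linarith)
    have h10 : 0 < ∑ j, F j := by linarith
    exact h10

/-- **Main theorem.** -/
theorem main {E : ι → Type} [∀ j, NormedAddCommGroup (E j)]
    [∀ j, NormedSpace ℝ (E j)] [∀ j, FiniteDimensional ℝ (E j)]
    (C : ∀ j, Set (E j)) (hCc : ∀ j, Convex ℝ (C j))
    (hCk : ∀ j, IsCompact (C j)) (hC0 : ∀ j, (0 : E j) ∈ interior (C j))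
    (N : ι → ℕ) (hN : ∀ j, 2 ≤ N j)
    (hcov : ∀ j, ∃ T : Finset (E j), T.card ≤ N j ∧
      C j ⊆ ⋃ t ∈ T, (fun x => t + x) '' interior (C j))
    (M : Set (ι → ℝ)) (hMc : Convex ℝ M) (hMcl : IsClosed M)
    (hM0 : (0 : ι → ℝ) ∈ interior M) (hsol : Pool.Agent.R753.Sol M)
    (K : Set (∀ j, E j)) (hK : K = {x | (fun j => gauge (C j) (x j)) ∈ M})
    (hKb : Bornology.IsBounded K)
    (r : ℕ → Setoid ι) (h : ℕ) (hr0 : r 0 = ⊥) (hr : ∀ t < h, r t ≤ r (t + 1)) (C₀ : ℝ)
    (hdom : ∀ t < h, ∀ i l, r (t + 1) i l → ∀ X ∈ M, (∀ j, 0 ≤ X j) → X i ≠ 0 →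
      (∀ l', r t l l' → X l' = 0) → ∀ v, Nor M X v →
        v l ≤ C₀ * ∑ i' with r t i' i, max (v i') 0)
    (hk : ∑ x : Quotient (r h), ∏ j with Quotient.mk (r h) j = x, (1 : ℝ) / N j ≤ 1) :
    Convex ℝ K ∧ IsCompact K ∧ (0 : ∀ j, E j) ∈ interior K ∧
    ∃ T : Finset (∀ j, E j), T.card ≤ ∏ j, N j ∧
      K ⊆ ⋃ t ∈ T, (fun x => t + x) '' interior K := by
  obtain ⟨hconv, hcomp, hint0, hint⟩ := Pool.Agent.R753.body C hCc hC0 M hMc hMcl hM0 hsol K hK hKb
  refine ⟨hconv, hcomp, hint0, ?_⟩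
  choose u κ D hκ0 hκ1 hD1 hu1 hu2 using fun j =>
    Pool.Agent.H665R3.Lam.step (hCc j) (hCk j) (hC0 j) (hcov j)
  obtain ⟨κ₀, hκ₀0, hκ₀⟩ : ∃ κ₀ : ℝ, 0 < κ₀ ∧ ∀ j, κ₀ ≤ κ j := by
    rcases isEmpty_or_nonempty ι with hemp | hnonemp
    · exact ⟨1, one_pos, fun j => (hemp.false j).elim⟩
    · obtain ⟨j, -, hj⟩ := Finset.exists_min_image Finset.univ κ Finset.univ_nonempty
      exact ⟨κ j, hκ0 j, fun i => hj i (Finset.mem_univ i)⟩
  obtain ⟨D₀, hD₀0, hD₀⟩ : ∃ D₀ : ℝ, 0 < D₀ ∧ ∀ j, D j ≤ D₀ := by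
    rcases isEmpty_or_nonempty ι with hemp | hnonemp
    · exact ⟨1, one_pos, fun j => (hemp.false j).elim⟩
    · obtain ⟨j, -, hj⟩ := Finset.exists_max_image Finset.univ D Finset.univ_nonempty
      exact ⟨D j, zero_lt_one.trans_le (hD1 j), fun i => hj i (Finset.mem_univ i)⟩
  -- a ball in `M`
  obtain ⟨ρ, hρ0, hball⟩ : ∃ ρ : ℝ, 0 < ρ ∧ ∀ Y : ι → ℝ, (∀ j, |Y j| ≤ ρ) → Y ∈ M := by
    obtain ⟨ρ, hρ, hb⟩ := Metric.isOpen_iff.1 (isOpen_interior (s := M)) 0 hM0
    refine ⟨ρ / 2, by positivity, fun Y hY => interior_subset (hb ?_)⟩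
    rw [Metric.mem_ball]
    refine lt_of_le_of_lt ((dist_pi_le_iff (by positivity : (0 : ℝ) ≤ ρ / 2)).2 ?_)
      (by linarith : ρ / 2 < ρ)
    intro i
    rw [Real.dist_eq, Pi.zero_apply, sub_zero]
    exact hY i
  -- a bound for the gauges
  have hGc : Continuous (fun (x : ∀ j, E j) (j : ι) => gauge (C j) (x j)) := by
    refine continuous_pi fun j => ?_
    exact (continuous_gauge (hCc j) (mem_interior_iff_mem_nhds.1 (hC0 j))).comp
      (continuous_apply j)
  obtain ⟨R, hR0, hR⟩ : ∃ R : ℝ, 0 < R ∧ ∀ x ∈ K, ∀ j, gauge (C j) (x j) ≤ R := by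
    obtain ⟨R, hR⟩ := (hcomp.image hGc).isBounded.exists_norm_le
    refine ⟨max R 1, lt_max_of_lt_right one_pos, ?_⟩
    intro x hx j
    have h1 := hR _ (Set.mem_image_of_mem _ hx)
    have h2 := norm_le_pi_norm (fun j => gauge (C j) (x j)) j
    exact ((le_abs_self _).trans (h2.trans h1)).trans (le_max_left _ _)
  -- the weights
  set A : ℝ := D₀ / κ₀ with hA
  have hA0 : 0 < A := by positivity
  set C₁ : ℝ := max C₀ 0 with hC₁
  have hC₁0 : 0 ≤ C₁ := le_max_right _ _
  set V : Finset ι → (ι → ℝ) → Prop := fun Q v => (∀ j, 0 ≤ v j) ∧ ∀ t < h, ∀ i ∈ Q, ∀ l,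
    r (t + 1) i l → (∀ l', r t l l' → l' ∉ Q) → v l ≤ C₁ * ∑ i' with r t i' i, v i' with hV
  have hV0 : ∀ Q v, V Q v → ∀ j, 0 ≤ v j := fun Q v hv => hv.1
  have hPP : PP N (r h) A V := pp_levels hN hr0 hr hA0.le hC₁0 hV0
    (fun t ht Q v hv i hi l h1 h2 => hv.2 t ht i hi l h1 h2) h le_rfl
  set τ : ℝ := ρ / (2 * R) with hτ
  have hτ0 : 0 < τ := by positivity
  obtain ⟨α, hα0, hα⟩ := weights hN (r h) hA0.le hV0 hk hPP hτ0
  have hcard : Fintype.card (∀ j, Fin (N j)) = ∏ j, N j := by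
    rw [Fintype.card_pi]
    simp
  rw [← hcard]
  refine cover_dirs hconv hcomp (fun (c : ∀ j, Fin (N j)) (j : ι) => α c j • u j (c j)) ?_
  intro x hx
  choose c₀ hc₀ using fun j => hu2 j (x j)
  set X : ι → ℝ := fun j => gauge (C j) (x j) with hX
  have hX0 : ∀ j, 0 ≤ X j := fun j => gauge_nonneg _
  have hXM : X ∈ M := by
    rw [hK] at hx
    exact hx
  have hXR : ∀ j, X j ≤ R := fun j => hR x hx j
  set Q : Finset ι := univ.filter fun j => X j ≠ 0 with hQ
  have hQmem : ∀ j, j ∈ Q ↔ X j ≠ 0 := fun j => by simp [hQ]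
  obtain ⟨c, hc1, hc2⟩ := hα Q c₀
  refine ⟨c, ?_⟩
  set G : ι → ℝ := fun j => if j ∈ Q then -(κ₀ * α c j) else D₀ * α c j with hG
  have hray : ∀ w, Nor M X w → w ≠ 0 → ∑ j, w j * G j < 0 := by
    intro w hw hw0
    have hwQ : ∀ j ∈ Q, 0 ≤ w j := fun j hj => nor_nonneg hsol hXM hX0 hw ((hQmem j).1 hj)
    set v : ι → ℝ := fun j => max (w j) 0 with hv
    have hv0 : ∀ j, 0 ≤ v j := fun j => le_max_right _ _
    have hVv : V Q v := by
      refine ⟨hv0, fun t ht i hi l h1 h2 => ?_⟩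
      have h3 := hdom t ht i l h1 X hXM hX0 ((hQmem i).1 hi) (fun l' hl' => ?_) w hw
      · have h4 : 0 ≤ ∑ i' with r t i' i, v i' := Finset.sum_nonneg fun j _ => hv0 j
        have h5 : w l ≤ C₁ * ∑ i' with r t i' i, v i' :=
          h3.trans (mul_le_mul_of_nonneg_right (le_max_left _ _) h4)
        exact max_le h5 (mul_nonneg hC₁0 h4)
      · by_contra hcon
        exact h2 l' hl' ((hQmem l').2 hcon)
    have hsize := nor_size hρ0.le hball hw
    have hpos : 0 < ∑ j, |w j| := by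
      obtain ⟨j, hj⟩ := Function.ne_iff.1 hw0
      exact Finset.sum_pos' (fun j _ => abs_nonneg _) ⟨j, mem_univ _, abs_pos.2 hj⟩
    have h1 : ∑ j, w j * X j ≤ R * ∑ j ∈ Q, v j := by
      have h2 : ∑ j, w j * X j = ∑ j ∈ Q, w j * X j := by
        symm
        refine Finset.sum_subset (Finset.subset_univ _) fun j _ hj => ?_
        have : X j = 0 := by
          by_contra hcon
          exact hj ((hQmem j).2 hcon)
        rw [this, mul_zero]
      rw [h2, Finset.mul_sum]
      refine Finset.sum_le_sum fun j hj => ?_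
      have h3 : w j ≤ v j := le_max_left _ _
      have h4 := hwQ j hj
      have h5 := hX0 j
      have h6 := hXR j
      nlinarith [mul_nonneg h4 (sub_nonneg.2 h6), mul_nonneg hR0.le (sub_nonneg.2 h3)]
    have h2 : ∑ j, v j ≤ ∑ j, |w j| :=
      Finset.sum_le_sum fun j _ => max_le (le_abs_self _) (abs_nonneg _)
    have h3 : τ * ∑ j, v j < ∑ j ∈ Q, v j := by
      have h4 : τ * ∑ j, v j ≤ τ * ∑ j, |w j| := mul_le_mul_of_nonneg_left h2 hτ0.le
      have h5 : R * (τ * ∑ j, |w j|) < R * ∑ j ∈ Q, v j := by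
        have h6 : R * (τ * ∑ j, |w j|) = ρ * (∑ j, |w j|) / 2 := by
          rw [hτ]
          field_simp
        rw [h6]
        have h7 : 0 < ρ * ∑ j, |w j| := mul_pos hρ0 hpos
        linarith
      exact lt_of_le_of_lt h4 (lt_of_mul_lt_mul_left h5 hR0.le)
    have h4 := hc2 v hVv h3
    have h5 : ∑ j, w j * G j ≤
        -(κ₀ * ∑ j, (if j ∈ Q then α c j * v j else -(A * (α c j * v j)))) := by
      rw [Finset.mul_sum, ← Finset.sum_neg_distrib]
      refine Finset.sum_le_sum fun j _ => ?_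
      simp only [hG]
      have h6 := hα0 c j
      split_ifs with hj
      · have h7 : v j = w j := max_eq_left (hwQ j hj)
        rw [h7]
        exact le_of_eq (by ring)
      · have h7 : w j ≤ v j := le_max_left _ _
        have h8 : -(κ₀ * -(A * (α c j * v j))) = (D₀ * α c j) * v j := by
          rw [hA]
          field_simp
        rw [h8, mul_comm (w j)]
        exact mul_le_mul_of_nonneg_left h7 (by positivity)
    have h6 := mul_pos hκ₀0 h4
    linarith
  obtain ⟨t₁, ht₁, hmem⟩ := ray hMc ⟨0, hM0⟩ hXM hray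
  -- a small time
  obtain ⟨t₂, ht₂, hsmall⟩ : ∃ t₂ : ℝ, 0 < t₂ ∧ ∀ j ∈ Q, t₂ * α c j ≤ X j := by
    rcases Q.eq_empty_or_nonempty with hQe | hQne
    · exact ⟨1, one_pos, by simp [hQe]⟩
    · obtain ⟨j₀, hj₀, hmin⟩ := Finset.exists_min_image Q (fun j => X j / α c j) hQne
      refine ⟨X j₀ / α c j₀, ?_, fun j hj => ?_⟩
      · have h1 : 0 < X j₀ := lt_of_le_of_ne (hX0 _) (Ne.symm ((hQmem _).1 hj₀))
        exact div_pos h1 (hα0 _ _)
      · have h1 := hmin j hj
        rwa [le_div_iff₀ (hα0 c j)] at h1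
  set t : ℝ := min t₁ t₂ with ht
  have ht0 : 0 < t := lt_min ht₁ ht₂
  refine ⟨t, ht0, ?_⟩
  apply hint
  have hp := hmem t ht0 (min_le_left _ _)
  -- a slightly larger point of `M`
  obtain ⟨ε, hε, hpε⟩ : ∃ ε : ℝ, 0 < ε ∧ X + t • G + (fun _ => ε) ∈ M := by
    obtain ⟨ε, hε, hb⟩ := Metric.isOpen_iff.1 (isOpen_interior (s := M)) _ hp
    refine ⟨ε / 2, by positivity, interior_subset (hb ?_)⟩
    rw [Metric.mem_ball, dist_eq_norm, add_sub_cancel_left]
    refine lt_of_le_of_lt ((pi_norm_le_iff_of_nonneg (by positivity : (0 : ℝ) ≤ ε / 2)).2 ?_)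
      (by linarith : ε / 2 < ε)
    intro i
    rw [Real.norm_eq_abs, abs_of_pos (by positivity)]
  refine Pool.Agent.R753.interior_of_lt hMc hM0 hsol hpε (fun i => gauge_nonneg _) fun i => ?_
  simp only [Pi.add_apply, Pi.smul_apply, smul_eq_mul, Pi.sub_apply]
  have hαi := hα0 c i
  have htα : 0 ≤ t * α c i := by positivity
  rw [smul_smul]
  by_cases hi : i ∈ Q
  · have h1 := hc₀ i (t * α c i) htα (by
      refine le_trans ?_ (hsmall i hi)
      exact mul_le_mul_of_nonneg_right (min_le_right _ _) hαi.le)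
    rw [← hc1 i hi] at h1
    have h2 : κ₀ * (t * α c i) ≤ κ i * (t * α c i) := mul_le_mul_of_nonneg_right (hκ₀ i) htα
    have h3 : t * G i = -(κ₀ * (t * α c i)) := by
      simp only [hG, if_pos hi]
      ring
    rw [h3]
    linarith
  · have h1 := hu1 i (c i) (x i) (t * α c i) htα
    have h2 : D i * (t * α c i) ≤ D₀ * (t * α c i) := mul_le_mul_of_nonneg_right (hD₀ i) htα
    have h3 : t * G i = D₀ * (t * α c i) := by
      simp only [hG, if_neg hi]
      ring
    rw [h3]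
    linarith

end Pool.Agent.Zk58.SS
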