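import Mathlib
import Pool.Agent.R753.Sums
import Pool.Agent.Zk58.SS.Step
import Pool.Agent.Zk58.SS.Ray

set_option autoImplicit false

/-!
Sums of convex bodies with respect to a set with nested supports.
-/

namespace Pool.Agent.Zk58.SS

open Finset Filter Topology
open scoped Classical

variable {ι : Type} [Fintype ι] [LinearOrder ι]

/-- a direction illuminates `x` if the corresponding direction of the profile set does -/
lemma illum {E : ι → Type} [∀ j, NormedAddCommGroup (E j)] [∀ j, NormedSpace ℝ (E j)]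
    {C : ∀ j, Set (E j)} {M : Set (ι → ℝ)} (hMc : Convex ℝ M) (hM0 : (0 : ι → ℝ) ∈ interior M)
    (hsol : Pool.Agent.R753.Sol M) {K : Set (∀ j, E j)}
    (hint : ∀ y : ∀ j, E j, (fun j => gauge (C j) (y j)) ∈ interior M → y ∈ interior K)
    {x : ∀ j, E j} {X : ι → ℝ} (hXM : X ∈ M)
    (d : ∀ j, E j) {α : ι → ℝ} (hα : ∀ j, 0 < α j) {κ₀ D₀ : ℝ} (S : Finset ι)
    (hS : ∀ j ∈ S, 0 < X j ∧ ∀ s, 0 ≤ s → s ≤ X j → gauge (C j) (x j - s • d j) ≤ X j - κ₀ * s)
    (hD : ∀ j, ∀ s, 0 ≤ s → gauge (C j) (x j - s • d j) ≤ X j + D₀ * s)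
    (hneg : ∀ w, Nor M X w → w ≠ 0 →
      ∑ j, w j * (if j ∈ S then -(κ₀ * α j) else D₀ * α j) < 0) :
    ∃ t : ℝ, 0 < t ∧ x - t • (fun j => α j • d j) ∈ interior K := by
  set G : ι → ℝ := fun j => if j ∈ S then -(κ₀ * α j) else D₀ * α j with hG
  obtain ⟨t₁, ht₁, hmem⟩ := ray hMc ⟨0, hM0⟩ hXM hneg
  -- a small time
  obtain ⟨t₂, ht₂, hsmall⟩ : ∃ t₂ : ℝ, 0 < t₂ ∧ ∀ j ∈ S, t₂ * α j ≤ X j := by
    rcases S.eq_empty_or_nonempty with hQe | hQne
    · exact ⟨1, one_pos, by simp [hQe]⟩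
    · obtain ⟨j₀, hj₀, hmin⟩ := Finset.exists_min_image S (fun j => X j / α j) hQne
      refine ⟨X j₀ / α j₀, div_pos (hS j₀ hj₀).1 (hα _), fun j hj => ?_⟩
      have h1 := hmin j hj
      rwa [le_div_iff₀ (hα j)] at h1
  set t : ℝ := min t₁ t₂ with ht
  have ht0 : 0 < t := lt_min ht₁ ht₂
  refine ⟨t, ht0, ?_⟩
  apply hint
  have hp := hmem t ht0 (min_le_left _ _)
  -- a slightly larger point of `M`
  obtain ⟨ε, hε, hpε⟩ : ∃ ε : ℝ, 0 < ε ∧ X + t • G + (fun _ => ε) ∈ M := by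
    obtain ⟨ε, hε, hb⟩ := Metric.isOpen_iff.1 (isOpen_interior (s := M)) _ hp
    refine ⟨ε / 2, by positivity, interior_subset (hb ?_)⟩
    rw [Metric.mem_ball, dist_eq_norm, add_sub_cancel_left]
    refine lt_of_le_of_lt ((pi_norm_le_iff_of_nonneg (by positivity : (0 : ℝ) ≤ ε / 2)).2 ?_)
      (by linarith : ε / 2 < ε)
    intro i
    rw [Real.norm_eq_abs, abs_of_pos (by positivity)]
  refine Pool.Agent.R753.interior_of_lt hMc hM0 hsol hpε (fun i => gauge_nonneg _) fun i => ?_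
  simp only [Pi.add_apply, Pi.smul_apply, smul_eq_mul, Pi.sub_apply]
  have hαi := hα i
  have htα : 0 ≤ t * α i := by positivity
  rw [smul_smul]
  by_cases hi : i ∈ S
  · have h1 := (hS i hi).2 (t * α i) htα (by
      refine le_trans ?_ (hsmall i hi)
      exact mul_le_mul_of_nonneg_right (min_le_right _ _) hαi.le)
    have h3 : t * G i = -(κ₀ * (t * α i)) := by
      simp only [hG, if_pos hi]
      ring
    rw [h3]
    linarith
  · have h1 := hD i (t * α i) htα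
    have h3 : t * G i = D₀ * (t * α i) := by
      simp only [hG, if_neg hi]
      ring
    rw [h3]
    linarith

/-- **Nested supports.** -/
theorem nested {E : ι → Type} [∀ j, NormedAddCommGroup (E j)]
    [∀ j, NormedSpace ℝ (E j)] [∀ j, FiniteDimensional ℝ (E j)]
    (C : ∀ j, Set (E j)) (hCc : ∀ j, Convex ℝ (C j))
    (hCk : ∀ j, IsCompact (C j)) (hC0 : ∀ j, (0 : E j) ∈ interior (C j))
    (N : ι → ℕ) (hN : ∀ j, 2 ≤ N j)
    (hcov : ∀ j, ∃ T : Finset (E j), T.card ≤ N j ∧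
      C j ⊆ ⋃ t ∈ T, (fun x => t + x) '' interior (C j))
    (M : Set (ι → ℝ)) (hMc : Convex ℝ M) (hMcl : IsClosed M)
    (hM0 : (0 : ι → ℝ) ∈ interior M) (hsol : Pool.Agent.R753.Sol M)
    (K : Set (∀ j, E j)) (hK : K = {x | (fun j => gauge (C j) (x j)) ∈ M})
    (hKb : Bornology.IsBounded K)
    (hnest : ∀ X ∈ M, (∀ j, 0 ≤ X j) → ∀ v, Nor M X v →
      (∀ i, X i ≠ 0 → v i ≠ 0) ∨ (∀ i, 0 < v i → X i ≠ 0)) :
    ∃ T : Finset (∀ j, E j), T.card ≤ ∏ j, N j ∧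
      K ⊆ ⋃ t ∈ T, (fun x => t + x) '' interior K := by
  obtain ⟨hconv, hcomp, hint0, hint⟩ := Pool.Agent.R753.body C hCc hC0 M hMc hMcl hM0 hsol K hK hKb
  choose u κ D hκ0 hκ1 hD1 hu1 hu2 using fun j =>
    Pool.Agent.H665R3.Lam.step (hCc j) (hCk j) (hC0 j) (hcov j)
  obtain ⟨κ₀, hκ₀0, hκ₀⟩ : ∃ κ₀ : ℝ, 0 < κ₀ ∧ ∀ j, κ₀ ≤ κ j := by
    rcases isEmpty_or_nonempty ι with hemp | hnonemp
    · exact ⟨1, one_pos, fun j => (hemp.false j).elim⟩
    · obtain ⟨j, -, hj⟩ := Finset.exists_min_image Finset.univ κ Finset.univ_nonempty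
      exact ⟨κ j, hκ0 j, fun i => hj i (Finset.mem_univ i)⟩
  obtain ⟨D₀, hD₀0, hD₀⟩ : ∃ D₀ : ℝ, 0 < D₀ ∧ ∀ j, D j ≤ D₀ := by
    rcases isEmpty_or_nonempty ι with hemp | hnonemp
    · exact ⟨1, one_pos, fun j => (hemp.false j).elim⟩
    · obtain ⟨j, -, hj⟩ := Finset.exists_max_image Finset.univ D Finset.univ_nonempty
      exact ⟨D j, zero_lt_one.trans_le (hD1 j), fun i => hj i (Finset.mem_univ i)⟩
  obtain ⟨ρ, hρ0, hball⟩ : ∃ ρ : ℝ, 0 < ρ ∧ ∀ Y : ι → ℝ, (∀ j, |Y j| ≤ ρ) → Y ∈ M := by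
    obtain ⟨ρ, hρ, hb⟩ := Metric.isOpen_iff.1 (isOpen_interior (s := M)) 0 hM0
    refine ⟨ρ / 2, by positivity, fun Y hY => interior_subset (hb ?_)⟩
    rw [Metric.mem_ball]
    refine lt_of_le_of_lt ((dist_pi_le_iff (by positivity : (0 : ℝ) ≤ ρ / 2)).2 ?_)
      (by linarith : ρ / 2 < ρ)
    intro i
    rw [Real.dist_eq, Pi.zero_apply, sub_zero]
    exact hY i
  have hGc : Continuous (fun (x : ∀ j, E j) (j : ι) => gauge (C j) (x j)) := by
    refine continuous_pi fun j => ?_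
    exact (continuous_gauge (hCc j) (mem_interior_iff_mem_nhds.1 (hC0 j))).comp
      (continuous_apply j)
  have hcard : Fintype.card (∀ j, Fin (N j)) = ∏ j, N j := by
    rw [Fintype.card_pi]
    simp
  rw [← hcard]
  -- the weights with parameter `W`
  set α : ℕ → (∀ j, Fin (N j)) → ι → ℝ := fun W c j =>
    if IsD univ (bit c) j then (W : ℝ) + 1 else 1 with hα
  have hα0 : ∀ W c j, 0 < α W c j := by
    intro W c j
    simp only [hα]
    split_ifs <;> positivity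
  by_contra hcon
  have hfail : ∀ W : ℕ, ∃ x ∈ K, ∀ c, ∀ t : ℝ, 0 < t →
      x - t • (fun j => α W c j • u j (c j)) ∉ interior K := by
    intro W
    by_contra hc
    push Not at hc
    exact hcon (cover_dirs hconv hcomp (fun (c : ∀ j, Fin (N j)) (j : ι) => α W c j • u j (c j)) hc)
  choose x hxK hx using hfail
  choose c₀ hc₀ using fun (W : ℕ) (j : ι) => hu2 j (x W j)
  set 𝒰 : Ultrafilter ℕ := Filter.hyperfilter ℕ with h𝒰
  have h𝒰top : (𝒰 : Filter ℕ) ≤ atTop := by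
    rw [h𝒰, ← Nat.cofinite_eq_atTop]
    exact Filter.hyperfilter_le_cofinite
  obtain ⟨xl, hxlK, hxl⟩ : ∃ xl ∈ K, Tendsto x 𝒰 (𝓝 xl) := by
    obtain ⟨xl, hxl1, hxl2⟩ := hcomp.ultrafilter_le_nhds' (𝒰.map x)
      (Filter.mem_map.2 (Filter.univ_mem' hxK))
    exact ⟨xl, hxl1, hxl2⟩
  obtain ⟨cs, hcs⟩ : ∃ cs : ∀ j, Fin (N j), ∀ᶠ W in (𝒰 : Filter ℕ), c₀ W = cs := by
    have h1 : ∀ᶠ W in (𝒰 : Filter ℕ), ∃ cs : ∀ j, Fin (N j), c₀ W = cs :=
      Filter.Eventually.of_forall fun W => ⟨_, rfl⟩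
    exact (Ultrafilter.eventually_exists_iff).1 h1
  set X : ℕ → ι → ℝ := fun W j => gauge (C j) (x W j) with hX
  set Xl : ι → ℝ := fun j => gauge (C j) (xl j) with hXl
  have hXt : Tendsto X 𝒰 (𝓝 Xl) := (hGc.tendsto xl).comp hxl
  have hXM : ∀ W, X W ∈ M := by
    intro W
    have := hxK W
    rw [hK] at this
    exact this
  have hXlM : Xl ∈ M := by
    have := hxlK
    rw [hK] at this
    exact this
  have hX0 : ∀ W j, 0 ≤ X W j := fun W j => gauge_nonneg _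
  have hXl0 : ∀ j, 0 ≤ Xl j := fun j => gauge_nonneg _
  set Q : Finset ι := univ.filter fun j => Xl j ≠ 0 with hQ
  have hQmem : ∀ j, j ∈ Q ↔ Xl j ≠ 0 := fun j => by simp [hQ]
  obtain ⟨c, hcQ, hcD⟩ : ∃ c : ∀ j, Fin (N j), (∀ j ∈ Q, c j = cs j) ∧
      (Q.Nonempty → ∃ i ∈ Q, IsD univ (bit c) i) := by
    by_cases hne : Q.Nonempty
    · obtain ⟨b, hb1, i, hiQ, hiD⟩ := exists_isD (Finset.subset_univ Q) hne (bit cs)
      refine ⟨fun j => if j ∈ Q then cs j else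
        (if b j then ⟨1, lt_of_lt_of_le (by norm_num) (hN j)⟩
          else ⟨0, lt_of_lt_of_le (by norm_num) (hN j)⟩), fun j hj => if_pos hj,
        fun _ => ⟨i, hiQ, (isD_congr (fun j _ => ?_) i).2 hiD⟩⟩
      unfold bit
      beta_reduce
      by_cases hj : j ∈ Q
      · rw [if_pos hj, hb1 j hj]
        rfl
      · rw [if_neg hj]
        cases b j <;> simp
    · exact ⟨cs, fun _ _ => rfl, fun h => absurd h hne⟩
  -- the set of good `W`
  have hgood : ∀ᶠ W in (𝒰 : Filter ℕ), c₀ W = cs ∧ ∀ j ∈ Q, 0 < X W j := by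
    refine hcs.and ?_
    rw [Filter.eventually_all_finset]
    intro j hj
    have h1 : Tendsto (fun W => X W j) 𝒰 (𝓝 (Xl j)) := (tendsto_pi_nhds.1 hXt) j
    have h2 : 0 < Xl j := lt_of_le_of_ne (hXl0 j) (Ne.symm ((hQmem j).1 hj))
    exact h1.eventually (lt_mem_nhds h2)
  set G : ℕ → ι → ℝ := fun W j => if j ∈ Q then -(κ₀ * α W c j) else D₀ * α W c j with hG
  have hnormal : ∀ W, (c₀ W = cs ∧ ∀ j ∈ Q, 0 < X W j) →
      ∃ w : ι → ℝ, Nor M (X W) w ∧ ∑ j, |w j| = 1 ∧ 0 ≤ ∑ j, w j * G W j := by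
    rintro W ⟨hW1, hW2⟩
    have hex : ∃ w : ι → ℝ, Nor M (X W) w ∧ w ≠ 0 ∧ 0 ≤ ∑ j, w j * G W j := by
      by_contra hc
      push Not at hc
      have hSS : ∀ j ∈ Q, 0 < X W j ∧ ∀ s, 0 ≤ s → s ≤ X W j →
          gauge (C j) (x W j - s • u j (c j)) ≤ X W j - κ₀ * s := by
        intro j hj
        refine ⟨hW2 j hj, fun s hs hsX => ?_⟩
        have h1 := hc₀ W j s hs hsX
        have h2 : c₀ W j = c j := by
          rw [hW1]
          exact (hcQ j hj).symm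
        rw [h2] at h1
        have h3 := mul_le_mul_of_nonneg_right (hκ₀ j) hs
        have h4 : gauge (C j) (x W j) = X W j := rfl
        rw [h4] at h1
        linarith
      have hDD : ∀ j, ∀ s, 0 ≤ s → gauge (C j) (x W j - s • u j (c j)) ≤ X W j + D₀ * s := by
        intro j s hs
        have h1 := hu1 j (c j) (x W j) s hs
        have h3 := mul_le_mul_of_nonneg_right (hD₀ j) hs
        have h4 : gauge (C j) (x W j) = X W j := rfl
        rw [h4] at h1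
        linarith
      obtain ⟨t, ht, hmem⟩ := illum hMc hM0 hsol hint (hXM W) (fun j => u j (c j)) (hα0 W c)
        Q hSS hDD hc
      exact hx W c t ht hmem
    obtain ⟨w, hw1, hw2, hw3⟩ := hex
    have hpos : 0 < ∑ j, |w j| := by
      obtain ⟨j, hj⟩ := Function.ne_iff.1 hw2
      exact Finset.sum_pos' (fun j _ => abs_nonneg _) ⟨j, mem_univ _, abs_pos.2 hj⟩
    refine ⟨fun j => (∑ j, |w j|)⁻¹ * w j, ?_, ?_, ?_⟩
    · intro Y hY
      have h1 := mul_le_mul_of_nonneg_left (hw1 Y hY) (inv_nonneg.2 hpos.le)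
      simp only [Finset.mul_sum, ← mul_assoc] at h1
      exact h1
    · simp only [abs_mul, abs_of_pos (inv_pos.2 hpos)]
      rw [← Finset.mul_sum]
      exact inv_mul_cancel₀ hpos.ne'
    · have h1 := mul_nonneg (inv_nonneg.2 hpos.le) hw3
      simp only [Finset.mul_sum, ← mul_assoc] at h1
      exact h1
  choose! w hw1 hw2 hw3 using hnormal
  -- the limit of the normals
  have hwb : ∀ᶠ W in (𝒰 : Filter ℕ), w W ∈ Metric.closedBall (0 : ι → ℝ) 1 := by
    filter_upwards [hgood] with W hW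
    rw [mem_closedBall_zero_iff, pi_norm_le_iff_of_nonneg zero_le_one]
    intro j
    rw [Real.norm_eq_abs, ← hw2 W hW]
    exact Finset.single_le_sum (f := fun j => |w W j|) (fun j _ => abs_nonneg _) (mem_univ j)
  obtain ⟨wl, -, hwl⟩ : ∃ wl ∈ Metric.closedBall (0 : ι → ℝ) 1, Tendsto w 𝒰 (𝓝 wl) := by
    obtain ⟨wl, h1, h2⟩ := (isCompact_closedBall (0 : ι → ℝ) 1).ultrafilter_le_nhds' (𝒰.map w)
      (Filter.mem_map.2 hwb)
    exact ⟨wl, h1, h2⟩
  have hwj : ∀ j, Tendsto (fun W => w W j) 𝒰 (𝓝 (wl j)) := fun j => (tendsto_pi_nhds.1 hwl) j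
  have hXj : ∀ j, Tendsto (fun W => X W j) 𝒰 (𝓝 (Xl j)) := fun j => (tendsto_pi_nhds.1 hXt) j
  have hwl1 : ∑ j, |wl j| = 1 := by
    have h1 : Tendsto (fun W => ∑ j, |w W j|) 𝒰 (𝓝 (∑ j, |wl j|)) :=
      tendsto_finsetSum _ fun j _ => (hwj j).abs
    have h2 : Tendsto (fun W => ∑ j, |w W j|) 𝒰 (𝓝 1) := by
      refine Tendsto.congr' ?_ tendsto_const_nhds
      filter_upwards [hgood] with W hW
      exact (hw2 W hW).symm
    exact tendsto_nhds_unique h1 h2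
  have hwnor : Nor M Xl wl := by
    intro Y hY
    have h1 : Tendsto (fun W => ∑ j, w W j * Y j) 𝒰 (𝓝 (∑ j, wl j * Y j)) :=
      tendsto_finsetSum _ fun j _ => (hwj j).mul_const _
    have h2 : Tendsto (fun W => ∑ j, w W j * X W j) 𝒰 (𝓝 (∑ j, wl j * Xl j)) :=
      tendsto_finsetSum _ fun j _ => (hwj j).mul (hXj j)
    refine le_of_tendsto_of_tendsto h1 h2 ?_
    filter_upwards [hgood] with W hW
    exact hw1 W hW Y hY
  have hsize := nor_size hρ0.le hball hwnor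
  rw [hwl1, mul_one] at hsize
  have hnn : ∀ j ∈ Q, 0 ≤ wl j := fun j hj => nor_nonneg hsol hXlM hXl0 hwnor ((hQmem j).1 hj)
  have hsumX : ∑ j, wl j * Xl j = ∑ j ∈ Q, wl j * Xl j := by
    symm
    refine Finset.sum_subset (Finset.subset_univ _) fun j _ hj => ?_
    have : Xl j = 0 := by
      by_contra hcon
      exact hj ((hQmem j).2 hcon)
    rw [this, mul_zero]
  have hQne : Q.Nonempty := by
    by_contra hcon
    rw [not_nonempty_iff_eq_empty] at hcon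
    rw [hsumX, hcon, Finset.sum_empty] at hsize
    linarith
  obtain ⟨i, hiQ, hiD⟩ := hcD hQne
  have hαi : ∀ W, α W c i = (W : ℝ) + 1 := fun W => by
    simp only [hα]
    rw [if_pos hiD]
  have hαj : ∀ W j, j ≠ i → α W c j = 1 := fun W j hj => by
    simp only [hα]
    rw [if_neg]
    exact fun h => hj (h.unique hiD)
  have hnnW : ∀ W, (c₀ W = cs ∧ ∀ j ∈ Q, 0 < X W j) → ∀ j ∈ Q, 0 ≤ w W j := by
    intro W hW j hj
    exact nor_nonneg hsol (hXM W) (hX0 W) (hw1 W hW) (hW.2 j hj).ne'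
  -- the main inequality
  have hineq : ∀ W, (c₀ W = cs ∧ ∀ j ∈ Q, 0 < X W j) →
      κ₀ * (((W : ℝ) + 1) * w W i) + κ₀ * ∑ j ∈ Q.erase i, w W j ≤ D₀ * ∑ j ∈ univ \ Q, w W j := by
    intro W hW
    have h1 := hw3 W hW
    have h2 : ∑ j, w W j * G W j = ∑ j ∈ Q, w W j * G W j + ∑ j ∈ univ \ Q, w W j * G W j := by
      rw [add_comm, Finset.sum_sdiff (Finset.subset_univ Q)]
    have h3 : ∑ j ∈ Q, w W j * G W j =
        -(κ₀ * (((W : ℝ) + 1) * w W i) + κ₀ * ∑ j ∈ Q.erase i, w W j) := by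
      rw [← Finset.add_sum_erase Q _ hiQ, Finset.mul_sum, neg_add, ← Finset.sum_neg_distrib]
      congr 1
      · simp only [hG]
        rw [if_pos hiQ, hαi]
        ring
      · refine Finset.sum_congr rfl fun j hj => ?_
        simp only [hG]
        rw [if_pos (Finset.mem_of_mem_erase hj), hαj W j (Finset.ne_of_mem_erase hj)]
        ring
    have h4 : ∑ j ∈ univ \ Q, w W j * G W j = D₀ * ∑ j ∈ univ \ Q, w W j := by
      rw [Finset.mul_sum]
      refine Finset.sum_congr rfl fun j hj => ?_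
      have hj' : j ∉ Q := (Finset.mem_sdiff.1 hj).2
      simp only [hG]
      rw [if_neg hj', hαj W j (fun h => hj' (h ▸ hiQ))]
      ring
    rw [h2, h3, h4] at h1
    linarith
  have hwi : wl i = 0 := by
    have h1 : Tendsto (fun W : ℕ => D₀ / κ₀ * (1 / ((W : ℝ) + 1))) 𝒰 (𝓝 (D₀ / κ₀ * 0)) :=
      (tendsto_one_div_add_atTop_nhds_zero_nat.mono_left h𝒰top).const_mul _
    rw [mul_zero] at h1
    refine le_antisymm ?_ (hnn i hiQ)
    refine le_of_tendsto_of_tendsto (hwj i) h1 ?_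
    filter_upwards [hgood] with W hW
    have h2 := hineq W hW
    have h3 : 0 ≤ ∑ j ∈ Q.erase i, w W j :=
      Finset.sum_nonneg fun j hj => hnnW W hW j (Finset.mem_of_mem_erase hj)
    have h4 : ∑ j ∈ univ \ Q, w W j ≤ 1 := by
      rw [← hw2 W hW]
      calc ∑ j ∈ univ \ Q, w W j ≤ ∑ j ∈ univ \ Q, |w W j| :=
            Finset.sum_le_sum fun j _ => le_abs_self _
        _ ≤ ∑ j, |w W j| := Finset.sum_le_sum_of_subset_of_nonneg (Finset.subset_univ _)
            fun j _ _ => abs_nonneg _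
    have h5 : (0 : ℝ) < (W : ℝ) + 1 := by positivity
    have h6 : D₀ * ∑ j ∈ univ \ Q, w W j ≤ D₀ * 1 := mul_le_mul_of_nonneg_left h4 hD₀0.le
    have h7 : 0 ≤ κ₀ * ∑ j ∈ Q.erase i, w W j := mul_nonneg hκ₀0.le h3
    have h8 : κ₀ * (((W : ℝ) + 1) * w W i) ≤ D₀ := by linarith
    rw [div_mul_div_comm, mul_one, le_div_iff₀ (by positivity)]
    calc w W i * (κ₀ * ((W : ℝ) + 1)) = κ₀ * (((W : ℝ) + 1) * w W i) := by ring
      _ ≤ D₀ := h8
  have hlim : κ₀ * ∑ j ∈ Q.erase i, wl j ≤ D₀ * ∑ j ∈ univ \ Q, wl j := by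
    have h1 : Tendsto (fun W => κ₀ * ∑ j ∈ Q.erase i, w W j) 𝒰
        (𝓝 (κ₀ * ∑ j ∈ Q.erase i, wl j)) :=
      (tendsto_finsetSum _ fun j _ => hwj j).const_mul _
    have h2 : Tendsto (fun W => D₀ * ∑ j ∈ univ \ Q, w W j) 𝒰
        (𝓝 (D₀ * ∑ j ∈ univ \ Q, wl j)) :=
      (tendsto_finsetSum _ fun j _ => hwj j).const_mul _
    refine le_of_tendsto_of_tendsto h1 h2 ?_
    filter_upwards [hgood] with W hW
    have h3 := hineq W hW
    have h4 : 0 ≤ κ₀ * (((W : ℝ) + 1) * w W i) := by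
      have := hnnW W hW i hiQ
      positivity
    linarith
  have hout : ∀ l, l ∉ Q → wl l ≤ 0 := by
    intro l hl
    rcases hnest Xl hXlM hXl0 wl hwnor with h | h
    · exact absurd hwi (h i ((hQmem i).1 hiQ))
    · by_contra hcon
      push Not at hcon
      exact hl ((hQmem l).2 (h l hcon))
  have h1 : ∑ j ∈ univ \ Q, wl j ≤ 0 :=
    Finset.sum_nonpos fun j hj => hout j (Finset.mem_sdiff.1 hj).2
  have h2 : ∑ j ∈ Q.erase i, wl j ≤ 0 := by
    have h3 : D₀ * ∑ j ∈ univ \ Q, wl j ≤ 0 := mul_nonpos_of_nonneg_of_nonpos hD₀0.le h1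
    by_contra hcon
    push Not at hcon
    have := mul_pos hκ₀0 hcon
    linarith
  have h3 : ∀ j ∈ Q.erase i, wl j = 0 := by
    have h4 : ∑ j ∈ Q.erase i, wl j = 0 := le_antisymm h2
      (Finset.sum_nonneg fun j hj => hnn j (Finset.mem_of_mem_erase hj))
    exact (Finset.sum_eq_zero_iff_of_nonneg
      fun j hj => hnn j (Finset.mem_of_mem_erase hj)).1 h4
  have h4 : ∑ j ∈ Q, wl j * Xl j = 0 := by
    refine Finset.sum_eq_zero fun j hj => ?_
    by_cases hji : j = i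
    · rw [hji, hwi, zero_mul]
    · rw [h3 j (Finset.mem_erase.2 ⟨hji, hj⟩), zero_mul]
  rw [hsumX, h4] at hsize
  linarith

end Pool.Agent.Zk58.SS
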