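import Mathlib
import Pool.Agent.R753.Sums
import Pool.Agent.Zk58.SS.Step
import Pool.Agent.Zk58.SS.Ray
import Pool.Agent.Zk58.SS.Nested

set_option autoImplicit false

/-!
Sums of convex bodies with respect to a set with nested supports: the strict inequality.
-/

namespace Pool.Agent.Zk58.SS

open Finset Filter Topology
open scoped Classical

section limit

variable {ι : Type} [Fintype ι] [LinearOrder ι]

/-- normals at points which are not illuminated, and their limit -/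
lemma limit_normal {E : ι → Type} [∀ j, NormedAddCommGroup (E j)] [∀ j, NormedSpace ℝ (E j)]
    {C : ∀ j, Set (E j)} {M : Set (ι → ℝ)} (hMc : Convex ℝ M) (hM0 : (0 : ι → ℝ) ∈ interior M)
    (hsol : Pool.Agent.R753.Sol M) {K : Set (∀ j, E j)}
    (hint : ∀ y : ∀ j, E j, (fun j => gauge (C j) (y j)) ∈ interior M → y ∈ interior K)
    {x : ℕ → ∀ j, E j} {X : ℕ → ι → ℝ} (hX : X = fun W j => gauge (C j) (x W j))
    (hXM : ∀ W, X W ∈ M) {𝒰 : Ultrafilter ℕ} {Xl : ι → ℝ} (hXt : Tendsto X 𝒰 (𝓝 Xl))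
    (d : ∀ j, E j) {α : ℕ → ι → ℝ} (hα : ∀ W j, 0 < α W j) {κ₀ D₀ : ℝ} (S : Finset ι)
    (hS : ∀ᶠ W in (𝒰 : Filter ℕ), ∀ j ∈ S, 0 < X W j ∧ ∀ s, 0 ≤ s → s ≤ X W j →
      gauge (C j) (x W j - s • d j) ≤ X W j - κ₀ * s)
    (hD : ∀ W j, ∀ s, 0 ≤ s → gauge (C j) (x W j - s • d j) ≤ X W j + D₀ * s)
    (hfail : ∀ W, ∀ t : ℝ, 0 < t → x W - t • (fun j => α W j • d j) ∉ interior K) :
    ∃ (w : ℕ → ι → ℝ) (wl : ι → ℝ),
      (∀ᶠ W in (𝒰 : Filter ℕ), Nor M (X W) (w W) ∧ ∑ j, |w W j| = 1 ∧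
        0 ≤ ∑ j, w W j * (if j ∈ S then -(κ₀ * α W j) else D₀ * α W j)) ∧
      (∀ j, Tendsto (fun W => w W j) 𝒰 (𝓝 (wl j))) ∧ Nor M Xl wl ∧ ∑ j, |wl j| = 1 := by
  subst hX
  set X : ℕ → ι → ℝ := fun W j => gauge (C j) (x W j) with hX
  have hnormal : ∀ W, (∀ j ∈ S, 0 < X W j ∧ ∀ s, 0 ≤ s → s ≤ X W j →
      gauge (C j) (x W j - s • d j) ≤ X W j - κ₀ * s) →
      ∃ w : ι → ℝ, Nor M (X W) w ∧ ∑ j, |w j| = 1 ∧
        0 ≤ ∑ j, w j * (if j ∈ S then -(κ₀ * α W j) else D₀ * α W j) := by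
    intro W hW
    have hex : ∃ w : ι → ℝ, Nor M (X W) w ∧ w ≠ 0 ∧
        0 ≤ ∑ j, w j * (if j ∈ S then -(κ₀ * α W j) else D₀ * α W j) := by
      by_contra hc
      push Not at hc
      obtain ⟨t, ht, hmem⟩ := illum hMc hM0 hsol hint (hXM W) d (hα W) S hW (hD W) hc
      exact hfail W t ht hmem
    obtain ⟨w, hw1, hw2, hw3⟩ := hex
    have hpos : 0 < ∑ j, |w j| := by
      obtain ⟨j, hj⟩ := Function.ne_iff.1 hw2
      exact Finset.sum_pos' (fun j _ => abs_nonneg _) ⟨j, mem_univ _, abs_pos.2 hj⟩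
    refine ⟨fun j => (∑ j, |w j|)⁻¹ * w j, ?_, ?_, ?_⟩
    · intro Y hY
      have h1 := mul_le_mul_of_nonneg_left (hw1 Y hY) (inv_nonneg.2 hpos.le)
      simp only [Finset.mul_sum, ← mul_assoc] at h1
      exact h1
    · simp only [abs_mul, abs_of_pos (inv_pos.2 hpos)]
      rw [← Finset.mul_sum]
      exact inv_mul_cancel₀ hpos.ne'
    · have h1 := mul_nonneg (inv_nonneg.2 hpos.le) hw3
      simp only [Finset.mul_sum, ← mul_assoc] at h1
      exact h1
  choose! w hw1 hw2 hw3 using hnormal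
  have hwb : ∀ᶠ W in (𝒰 : Filter ℕ), w W ∈ Metric.closedBall (0 : ι → ℝ) 1 := by
    filter_upwards [hS] with W hW
    rw [mem_closedBall_zero_iff, pi_norm_le_iff_of_nonneg zero_le_one]
    intro j
    rw [Real.norm_eq_abs, ← hw2 W hW]
    exact Finset.single_le_sum (f := fun j => |w W j|) (fun j _ => abs_nonneg _) (mem_univ j)
  obtain ⟨wl, -, hwl⟩ : ∃ wl ∈ Metric.closedBall (0 : ι → ℝ) 1, Tendsto w 𝒰 (𝓝 wl) := by
    obtain ⟨wl, h1, h2⟩ := (isCompact_closedBall (0 : ι → ℝ) 1).ultrafilter_le_nhds' (𝒰.map w)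
      (Filter.mem_map.2 hwb)
    exact ⟨wl, h1, h2⟩
  have hwj : ∀ j, Tendsto (fun W => w W j) 𝒰 (𝓝 (wl j)) := fun j => (tendsto_pi_nhds.1 hwl) j
  have hXj : ∀ j, Tendsto (fun W => X W j) 𝒰 (𝓝 (Xl j)) := fun j => (tendsto_pi_nhds.1 hXt) j
  refine ⟨w, wl, ?_, hwj, ?_, ?_⟩
  · filter_upwards [hS] with W hW
    exact ⟨hw1 W hW, hw2 W hW, hw3 W hW⟩
  · intro Y hY
    have h1 : Tendsto (fun W => ∑ j, w W j * Y j) 𝒰 (𝓝 (∑ j, wl j * Y j)) :=
      tendsto_finsetSum _ fun j _ => (hwj j).mul_const _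
    have h2 : Tendsto (fun W => ∑ j, w W j * X W j) 𝒰 (𝓝 (∑ j, wl j * Xl j)) :=
      tendsto_finsetSum _ fun j _ => (hwj j).mul (hXj j)
    refine le_of_tendsto_of_tendsto h1 h2 ?_
    filter_upwards [hS] with W hW
    exact hw1 W hW Y hY
  · have h1 : Tendsto (fun W => ∑ j, |w W j|) 𝒰 (𝓝 (∑ j, |wl j|)) :=
      tendsto_finsetSum _ fun j _ => (hwj j).abs
    have h2 : Tendsto (fun W => ∑ j, |w W j|) 𝒰 (𝓝 1) := by
      refine Tendsto.congr' ?_ tendsto_const_nhds
      filter_upwards [hS] with W hW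
      exact (hw2 W hW).symm
    exact tendsto_nhds_unique h1 h2

end limit

section combinatorics

variable {k : ℕ} {N : Fin k → ℕ}

/-- every sequence of bits has a first run -/
lemma exists_isD' (hk : 3 ≤ k) (b : Fin k → Bool) : ∃ i, IsD univ b i := by
  have hne : (univ : Finset (Fin k)).Nonempty := ⟨⟨0, by omega⟩, mem_univ _⟩
  obtain ⟨b', h1, i, -, h2⟩ := exists_isD (Finset.Subset.refl univ) hne b
  exact ⟨i, (isD_congr (fun j _ => (h1 j (mem_univ j)).symm) i).2 h2⟩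

/-- the excluded pattern -/
def cz (hN : ∀ j, 2 ≤ N j) (j : Fin k) : Fin (N j) :=
  if (j : ℕ) = 1 then ⟨1, lt_of_lt_of_le (by norm_num) (hN j)⟩
  else ⟨0, lt_of_lt_of_le (by norm_num) (hN j)⟩

/-- the excluded pattern, changed at `i` -/
def cf (hN : ∀ j, 2 ≤ N j) (i j : Fin k) : Fin (N j) :=
  if j = i then
    (if (j : ℕ) = 1 then ⟨0, lt_of_lt_of_le (by norm_num) (hN j)⟩
      else ⟨1, lt_of_lt_of_le (by norm_num) (hN j)⟩)
  else cz hN j

lemma bit_cz (hN : ∀ j, 2 ≤ N j) (j : Fin k) : bit (cz hN) j = decide ((j : ℕ) = 1) := by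
  unfold bit cz
  split_ifs with h <;> simp [h]

lemma bit_cf (hN : ∀ j, 2 ≤ N j) (i j : Fin k) :
    bit (cf hN i) j = if j = i then !decide ((j : ℕ) = 1) else decide ((j : ℕ) = 1) := by
  by_cases h : j = i
  · rw [if_pos h]
    unfold bit cf
    rw [if_pos h]
    split_ifs with h2 <;> simp [h2]
  · rw [if_neg h, ← bit_cz hN]
    unfold bit cf
    rw [if_neg h]

lemma cf_of_ne (hN : ∀ j, 2 ≤ N j) {i j : Fin k} (h : j ≠ i) : cf hN i j = cz hN j := by
  unfold cf
  rw [if_neg h]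

lemma cf_self (hN : ∀ j, 2 ≤ N j) (i : Fin k) : cf hN i i ≠ cz hN i := by
  unfold cf cz
  rw [if_pos rfl]
  split_ifs <;> simp

lemma isD_cf_of_two_le (hk : 3 ≤ k) (hN : ∀ j, 2 ≤ N j) {i : Fin k} (hi : 2 ≤ (i : ℕ)) :
    IsD univ (bit (cf hN i)) ⟨0, by omega⟩ := by
  refine ⟨mem_univ _, fun j _ hj => ?_, fun j _ hj => ⟨⟨1, by omega⟩, mem_univ _, ?_, ?_⟩⟩
  · have : j = ⟨0, by omega⟩ := Fin.ext (by
      have := Fin.le_def.1 hj
      simp only at this ⊢
      omega)
    rw [this]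
  · rw [Fin.le_def]
    have := Fin.lt_def.1 hj
    simp only at this ⊢
    omega
  · rw [bit_cf, bit_cf, if_neg, if_neg]
    · simp
    · intro h
      have := congrArg Fin.val h
      simp only at this
      omega
    · intro h
      have := congrArg Fin.val h
      simp only at this
      omega

lemma isD_cf_ne (hk : 3 ≤ k) (hN : ∀ j, 2 ≤ N j) (i : Fin k) : ¬ IsD univ (bit (cf hN i)) i := by
  intro h
  rcases Nat.lt_or_ge (i : ℕ) 2 with hi | hi
  · rcases Nat.lt_or_ge (i : ℕ) 1 with hi' | hi'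
    · -- `i = 0`
      have hi0 : i = ⟨0, by omega⟩ := Fin.ext (by simp only; omega)
      obtain ⟨j', -, hj', hne⟩ := h.2.2 ⟨1, by omega⟩ (mem_univ _) (by
        rw [hi0, Fin.lt_def]
        simp)
      have hj'1 : (j' : ℕ) ≤ 1 := Fin.le_def.1 hj'
      rw [bit_cf, bit_cf, if_pos rfl] at hne
      apply hne
      by_cases hj0 : j' = i
      · rw [if_pos hj0, hj0]
      · rw [if_neg hj0]
        have : (j' : ℕ) = 1 := by
          by_contra hcon
          apply hj0
          rw [hi0]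
          exact Fin.ext (by simp only; omega)
        have h2 : (i : ℕ) ≠ 1 := by omega
        simp [this, h2]
    · -- `i = 1`
      have hi1 : (i : ℕ) = 1 := by omega
      obtain ⟨j', -, hj', hne⟩ := h.2.2 ⟨2, by omega⟩ (mem_univ _) (by
        rw [Fin.lt_def]
        simp only
        omega)
      have hj'2 : (j' : ℕ) ≤ 2 := Fin.le_def.1 hj'
      rw [bit_cf, bit_cf, if_pos rfl] at hne
      apply hne
      by_cases hj0 : j' = i
      · rw [if_pos hj0, hj0]
      · rw [if_neg hj0]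
        have : (j' : ℕ) ≠ 1 := by
          intro hcon
          exact hj0 (Fin.ext (by omega))
        simp [this, hi1]
  · have h0 := isD_cf_of_two_le hk hN hi
    have := h.unique h0
    have := congrArg Fin.val this
    simp only at this
    omega

lemma isD_cz (hk : 3 ≤ k) (hN : ∀ j, 2 ≤ N j) : IsD univ (bit (cz hN)) ⟨0, by omega⟩ := by
  refine ⟨mem_univ _, fun j _ hj => ?_, fun j _ hj => ⟨⟨1, by omega⟩, mem_univ _, ?_, ?_⟩⟩
  · have : j = ⟨0, by omega⟩ := Fin.ext (by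
      have := Fin.le_def.1 hj
      simp only at this ⊢
      omega)
    rw [this]
  · rw [Fin.le_def]
    have := Fin.lt_def.1 hj
    simp only at this ⊢
    omega
  · rw [bit_cz, bit_cz]
    simp

/-- patterns different from the excluded one are enough at the points which are not in the
open orthant of the excluded pattern -/
lemma exists_pattern (hk : 3 ≤ k) (hN : ∀ j, 2 ≤ N j) (Q : Finset (Fin k))
    (cs : ∀ j, Fin (N j)) (h : Q ≠ univ ∨ cs ≠ cz hN) :
    ∃ c : ∀ j, Fin (N j), c ≠ cz hN ∧ (∀ j ∈ Q, c j = cs j) ∧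
      (Q.Nonempty → ∃ i ∈ Q, IsD univ (bit c) i) := by
  by_cases hQu : Q = univ
  · obtain ⟨i, hi⟩ := exists_isD' hk (bit cs)
    refine ⟨cs, ?_, fun _ _ => rfl, fun _ => ⟨i, by rw [hQu]; exact mem_univ _, hi⟩⟩
    rcases h with h | h
    · exact absurd hQu h
    · exact h
  obtain ⟨l, hl⟩ : ∃ l, l ∉ Q := by
    by_contra hcon
    push Not at hcon
    exact hQu (Finset.eq_univ_iff_forall.2 hcon)
  by_cases hne : Q.Nonempty
  · obtain ⟨b, hb1, i, hiQ, hiD⟩ := exists_isD (Finset.subset_univ Q) hne (bit cs)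
    set c : ∀ j, Fin (N j) := fun j => if j ∈ Q then cs j else
        (if b j then ⟨1, lt_of_lt_of_le (by norm_num) (hN j)⟩
          else ⟨0, lt_of_lt_of_le (by norm_num) (hN j)⟩) with hc
    have hcQ : ∀ j ∈ Q, c j = cs j := fun j hj => if_pos hj
    have hcD : IsD univ (bit c) i := by
      refine (isD_congr (fun j _ => ?_) i).2 hiD
      by_cases hj : j ∈ Q
      · have h1 : c j = cs j := if_pos hj
        rw [hb1 j hj]
        simp only [bit, h1]
      · have h1 : c j = (if b j then ⟨1, lt_of_lt_of_le (by norm_num) (hN j)⟩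
          else ⟨0, lt_of_lt_of_le (by norm_num) (hN j)⟩) := if_neg hj
        simp only [bit, h1]
        cases b j <;> simp
    by_cases hcz : c = cz hN
    · -- change the pattern outside of `Q`
      have h0Q : (⟨0, by omega⟩ : Fin k) ∈ Q := by
        have h1 := isD_cz hk hN
        rw [← hcz] at h1
        rw [← hcD.unique h1]
        exact hiQ
      have hfQ : ∀ l', l' ∉ Q → ∀ j ∈ Q, cf hN l' j = cs j := by
        intro l' hl' j hj
        have hne2 : j ≠ l' := by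
          rintro rfl
          exact hl' hj
        rw [cf_of_ne hN hne2, ← hcz]
        exact hcQ j hj
      have hne' : ∀ l', cf hN l' ≠ cz hN := fun l' h => cf_self hN l' (congrFun h l')
      by_cases hex : ∃ l', l' ∉ Q ∧ 2 ≤ (l' : ℕ)
      · obtain ⟨l', hl', hl'2⟩ := hex
        exact ⟨cf hN l', hne' l', hfQ l' hl', fun _ => ⟨_, h0Q, isD_cf_of_two_le hk hN hl'2⟩⟩
      · push Not at hex
        have hl1 : (l : ℕ) = 1 := by
          have h1 := hex l hl
          have h2 : (l : ℕ) ≠ 0 := by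
            intro h2
            apply hl
            have : l = ⟨0, by omega⟩ := Fin.ext h2
            rw [this]
            exact h0Q
          omega
        obtain ⟨i', hi'⟩ := exists_isD' hk (bit (cf hN l))
        refine ⟨cf hN l, hne' l, hfQ l hl, fun _ => ⟨i', ?_, hi'⟩⟩
        by_contra hi'Q
        have h1 := hex i' hi'Q
        have h2 : i' = l := by
          refine Fin.ext ?_
          have h2 : (i' : ℕ) ≠ 0 := by
            intro h2
            apply hi'Q
            have : i' = ⟨0, by omega⟩ := Fin.ext h2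
            rw [this]
            exact h0Q
          omega
        rw [h2] at hi'
        exact isD_cf_ne hk hN l hi'
    · exact ⟨c, hcz, hcQ, fun _ => ⟨i, hiQ, hcD⟩⟩
  · refine ⟨cf hN l, fun h => cf_self hN l (congrFun h l), fun j hj => ?_, fun h => absurd h hne⟩
    exact absurd ⟨j, hj⟩ hne

end combinatorics

end Pool.Agent.Zk58.SS
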