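import Mathlib
import Pool.Agent.R753.Sums
import Pool.Agent.Zk58.SS.Strict

set_option autoImplicit false

/-!
Sums of convex bodies with respect to a set with nested supports: the strict inequality.
-/

namespace Pool.Agent.Zk58.SS

open Finset Filter Topology
open scoped Classical

variable {k : ℕ}

/-- **Nested supports, strict inequality.** -/
theorem strict (hk : 3 ≤ k) {E : Fin k → Type} [∀ j, NormedAddCommGroup (E j)]
    [∀ j, NormedSpace ℝ (E j)] [∀ j, FiniteDimensional ℝ (E j)]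
    (C : ∀ j, Set (E j)) (hCc : ∀ j, Convex ℝ (C j))
    (hCk : ∀ j, IsCompact (C j)) (hC0 : ∀ j, (0 : E j) ∈ interior (C j))
    (N : Fin k → ℕ) (hN : ∀ j, 2 ≤ N j)
    (hcov : ∀ j, ∃ T : Finset (E j), T.card ≤ N j ∧
      C j ⊆ ⋃ t ∈ T, (fun x => t + x) '' interior (C j))
    (M : Set (Fin k → ℝ)) (hMc : Convex ℝ M) (hMcl : IsClosed M)
    (hM0 : (0 : Fin k → ℝ) ∈ interior M) (hsol : Pool.Agent.R753.Sol M)
    (K : Set (∀ j, E j)) (hK : K = {x | (fun j => gauge (C j) (x j)) ∈ M})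
    (hKb : Bornology.IsBounded K)
    (hnest : ∀ X ∈ M, (∀ j, 0 ≤ X j) → ∀ v, Nor M X v →
      (∀ i, X i ≠ 0 → v i ≠ 0) ∨ (∀ i, 0 < v i → X i ≠ 0))
    (hbox : ¬ ∃ h ∈ M, ∀ X ∈ M, ∀ i, X i ≤ h i) :
    ∃ T : Finset (∀ j, E j), T.card < ∏ j, N j ∧
      K ⊆ ⋃ t ∈ T, (fun x => t + x) '' interior K := by
  obtain ⟨hconv, hcomp, hint0, hint⟩ := Pool.Agent.R753.body C hCc hC0 M hMc hMcl hM0 hsol K hK hKb
  choose u κ D hκ0 hκ1 hD1 hu1 hu2 using fun j =>
    Pool.Agent.H665R3.Lam.step (hCc j) (hCk j) (hC0 j) (hcov j)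
  have hnonemp : Nonempty (Fin k) := ⟨⟨0, by omega⟩⟩
  obtain ⟨κ₀, hκ₀0, hκ₀⟩ : ∃ κ₀ : ℝ, 0 < κ₀ ∧ ∀ j, κ₀ ≤ κ j := by
    obtain ⟨j, -, hj⟩ := Finset.exists_min_image Finset.univ κ Finset.univ_nonempty
    exact ⟨κ j, hκ0 j, fun i => hj i (Finset.mem_univ i)⟩
  obtain ⟨D₀, hD₀0, hD₀⟩ : ∃ D₀ : ℝ, 0 < D₀ ∧ ∀ j, D j ≤ D₀ := by
    obtain ⟨j, -, hj⟩ := Finset.exists_max_image Finset.univ D Finset.univ_nonempty
    exact ⟨D j, zero_lt_one.trans_le (hD1 j), fun i => hj i (Finset.mem_univ i)⟩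
  obtain ⟨ρ, hρ0, hball⟩ : ∃ ρ : ℝ, 0 < ρ ∧ ∀ Y : Fin k → ℝ, (∀ j, |Y j| ≤ ρ) → Y ∈ M := by
    obtain ⟨ρ, hρ, hb⟩ := Metric.isOpen_iff.1 (isOpen_interior (s := M)) 0 hM0
    refine ⟨ρ / 2, by positivity, fun Y hY => interior_subset (hb ?_)⟩
    rw [Metric.mem_ball]
    refine lt_of_le_of_lt ((dist_pi_le_iff (by positivity : (0 : ℝ) ≤ ρ / 2)).2 ?_)
      (by linarith : ρ / 2 < ρ)
    intro i
    rw [Real.dist_eq, Pi.zero_apply, sub_zero]
    exact hY i
  have hGc : Continuous (fun (x : ∀ j, E j) (j : Fin k) => gauge (C j) (x j)) := by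
    refine continuous_pi fun j => ?_
    exact (continuous_gauge (hCc j) (mem_interior_iff_mem_nhds.1 (hC0 j))).comp
      (continuous_apply j)
  -- the directions
  set I : Type := {c : ∀ j, Fin (N j) // c ≠ cz hN} with hI
  have hcard : Fintype.card I < ∏ j, N j := by
    have h1 : Fintype.card (∀ j, Fin (N j)) = ∏ j, N j := by
      rw [Fintype.card_pi]
      simp
    rw [← h1]
    exact Fintype.card_subtype_lt (x := cz hN) (fun h => h rfl)
  by_contra hcon
  -- the weights with the parameters `W` and `m`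
  set α : ℕ → ℕ → (∀ j, Fin (N j)) → Fin k → ℝ := fun m W c j =>
    if IsD univ (bit c) j then (W : ℝ) + 1 else
      (if ∀ j', j' ≠ j → c j' = cz hN j' then 1 / ((m : ℝ) + 1) else 1) with hα
  have hm1 : ∀ m : ℕ, 0 < 1 / ((m : ℝ) + 1) := fun m => by positivity
  have hm2 : ∀ m : ℕ, 1 / ((m : ℝ) + 1) ≤ 1 := fun m => by
    rw [div_le_one (by positivity)]
    have : (0 : ℝ) ≤ (m : ℝ) := Nat.cast_nonneg m
    linarith
  have hα0 : ∀ m W c j, 0 < α m W c j := by
    intro m W c j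
    simp only [hα]
    split_ifs
    · positivity
    · exact hm1 m
    · exact one_pos
  have hα1 : ∀ (m W : ℕ) c j, 1 / ((m : ℝ) + 1) ≤ α m W c j := by
    intro m W c j
    simp only [hα]
    split_ifs
    · have : (0 : ℝ) ≤ (W : ℝ) := Nat.cast_nonneg W
      have := hm2 m
      linarith
    · exact le_rfl
    · exact hm2 m
  have hα2 : ∀ m W c j, ¬ IsD univ (bit c) j → α m W c j ≤ 1 := by
    intro m W c j hj
    simp only [hα]
    rw [if_neg hj]
    split_ifs
    · exact hm2 m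
    · exact le_rfl
  have hαD : ∀ m (W : ℕ) c j, IsD univ (bit c) j → α m W c j = (W : ℝ) + 1 := by
    intro m W c j hj
    simp only [hα]
    rw [if_pos hj]
  have hfail : ∀ m W : ℕ, ∃ x ∈ K, ∀ c : ∀ j, Fin (N j), c ≠ cz hN → ∀ t : ℝ, 0 < t →
      x - t • (fun j => α m W c j • u j (c j)) ∉ interior K := by
    intro m W
    by_contra hc
    push Not at hc
    obtain ⟨T, hT1, hT2⟩ := cover_dirs hconv hcomp
      (fun (c : I) (j : Fin k) => α m W c.1 j • u j (c.1 j)) (fun x hx => by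
        obtain ⟨c, hc1, t, ht, hmem⟩ := hc x hx
        exact ⟨⟨c, hc1⟩, t, ht, hmem⟩)
    exact hcon ⟨T, lt_of_le_of_lt hT1 hcard, hT2⟩
  choose x hxK hx using hfail
  choose c₀ hc₀ using fun (m W : ℕ) (j : Fin k) => hu2 j (x m W j)
  set 𝒰 : Ultrafilter ℕ := Filter.hyperfilter ℕ with h𝒰
  have h𝒰top : (𝒰 : Filter ℕ) ≤ atTop := by
    rw [h𝒰, ← Nat.cofinite_eq_atTop]
    exact Filter.hyperfilter_le_cofinite
  have hGK : IsCompact ((fun (x : ∀ j, E j) (j : Fin k) => gauge (C j) (x j)) '' K) :=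
    hcomp.image hGc
  -- the first limit
  have key : ∀ m : ℕ, ∃ Xl ∈ ((fun (x : ∀ j, E j) (j : Fin k) => gauge (C j) (x j)) '' K),
      ∀ i, ∃ w, Nor M Xl w ∧ ∑ j, |w j| = 1 ∧ (∀ j, 0 ≤ w j) ∧
        κ₀ * ∑ j ∈ univ.erase i, w j ≤ D₀ * (1 / ((m : ℝ) + 1)) := by
    intro m
    obtain ⟨xl, hxlK, hxl⟩ : ∃ xl ∈ K, Tendsto (x m) 𝒰 (𝓝 xl) := by
      obtain ⟨xl, hxl1, hxl2⟩ := hcomp.ultrafilter_le_nhds' (𝒰.map (x m))
        (Filter.mem_map.2 (Filter.univ_mem' (hxK m)))
      exact ⟨xl, hxl1, hxl2⟩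
    obtain ⟨cs, hcs⟩ : ∃ cs : ∀ j, Fin (N j), ∀ᶠ W in (𝒰 : Filter ℕ), c₀ m W = cs := by
      have h1 : ∀ᶠ W in (𝒰 : Filter ℕ), ∃ cs : ∀ j, Fin (N j), c₀ m W = cs :=
        Filter.Eventually.of_forall fun W => ⟨_, rfl⟩
      exact (Ultrafilter.eventually_exists_iff).1 h1
    set X : ℕ → Fin k → ℝ := fun W j => gauge (C j) (x m W j) with hX
    set Xl : Fin k → ℝ := fun j => gauge (C j) (xl j) with hXl
    have hXt : Tendsto X 𝒰 (𝓝 Xl) := (hGc.tendsto xl).comp hxl
    have hXM : ∀ W, X W ∈ M := by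
      intro W
      have := hxK m W
      rw [hK] at this
      exact this
    have hXlM : Xl ∈ M := by
      have := hxlK
      rw [hK] at this
      exact this
    have hX0 : ∀ W j, 0 ≤ X W j := fun W j => gauge_nonneg _
    have hXl0 : ∀ j, 0 ≤ Xl j := fun j => gauge_nonneg _
    set Q : Finset (Fin k) := univ.filter fun j => Xl j ≠ 0 with hQ
    have hQmem : ∀ j, j ∈ Q ↔ Xl j ≠ 0 := fun j => by simp [hQ]
    have hgood : ∀ᶠ W in (𝒰 : Filter ℕ), c₀ m W = cs ∧ ∀ j ∈ Q, 0 < X W j := by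
      refine hcs.and ?_
      rw [Filter.eventually_all_finset]
      intro j hj
      have h1 : Tendsto (fun W => X W j) 𝒰 (𝓝 (Xl j)) := (tendsto_pi_nhds.1 hXt) j
      have h2 : 0 < Xl j := lt_of_le_of_ne (hXl0 j) (Ne.symm ((hQmem j).1 hj))
      exact h1.eventually (lt_mem_nhds h2)
    have hDD : ∀ (c : ∀ j, Fin (N j)) W j, ∀ s, 0 ≤ s →
        gauge (C j) (x m W j - s • u j (c j)) ≤ X W j + D₀ * s := by
      intro c W j s hs
      have h1 := hu1 j (c j) (x m W j) s hs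
      have h3 := mul_le_mul_of_nonneg_right (hD₀ j) hs
      have h4 : gauge (C j) (x m W j) = X W j := rfl
      rw [h4] at h1
      linarith
    have hSS : ∀ (c : ∀ j, Fin (N j)) (S : Finset (Fin k)), S ⊆ Q → (∀ j ∈ S, c j = cs j) →
        ∀ᶠ W in (𝒰 : Filter ℕ), ∀ j ∈ S, 0 < X W j ∧ ∀ s, 0 ≤ s → s ≤ X W j →
          gauge (C j) (x m W j - s • u j (c j)) ≤ X W j - κ₀ * s := by
      intro c S hSQ hcS
      filter_upwards [hgood] with W hW j hj
      refine ⟨hW.2 j (hSQ hj), fun s hs hsX => ?_⟩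
      have h1 := hc₀ m W j s hs hsX
      have h2 : c₀ m W j = c j := by
        rw [hW.1]
        exact (hcS j hj).symm
      rw [h2] at h1
      have h3 := mul_le_mul_of_nonneg_right (hκ₀ j) hs
      have h4 : gauge (C j) (x m W j) = X W j := rfl
      rw [h4] at h1
      linarith
    by_cases hcase : Q ≠ univ ∨ cs ≠ cz hN
    · -- the old argument gives a contradiction
      exfalso
      obtain ⟨c, hcz, hcQ, hcD⟩ := exists_pattern hk hN Q cs hcase
      obtain ⟨w, wl, hw, hwj, hwnor, hwl1⟩ := limit_normal hMc hM0 hsol hint hX hXM hXt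
        (fun j => u j (c j)) (α := fun W j => α m W c j) (fun W j => hα0 m W c j) Q
        (hSS c Q (Finset.Subset.refl _) hcQ) (hDD c) (fun W t ht => hx m W c hcz t ht)
      have hsize := nor_size hρ0.le hball hwnor
      rw [hwl1, mul_one] at hsize
      have hnn : ∀ j ∈ Q, 0 ≤ wl j :=
        fun j hj => nor_nonneg hsol hXlM hXl0 hwnor ((hQmem j).1 hj)
      have hsumX : ∑ j, wl j * Xl j = ∑ j ∈ Q, wl j * Xl j := by
        symm
        refine Finset.sum_subset (Finset.subset_univ _) fun j _ hj => ?_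
        have : Xl j = 0 := by
          by_contra hcon
          exact hj ((hQmem j).2 hcon)
        rw [this, mul_zero]
      have hQne : Q.Nonempty := by
        by_contra hcon
        rw [not_nonempty_iff_eq_empty] at hcon
        rw [hsumX, hcon, Finset.sum_empty] at hsize
        linarith
      obtain ⟨i, hiQ, hiD⟩ := hcD hQne
      set δ : ℝ := 1 / ((m : ℝ) + 1) with hδ
      have hδ0 : 0 < δ := hm1 m
      have hineq : ∀ᶠ W in (𝒰 : Filter ℕ), 0 ≤ w W i ∧ (∀ j ∈ Q, 0 ≤ w W j) ∧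
          ∑ j, |w W j| = 1 ∧
          κ₀ * (((W : ℝ) + 1) * w W i) + κ₀ * (δ * ∑ j ∈ Q.erase i, w W j) ≤
          D₀ * ∑ j ∈ univ \ Q, max (w W j) 0 := by
        filter_upwards [hw, hgood] with W hW hWg
        obtain ⟨hW1, hW2, hW3⟩ := hW
        have hnnW : ∀ j ∈ Q, 0 ≤ w W j := fun j hj =>
          nor_nonneg hsol (hXM W) (hX0 W) hW1 (hWg.2 j hj).ne'
        refine ⟨hnnW i hiQ, hnnW, hW2, ?_⟩
        have h2 : ∑ j, w W j * (if j ∈ Q then -(κ₀ * α m W c j) else D₀ * α m W c j) =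
            ∑ j ∈ Q, w W j * (-(κ₀ * α m W c j)) + ∑ j ∈ univ \ Q, w W j * (D₀ * α m W c j) := by
          rw [add_comm, ← Finset.sum_sdiff (Finset.subset_univ Q)]
          congr 1
          · refine Finset.sum_congr rfl fun j hj => ?_
            rw [if_neg (Finset.mem_sdiff.1 hj).2]
          · refine Finset.sum_congr rfl fun j hj => ?_
            rw [if_pos hj]
        have h3 : ∑ j ∈ Q, w W j * (-(κ₀ * α m W c j)) ≤
            -(κ₀ * (((W : ℝ) + 1) * w W i) + κ₀ * (δ * ∑ j ∈ Q.erase i, w W j)) := by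
          rw [← Finset.add_sum_erase Q _ hiQ, Finset.mul_sum, Finset.mul_sum, neg_add,
            ← Finset.sum_neg_distrib]
          refine add_le_add (le_of_eq ?_) (Finset.sum_le_sum fun j hj => ?_)
          · rw [hαD m W c i hiD]
            ring
          · have h4 := hα1 m W c j
            have h5 := hnnW j (Finset.mem_of_mem_erase hj)
            have h6 : w W j * δ ≤ w W j * α m W c j := mul_le_mul_of_nonneg_left h4 h5
            have h7 := mul_le_mul_of_nonneg_left h6 hκ₀0.le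
            calc w W j * (-(κ₀ * α m W c j)) = -(κ₀ * (w W j * α m W c j)) := by ring
              _ ≤ -(κ₀ * (w W j * δ)) := neg_le_neg h7
              _ = -(κ₀ * (δ * w W j)) := by ring
        have h4 : ∑ j ∈ univ \ Q, w W j * (D₀ * α m W c j) ≤
            D₀ * ∑ j ∈ univ \ Q, max (w W j) 0 := by
          rw [Finset.mul_sum]
          refine Finset.sum_le_sum fun j hj => ?_
          have hj' : j ∉ Q := (Finset.mem_sdiff.1 hj).2
          have h5 : α m W c j ≤ 1 := hα2 m W c j fun h => by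
            have := hiD.unique h
            rw [this] at hiQ
            exact hj' hiQ
          have h6 := (hα0 m W c j).le
          have h7 : w W j * α m W c j ≤ max (w W j) 0 := by
            calc w W j * α m W c j ≤ max (w W j) 0 * α m W c j :=
                  mul_le_mul_of_nonneg_right (le_max_left _ _) h6
              _ ≤ max (w W j) 0 * 1 := mul_le_mul_of_nonneg_left h5 (le_max_right _ _)
              _ = max (w W j) 0 := mul_one _
          calc w W j * (D₀ * α m W c j) = D₀ * (w W j * α m W c j) := by ring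
            _ ≤ D₀ * max (w W j) 0 := mul_le_mul_of_nonneg_left h7 hD₀0.le
        linarith
      have hwi : wl i = 0 := by
        have h1 : Tendsto (fun W : ℕ => D₀ / κ₀ * (1 / ((W : ℝ) + 1))) 𝒰 (𝓝 (D₀ / κ₀ * 0)) :=
          (tendsto_one_div_add_atTop_nhds_zero_nat.mono_left h𝒰top).const_mul _
        rw [mul_zero] at h1
        refine le_antisymm ?_ (hnn i hiQ)
        refine le_of_tendsto_of_tendsto (hwj i) h1 ?_
        filter_upwards [hineq] with W hW
        obtain ⟨-, hW2, hW3, hW4⟩ := hW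
        have h3 : 0 ≤ ∑ j ∈ Q.erase i, w W j :=
          Finset.sum_nonneg fun j hj => hW2 j (Finset.mem_of_mem_erase hj)
        have h4 : ∑ j ∈ univ \ Q, max (w W j) 0 ≤ 1 := by
          rw [← hW3]
          calc ∑ j ∈ univ \ Q, max (w W j) 0 ≤ ∑ j ∈ univ \ Q, |w W j| :=
                Finset.sum_le_sum fun j _ => max_le (le_abs_self _) (abs_nonneg _)
            _ ≤ ∑ j, |w W j| := Finset.sum_le_sum_of_subset_of_nonneg (Finset.subset_univ _)
                fun j _ _ => abs_nonneg _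
        have h5 : (0 : ℝ) < (W : ℝ) + 1 := by positivity
        have h6 : D₀ * ∑ j ∈ univ \ Q, max (w W j) 0 ≤ D₀ * 1 :=
          mul_le_mul_of_nonneg_left h4 hD₀0.le
        have h7 : 0 ≤ κ₀ * (δ * ∑ j ∈ Q.erase i, w W j) :=
          mul_nonneg hκ₀0.le (mul_nonneg hδ0.le h3)
        have h8 : κ₀ * (((W : ℝ) + 1) * w W i) ≤ D₀ := by linarith
        rw [div_mul_div_comm, mul_one, le_div_iff₀ (by positivity)]
        calc w W i * (κ₀ * ((W : ℝ) + 1)) = κ₀ * (((W : ℝ) + 1) * w W i) := by ring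
          _ ≤ D₀ := h8
      have hlim : κ₀ * (δ * ∑ j ∈ Q.erase i, wl j) ≤ D₀ * ∑ j ∈ univ \ Q, max (wl j) 0 := by
        have h1 : Tendsto (fun W => κ₀ * (δ * ∑ j ∈ Q.erase i, w W j)) 𝒰
            (𝓝 (κ₀ * (δ * ∑ j ∈ Q.erase i, wl j))) :=
          ((tendsto_finsetSum _ fun j _ => hwj j).const_mul _).const_mul _
        have h2 : Tendsto (fun W => D₀ * ∑ j ∈ univ \ Q, max (w W j) 0) 𝒰
            (𝓝 (D₀ * ∑ j ∈ univ \ Q, max (wl j) 0)) :=
          (tendsto_finsetSum _ fun j _ => (hwj j).max tendsto_const_nhds).const_mul _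
        refine le_of_tendsto_of_tendsto h1 h2 ?_
        filter_upwards [hineq] with W hW
        obtain ⟨hW1, hW2, hW3, hW4⟩ := hW
        have h4 : 0 ≤ κ₀ * (((W : ℝ) + 1) * w W i) := by positivity
        linarith
      have hout : ∀ l, l ∉ Q → wl l ≤ 0 := by
        intro l hl
        rcases hnest Xl hXlM hXl0 wl hwnor with h | h
        · exact absurd hwi (h i ((hQmem i).1 hiQ))
        · by_contra hcon
          push Not at hcon
          exact hl ((hQmem l).2 (h l hcon))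
      have h1 : ∑ j ∈ univ \ Q, max (wl j) 0 = 0 :=
        Finset.sum_eq_zero fun j hj => max_eq_right (hout j (Finset.mem_sdiff.1 hj).2)
      have h2 : ∑ j ∈ Q.erase i, wl j ≤ 0 := by
        rw [h1, mul_zero] at hlim
        by_contra hcon
        push Not at hcon
        have := mul_pos hκ₀0 (mul_pos hδ0 hcon)
        linarith
      have h3 : ∀ j ∈ Q.erase i, wl j = 0 := by
        have h4 : ∑ j ∈ Q.erase i, wl j = 0 := le_antisymm h2
          (Finset.sum_nonneg fun j hj => hnn j (Finset.mem_of_mem_erase hj))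
        exact (Finset.sum_eq_zero_iff_of_nonneg
          fun j hj => hnn j (Finset.mem_of_mem_erase hj)).1 h4
      have h4 : ∑ j ∈ Q, wl j * Xl j = 0 := by
        refine Finset.sum_eq_zero fun j hj => ?_
        by_cases hji : j = i
        · rw [hji, hwi, zero_mul]
        · rw [h3 j (Finset.mem_erase.2 ⟨hji, hj⟩), zero_mul]
      rw [hsumX, h4] at hsize
      linarith
    · -- all coordinates are positive, and the pattern is the excluded one
      push Not at hcase
      obtain ⟨hQu, hcsz⟩ := hcase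
      refine ⟨Xl, ⟨xl, hxlK, rfl⟩, fun i => ?_⟩
      have hXpos : ∀ j, Xl j ≠ 0 := fun j => (hQmem j).1 (by rw [hQu]; exact mem_univ j)
      obtain ⟨w, wl, hw, hwj, hwnor, hwl1⟩ := limit_normal hMc hM0 hsol hint hX hXM hXt
        (fun j => u j (cf hN i j)) (α := fun W j => α m W (cf hN i) j)
        (fun W j => hα0 m W (cf hN i) j) (univ.erase i)
        (hSS (cf hN i) (univ.erase i) (by rw [hQu]; exact Finset.erase_subset _ _)
          (fun j hj => by rw [hcsz, cf_of_ne hN (Finset.ne_of_mem_erase hj)]))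
        (hDD (cf hN i))
        (fun W t ht => hx m W (cf hN i) (fun h => cf_self hN i (congrFun h i)) t ht)
      refine ⟨wl, hwnor, hwl1, fun j => nor_nonneg hsol hXlM hXl0 hwnor (hXpos j), ?_⟩
      have h1 : Tendsto (fun W => κ₀ * ∑ j ∈ univ.erase i, w W j) 𝒰
          (𝓝 (κ₀ * ∑ j ∈ univ.erase i, wl j)) :=
        (tendsto_finsetSum _ fun j _ => hwj j).const_mul _
      refine le_of_tendsto h1 ?_
      filter_upwards [hw, hgood] with W hW hWg
      obtain ⟨hW1, hW2, hW3⟩ := hW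
      have hnnW : ∀ j, 0 ≤ w W j := fun j =>
        nor_nonneg hsol (hXM W) (hX0 W) hW1 (hWg.2 j (by rw [hQu]; exact mem_univ j)).ne'
      have hwi1 : w W i ≤ 1 := by
        rw [← hW2]
        exact (le_abs_self _).trans
          (Finset.single_le_sum (f := fun j => |w W j|) (fun j _ => abs_nonneg _) (mem_univ i))
      rw [← Finset.add_sum_erase univ _ (mem_univ i)] at hW3
      rw [if_neg (Finset.notMem_erase i univ)] at hW3
      have hαi : α m W (cf hN i) i = 1 / ((m : ℝ) + 1) := by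
        simp only [hα]
        rw [if_neg (isD_cf_ne hk hN i), if_pos]
        exact fun j' hj' => cf_of_ne hN hj'
      have hαj : ∀ j, j ≠ i → 1 ≤ α m W (cf hN i) j := by
        intro j hj
        simp only [hα]
        split_ifs with h1 h2
        · have : (0 : ℝ) ≤ (W : ℝ) := Nat.cast_nonneg W
          linarith
        · exact absurd (h2 i hj.symm) (cf_self hN i)
        · exact le_rfl
      have h3 : ∑ j ∈ univ.erase i, w W j *
          (if j ∈ univ.erase i then -(κ₀ * α m W (cf hN i) j) else D₀ * α m W (cf hN i) j) ≤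
          -(κ₀ * ∑ j ∈ univ.erase i, w W j) := by
        rw [Finset.mul_sum, ← Finset.sum_neg_distrib]
        refine Finset.sum_le_sum fun j hj => ?_
        rw [if_pos hj]
        have h4 := hαj j (Finset.ne_of_mem_erase hj)
        have h5 : κ₀ * w W j ≤ κ₀ * w W j * α m W (cf hN i) j :=
          le_mul_of_one_le_right (mul_nonneg hκ₀0.le (hnnW j)) h4
        calc w W j * (-(κ₀ * α m W (cf hN i) j)) = -(κ₀ * w W j * α m W (cf hN i) j) := by ring
          _ ≤ -(κ₀ * w W j) := neg_le_neg h5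
      rw [hαi] at hW3
      have h6 : w W i * (D₀ * (1 / ((m : ℝ) + 1))) ≤ D₀ * (1 / ((m : ℝ) + 1)) :=
        mul_le_of_le_one_left (mul_nonneg hD₀0.le (hm1 m).le) hwi1
      linarith
  choose Xm hXmK hXm using key
  obtain ⟨Xo, hXoK, hXo⟩ : ∃ Xo ∈ ((fun (x : ∀ j, E j) (j : Fin k) => gauge (C j) (x j)) '' K),
      Tendsto Xm 𝒰 (𝓝 Xo) := by
    obtain ⟨Xo, h1, h2⟩ := hGK.ultrafilter_le_nhds' (𝒰.map Xm)
      (Filter.mem_map.2 (Filter.univ_mem' hXmK))
    exact ⟨Xo, h1, h2⟩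
  have hXoM : Xo ∈ M := by
    obtain ⟨xo, hxo, rfl⟩ := hXoK
    rw [hK] at hxo
    exact hxo
  refine hbox ⟨Xo, hXoM, ?_⟩
  intro Y hY i
  choose w hw1 hw2 hw3 hw4 using fun m => hXm m i
  have hwe : ∀ m, ∑ j ∈ univ.erase i, w m j ≤ D₀ / κ₀ * (1 / ((m : ℝ) + 1)) := by
    intro m
    have h1 := hw4 m
    rw [div_mul_eq_mul_div, le_div_iff₀ hκ₀0, mul_comm]
    exact h1
  have hlim0 : Tendsto (fun m : ℕ => D₀ / κ₀ * (1 / ((m : ℝ) + 1))) 𝒰 (𝓝 0) := by
    have h1 : Tendsto (fun m : ℕ => D₀ / κ₀ * (1 / ((m : ℝ) + 1))) 𝒰 (𝓝 (D₀ / κ₀ * 0)) :=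
      (tendsto_one_div_add_atTop_nhds_zero_nat.mono_left h𝒰top).const_mul _
    rwa [mul_zero] at h1
  have hwj : ∀ j, j ≠ i → Tendsto (fun m => w m j) 𝒰 (𝓝 0) := by
    intro j hj
    refine squeeze_zero (fun m => hw3 m j) (fun m => ?_) hlim0
    refine le_trans ?_ (hwe m)
    exact Finset.single_le_sum (f := fun j => w m j) (fun j _ => hw3 m j)
      (Finset.mem_erase.2 ⟨hj, mem_univ j⟩)
  have hwi : Tendsto (fun m => w m i) 𝒰 (𝓝 1) := by
    have h1 : ∀ m, w m i = 1 - ∑ j ∈ univ.erase i, w m j := by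
      intro m
      have h2 := hw2 m
      have h3 : ∑ j, |w m j| = ∑ j, w m j :=
        Finset.sum_congr rfl fun j _ => abs_of_nonneg (hw3 m j)
      rw [h3, ← Finset.add_sum_erase univ _ (mem_univ i)] at h2
      linarith
    have h2 : Tendsto (fun m => ∑ j ∈ univ.erase i, w m j) 𝒰 (𝓝 0) :=
      squeeze_zero (fun m => Finset.sum_nonneg fun j _ => hw3 m j) hwe hlim0
    have h3 : Tendsto (fun m => 1 - ∑ j ∈ univ.erase i, w m j) 𝒰 (𝓝 (1 - 0)) :=
      tendsto_const_nhds.sub h2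
    rw [sub_zero] at h3
    exact h3.congr fun m => (h1 m).symm
  have hwl : ∀ j, Tendsto (fun m => w m j) 𝒰 (𝓝 (if j = i then 1 else 0)) := by
    intro j
    by_cases hj : j = i
    · rw [if_pos hj, hj]
      exact hwi
    · rw [if_neg hj]
      exact hwj j hj
  have hXoj : ∀ j, Tendsto (fun m => Xm m j) 𝒰 (𝓝 (Xo j)) := fun j => (tendsto_pi_nhds.1 hXo) j
  have h1 : Tendsto (fun m => ∑ j, w m j * Y j) 𝒰 (𝓝 (∑ j, (if j = i then 1 else 0) * Y j)) :=
    tendsto_finsetSum _ fun j _ => (hwl j).mul_const _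
  have h2 : Tendsto (fun m => ∑ j, w m j * Xm m j) 𝒰
      (𝓝 (∑ j, (if j = i then 1 else 0) * Xo j)) :=
    tendsto_finsetSum _ fun j _ => (hwl j).mul (hXoj j)
  have h3 := le_of_tendsto_of_tendsto' h1 h2 fun m => hw1 m Y hY
  simpa using h3

end Pool.Agent.Zk58.SS
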