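import Mathlib
import Pool.Agent.R753.Sums
import Pool.Agent.Zk58.SS.Main
import Pool.Agent.Zk58.SS.Strict2

set_option autoImplicit false

/-!
Symmetric profile sets, and unconditional bodies.
-/

namespace Pool.Agent.Zk58.SS

open Finset Filter Topology
open scoped Classical

section sym

variable {ι : Type} [Fintype ι]

/-- symmetries of the tree give the inequality for the normals -/
lemma dom_of_sym {M : Set (ι → ℝ)} (hsol : Pool.Agent.R753.Sol M) {s s' : Setoid ι} (hss : s ≤ s')
    (hsym : ∀ i l, s' i l → ¬ s i l → ∃ σ : Equiv.Perm ι, (∀ X ∈ M, (fun j => X (σ j)) ∈ M) ∧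
      σ l = i ∧ ∀ j, ¬ s j i → ¬ s j l → σ j = j)
    {i l : ι} (hil : s' i l) {X : ι → ℝ} (hX : X ∈ M) (hX0 : ∀ j, 0 ≤ X j) (hi : X i ≠ 0)
    (hl : ∀ l', s l l' → X l' = 0) {v : ι → ℝ} (hv : Nor M X v) :
    v l ≤ 1 * ∑ i' with s i' i, max (v i') 0 := by
  -- the largest coordinate in the class of `i`
  have hne : (univ.filter fun i' => s i' i).Nonempty := ⟨i, mem_filter.2 ⟨mem_univ _, s.refl i⟩⟩
  obtain ⟨m, hm, hmax⟩ := Finset.exists_max_image _ X hne
  have hmi : s m i := (mem_filter.1 hm).2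
  have hXm : 0 < X m := by
    have h1 := hmax i (mem_filter.2 ⟨mem_univ _, s.refl i⟩)
    exact lt_of_lt_of_le (lt_of_le_of_ne (hX0 i) (Ne.symm hi)) h1
  have hml : ¬ s m l := fun h => hXm.ne' (hl m (s.symm h))
  have hil' : ¬ s i l := fun h => hml (s.trans hmi h)
  obtain ⟨σ, hσM, hσl, hσ⟩ := hsym m l (s'.trans (hss hmi) hil) hml
  have hσX := hσM X hX
  set Y : ι → ℝ := fun j => if j = l then X m else if s j i ∨ s j l then 0 else X j with hY
  have hYM : Y ∈ M := by
    refine hsol _ hσX Y fun j => ?_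
    simp only [hY]
    by_cases hjl : j = l
    · rw [if_pos hjl, hjl, hσl]
      exact Set.right_mem_uIcc
    · rw [if_neg hjl]
      by_cases hj : s j i ∨ s j l
      · rw [if_pos hj]
        exact Set.left_mem_uIcc
      · rw [if_neg hj]
        push Not at hj
        rw [hσ j (fun h => hj.1 (s.trans h hmi)) hj.2]
        exact Set.right_mem_uIcc
  have h1 := hv Y hYM
  have h2 : ∑ j, v j * X j - ∑ j, v j * Y j = ∑ j with s j i, v j * X j - v l * X m := by
    rw [← Finset.sum_sub_distrib, Finset.sum_filter]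
    have h3 : v l * X m = ∑ j, if j = l then v j * X m else 0 := by
      rw [Finset.sum_ite_eq' univ l, if_pos (mem_univ _)]
    rw [h3, ← Finset.sum_sub_distrib]
    refine Finset.sum_congr rfl fun j _ => ?_
    simp only [hY]
    by_cases hjl : j = l
    · have h4 : ¬ s j i := by
        rw [hjl]
        exact fun h => hil' (s.symm h)
      have h5 : X j = 0 := hl j (by rw [hjl])
      rw [if_pos hjl, if_neg h4, if_pos hjl, h5]
      ring
    · rw [if_neg hjl, if_neg hjl]
      by_cases hji : s j i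
      · rw [if_pos (Or.inl hji), if_pos hji]
        ring
      · rw [if_neg hji]
        by_cases hjl2 : s j l
        · rw [if_pos (Or.inr hjl2), hl j (s.symm hjl2)]
          ring
        · rw [if_neg (by tauto)]
          ring
  have h3 : ∑ j with s j i, v j * X j ≤ (∑ j with s j i, max (v j) 0) * X m := by
    rw [Finset.sum_mul]
    refine Finset.sum_le_sum fun j hj => ?_
    calc v j * X j ≤ max (v j) 0 * X j := mul_le_mul_of_nonneg_right (le_max_left _ _) (hX0 j)
      _ ≤ max (v j) 0 * X m := mul_le_mul_of_nonneg_left (hmax j hj) (le_max_right _ _)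
  have h4 : v l * X m ≤ (∑ j with s j i, max (v j) 0) * X m := by linarith
  rw [one_mul]
  exact le_of_mul_le_mul_right h4 hXm

/-- a permutation invariant set has nested supports -/
lemma nested_of_perm {M : Set (ι → ℝ)} (hsol : Pool.Agent.R753.Sol M)
    (hperm : ∀ σ : Equiv.Perm ι, ∀ X ∈ M, (fun j => X (σ j)) ∈ M)
    {X : ι → ℝ} (hX : X ∈ M) (hX0 : ∀ j, 0 ≤ X j) {v : ι → ℝ} (hv : Nor M X v) :
    (∀ i, X i ≠ 0 → v i ≠ 0) ∨ (∀ i, 0 < v i → X i ≠ 0) := by
  by_contra hcon
  push Not at hcon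
  obtain ⟨⟨i, hi, hvi⟩, ⟨l, hvl, hl⟩⟩ := hcon
  have hsym : ∀ i l, (⊤ : Setoid ι) i l → ¬ (⊥ : Setoid ι) i l → ∃ σ : Equiv.Perm ι,
      (∀ X ∈ M, (fun j => X (σ j)) ∈ M) ∧ σ l = i ∧
      ∀ j, ¬ (⊥ : Setoid ι) j i → ¬ (⊥ : Setoid ι) j l → σ j = j := by
    intro i l _ _
    refine ⟨Equiv.swap i l, hperm _, Equiv.swap_apply_right i l, fun j h1 h2 => ?_⟩
    exact Equiv.swap_apply_of_ne_of_ne h1 h2
  have h1 := dom_of_sym hsol (s := ⊥) (s' := ⊤) le_top hsym (i := i) (l := l)
    (Setoid.top_def ▸ trivial) hX hX0 hi (fun l' hl' => by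
      have : l = l' := hl'
      rw [← this]
      exact hl) hv
  have h2 : ∑ i' with (⊥ : Setoid ι) i' i, max (v i') 0 = 0 := by
    refine Finset.sum_eq_zero fun j hj => ?_
    have hj' : j = i := (mem_filter.1 hj).2
    rw [hj', hvi, max_self]
  rw [h2] at h1
  linarith

end sym

section unc

variable {n : ℕ}

/-- the gauge of the segment -/
lemma gauge_seg (x : ℝ) : gauge (Set.Icc (-1 : ℝ) 1) x = |x| := by
  have h1 : Set.Icc (-1 : ℝ) 1 = Metric.closedBall (0 : ℝ) 1 := by
    rw [Real.closedBall_eq_Icc]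
    norm_num
  rw [h1, gauge_closedBall zero_le_one, div_one, Real.norm_eq_abs]

lemma cover_seg : ∃ T : Finset ℝ, T.card ≤ 2 ∧
    Set.Icc (-1 : ℝ) 1 ⊆ ⋃ t ∈ T, (fun x => t + x) '' interior (Set.Icc (-1 : ℝ) 1) := by
  refine ⟨{-1 / 2, 1 / 2}, Finset.card_le_two, ?_⟩
  intro x hx
  rw [interior_Icc]
  rcases le_total x 0 with h | h
  · refine Set.mem_iUnion₂.2 ⟨-1 / 2, by simp, x + 1 / 2, ⟨?_, ?_⟩, ?_⟩
    · linarith [hx.1]
    · linarith
    · simp only
      ring
  · refine Set.mem_iUnion₂.2 ⟨1 / 2, by simp, x - 1 / 2, ⟨?_, ?_⟩, ?_⟩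
    · linarith
    · linarith [hx.2]
    · simp only
      ring

/-- `K` as a set of functions -/
def fset (K : Set (EuclideanSpace ℝ (Fin n))) : Set (Fin n → ℝ) := {x | WithLp.toLp 2 x ∈ K}

/-- `K` is symmetric about the coordinate hyperplanes -/
def Unc (K : Set (EuclideanSpace ℝ (Fin n))) : Prop :=
  ∀ x ∈ K, ∀ y : EuclideanSpace ℝ (Fin n), (∀ i, |y i| = |x i|) → y ∈ K

lemma fset_props {K : Set (EuclideanSpace ℝ (Fin n))} (hK : Convex ℝ K) (hKc : IsCompact K)
    (hKi : (interior K).Nonempty) (hu : Unc K) :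
    Convex ℝ (fset K) ∧ IsCompact (fset K) ∧ (0 : Fin n → ℝ) ∈ interior (fset K) ∧
      Pool.Agent.R753.Sol (fset K) ∧
      (∀ x ∈ fset K, ∀ y : Fin n → ℝ, (∀ i, |y i| = |x i|) → y ∈ fset K) := by
  have hpre : fset K = (EuclideanSpace.equiv (Fin n) ℝ).symm ⁻¹' K := rfl
  have hconv : Convex ℝ (fset K) := by
    rw [hpre]
    exact hK.linear_preimage (EuclideanSpace.equiv (Fin n) ℝ).symm.toLinearMap
  have hcomp : IsCompact (fset K) := by
    rw [hpre]
    exact (EuclideanSpace.equiv (Fin n) ℝ).symm.toHomeomorph.isCompact_preimage.2 hKc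
  have hunc : ∀ x ∈ fset K, ∀ y : Fin n → ℝ, (∀ i, |y i| = |x i|) → y ∈ fset K :=
    fun x hx y hy => hu _ hx _ hy
  have hne : (interior (fset K)).Nonempty := by
    obtain ⟨x, hx⟩ := hKi
    refine ⟨EuclideanSpace.equiv (Fin n) ℝ x, ?_⟩
    rw [hpre]
    have h1 : EuclideanSpace.equiv (Fin n) ℝ x ∈
        (EuclideanSpace.equiv (Fin n) ℝ).symm.toHomeomorph ⁻¹' interior K := by
      rw [Set.mem_preimage]
      show (EuclideanSpace.equiv (Fin n) ℝ).symm (EuclideanSpace.equiv (Fin n) ℝ x) ∈ interior K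
      rw [ContinuousLinearEquiv.symm_apply_apply]
      exact hx
    rw [(EuclideanSpace.equiv (Fin n) ℝ).symm.toHomeomorph.preimage_interior] at h1
    exact h1
  have hneg : ∀ x ∈ fset K, -x ∈ fset K := fun x hx => hunc x hx _ fun i => by simp
  refine ⟨hconv, hcomp, ?_, ?_, hunc⟩
  · obtain ⟨x, hx⟩ := hne
    have h1 := hconv.combo_interior_self_mem_interior hx (hneg x (interior_subset hx))
      (by norm_num : (0 : ℝ) < 1 / 2) (by norm_num : (0 : ℝ) ≤ 1 / 2) (by norm_num)
    have h2 : (1 / 2 : ℝ) • x + (1 / 2 : ℝ) • (-x) = 0 := by module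
    rwa [h2] at h1
  · -- solidity, one coordinate at a time
    intro x hx y hy
    have key : ∀ S : Finset (Fin n), (fun i => if i ∈ S then y i else x i) ∈ fset K := by
      intro S
      induction S using Finset.induction_on with
      | empty => simpa using hx
      | insert a S ha ih =>
        set z : Fin n → ℝ := fun i => if i ∈ S then y i else x i with hz
        have hza : z a = x a := if_neg ha
        have hw : Function.update z a (-x a) ∈ fset K := by
          refine hunc z ih _ fun i => ?_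
          by_cases hi : i = a
          · rw [hi, Function.update_self, hza, abs_neg]
          · rw [Function.update_of_ne hi]
        obtain ⟨p, q, hp, hq, hpq, hpx⟩ : ∃ p q : ℝ, 0 ≤ p ∧ 0 ≤ q ∧ p + q = 1 ∧
            p * x a + q * (-x a) = y a := by
          by_cases hxa : x a = 0
          · refine ⟨1, 0, by norm_num, le_rfl, by norm_num, ?_⟩
            have := hy a
            rw [hxa, Set.uIcc_self] at this
            rw [hxa, Set.mem_singleton_iff.1 this]
            ring
          · have h1 := hy a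
            rw [Set.mem_uIcc] at h1
            set s : ℝ := y a / x a with hs
            have hs0 : 0 ≤ s := by
              rcases h1 with ⟨h1, h2⟩ | ⟨h1, h2⟩
              · exact div_nonneg h1 (h1.trans h2)
              · exact div_nonneg_of_nonpos h2 (h1.trans h2)
            have hs1 : s ≤ 1 := by
              rcases h1 with ⟨h1, h2⟩ | ⟨h1, h2⟩
              · exact div_le_one_of_le₀ h2 (h1.trans h2)
              · have hneg : x a < 0 := lt_of_le_of_ne (h1.trans h2) hxa
                rw [hs, div_le_one_of_neg hneg]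
                exact h1
            have hsx : s * x a = y a := div_mul_cancel₀ _ hxa
            refine ⟨(1 + s) / 2, (1 - s) / 2, by linarith, by linarith, by ring, ?_⟩
            rw [← hsx]
            ring
        have h2 := hconv ih hw hp hq hpq
        have h3 : p • z + q • Function.update z a (-x a) =
            fun i => if i ∈ insert a S then y i else x i := by
          funext i
          simp only [Pi.add_apply, Pi.smul_apply, smul_eq_mul]
          by_cases hi : i = a
          · rw [hi, Function.update_self, hza, if_pos (mem_insert_self _ _), hpx]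
          · rw [Function.update_of_ne hi]
            have h4 : p * z i + q * z i = z i := by rw [← add_mul, hpq, one_mul]
            rw [h4]
            simp only [hz, mem_insert, hi, false_or]
        rwa [h3] at h2
    have := key univ
    simpa using this

/-- coverings and isomorphisms -/
lemma cov_preimage {V W : Type} [AddCommGroup V] [TopologicalSpace V] [AddCommGroup W]
    [TopologicalSpace W] (e : V ≃ₜ W) (he : ∀ x y, e (x + y) = e x + e y) {K : Set W}
    {P : ℕ → Prop} (hP : ∀ a b, a ≤ b → P b → P a)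
    (h : ∃ T : Finset V, P T.card ∧ e ⁻¹' K ⊆ ⋃ t ∈ T, (fun x => t + x) '' interior (e ⁻¹' K)) :
    ∃ T : Finset W, P T.card ∧ K ⊆ ⋃ t ∈ T, (fun x => t + x) '' interior K := by
  obtain ⟨T, hT, hT2⟩ := h
  refine ⟨T.image e, hP _ _ card_image_le hT, fun x hx => ?_⟩
  have h1 : e.symm x ∈ e ⁻¹' K := by
    rw [Set.mem_preimage, Homeomorph.apply_symm_apply]
    exact hx
  obtain ⟨t, ht, w, hw, htw⟩ := Set.mem_iUnion₂.1 (hT2 h1)
  refine Set.mem_iUnion₂.2 ⟨e t, mem_image_of_mem _ ht, e w, ?_, ?_⟩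
  · rw [← e.preimage_interior] at hw
    exact hw
  · show e t + e w = x
    have h2 : t + w = e.symm x := htw
    rw [← he, h2, Homeomorph.apply_symm_apply]

/-- coverings of the set of functions -/
lemma cov_fset {K : Set (EuclideanSpace ℝ (Fin n))} {P : ℕ → Prop}
    (hP : ∀ a b, a ≤ b → P b → P a)
    (h : ∃ T : Finset (Fin n → ℝ), P T.card ∧
      fset K ⊆ ⋃ t ∈ T, (fun x => t + x) '' interior (fset K)) :
    ∃ T : Finset (EuclideanSpace ℝ (Fin n)), P T.card ∧
      K ⊆ ⋃ t ∈ T, (fun x => t + x) '' interior K :=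
  cov_preimage (EuclideanSpace.equiv (Fin n) ℝ).symm.toHomeomorph
    (fun x y => map_add (EuclideanSpace.equiv (Fin n) ℝ).symm x y) hP h

/-- the set of functions as a sum of segments -/
lemma fset_eq {M : Set (Fin n → ℝ)}
    (hunc : ∀ x ∈ M, ∀ y : Fin n → ℝ, (∀ i, |y i| = |x i|) → y ∈ M) :
    M = {x : ∀ _ : Fin n, ℝ | (fun j => gauge (Set.Icc (-1 : ℝ) 1) (x j)) ∈ M} := by
  ext x
  rw [Set.mem_ofPred_eq]
  simp only [gauge_seg]
  exact ⟨fun h => hunc x h _ fun i => abs_abs _, fun h => hunc _ h _ fun i => (abs_abs _).symm⟩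

end unc

end Pool.Agent.Zk58.SS
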