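import Mathlib
import Pool.Agent.Zk58.SS.Sym

set_option autoImplicit false

/-!
The class of the sets with nested supports.
-/

namespace Pool.Agent.Zk58.SS

open Finset Filter Topology

section sumrule

variable {V : Type} [NormedAddCommGroup V] [NormedSpace ℝ V]

lemma le_of_interior {A : Set V} (hA : Convex ℝ A) (hAi : (interior A).Nonempty) (f : V →L[ℝ] ℝ)
    {c : ℝ} (h : ∀ a ∈ interior A, f a ≤ c) : ∀ a ∈ A, f a ≤ c := by
  intro a ha
  have h1 : a ∈ closure (interior A) := by
    rw [hA.closure_interior_eq_closure_of_nonempty_interior hAi]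
    exact subset_closure ha
  have h2 : closure (interior A) ⊆ {y | f y ≤ c} :=
    closure_minimal h (isClosed_le f.continuous continuous_const)
  exact h2 h1

/-- the normals of an intersection -/
lemma sum_rule {A B : Set V} (hA : Convex ℝ A) (hB : Convex ℝ B) (hA0 : (0 : V) ∈ interior A)
    (hB0 : (0 : V) ∈ interior B) {x : V} (hxA : x ∈ A) (hxB : x ∈ B) (f : V →L[ℝ] ℝ)
    (hf : ∀ y ∈ A ∩ B, f y ≤ f x) :
    ∃ p q : V →L[ℝ] ℝ, f = p + q ∧ (∀ y ∈ A, p y ≤ p x) ∧ ∀ y ∈ B, q y ≤ q x := by
  by_cases hf0 : f = 0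
  · exact ⟨0, 0, by rw [hf0, add_zero], fun _ _ => le_rfl, fun _ _ => le_rfl⟩
  obtain ⟨y₁, hy₁⟩ : ∃ y₁, f y₁ ≠ 0 := by
    by_contra hcon
    push Not at hcon
    exact hf0 (ContinuousLinearMap.ext hcon)
  set y₀ : V := (f y₁)⁻¹ • y₁ with hy₀
  have hfy₀ : f y₀ = 1 := by
    rw [hy₀, map_smul, smul_eq_mul, inv_mul_cancel₀ hy₁]
  clear_value y₀
  set S : Set (V × V) := interior A ×ˢ interior B with hS
  set T : Set (V × V) := {z | z.1 = z.2 ∧ f x < f z.1} with hT
  have hTc : Convex ℝ T := by
    rintro ⟨a, b⟩ ⟨h1, h2⟩ ⟨a', b'⟩ ⟨h1', h2'⟩ p q hp hq hpq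
    simp only at h1 h2 h1' h2'
    subst h1 h1'
    refine ⟨rfl, ?_⟩
    simp only [Prod.smul_mk, Prod.mk_add_mk, map_add, map_smul, smul_eq_mul]
    have h3 : f x = p * f x + q * f x := by rw [← add_mul, hpq, one_mul]
    rcases hp.eq_or_lt with rfl | hp'
    · have hq1 : q = 1 := by linarith
      rw [hq1]
      linarith
    · have h4 := mul_lt_mul_of_pos_left h2 hp'
      have h5 := mul_le_mul_of_nonneg_left h2'.le hq
      linarith
  have hdis : Disjoint S T := by
    rw [Set.disjoint_left]
    rintro ⟨a, b⟩ ⟨h1, h2⟩ ⟨h3, h4⟩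
    simp only at h1 h2 h3 h4
    subst h3
    have := hf a ⟨interior_subset h1, interior_subset h2⟩
    linarith
  obtain ⟨F, u, hF1, hF2⟩ := geometric_hahn_banach_open (hA.interior.prod hB.interior)
    (isOpen_interior.prod isOpen_interior) hTc hdis
  set p : V →L[ℝ] ℝ := F.comp (ContinuousLinearMap.inl ℝ V V) with hp
  set q : V →L[ℝ] ℝ := F.comp (ContinuousLinearMap.inr ℝ V V) with hq
  have hFpq : ∀ a b, F (a, b) = p a + q b := by
    intro a b
    simp only [hp, hq, ContinuousLinearMap.comp_apply, ContinuousLinearMap.inl_apply,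
      ContinuousLinearMap.inr_apply]
    rw [← map_add, Prod.mk_add_mk, add_zero, zero_add]
  have hu0 : 0 < u := by
    have := hF1 (0, 0) ⟨hA0, hB0⟩
    rwa [hFpq, map_zero, map_zero, add_zero] at this
  have hg : ∀ y, f x < f y → u ≤ p y + q y := by
    intro y hy
    have := hF2 (y, y) ⟨rfl, hy⟩
    rwa [hFpq] at this
  have hker : ∀ z, f z = 0 → p z + q z = 0 := by
    intro z hz
    by_contra hne
    set s : ℝ := (u - 1 - (p (x + y₀) + q (x + y₀))) / (p z + q z) with hs
    have h1 := hg (x + y₀ + s • z) (by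
      rw [map_add f, map_add f, map_smul f, hz, hfy₀, smul_zero]
      linarith)
    rw [map_add p, map_add q, map_smul p, map_smul q, smul_eq_mul, smul_eq_mul] at h1
    have h2 : s * p z + s * q z = u - 1 - (p (x + y₀) + q (x + y₀)) := by
      rw [← mul_add, hs, div_mul_cancel₀ _ hne]
    linarith
  set l : ℝ := p y₀ + q y₀ with hl
  have hpq : ∀ y, p y + q y = l * f y := by
    intro y
    have h1 := hker (y - f y • y₀) (by
      rw [map_sub, map_smul, hfy₀, smul_eq_mul, mul_one, sub_self])
    rw [map_sub p, map_sub q, map_smul p, map_smul q, smul_eq_mul, smul_eq_mul] at h1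
    have h2 : f y * p y₀ + f y * q y₀ = l * f y := by rw [hl]; ring
    linarith
  have hlim : ∀ t : ℝ, 0 < t → u ≤ l * f x + t * l := by
    intro t ht
    have h1 := hg (x + t • y₀) (by
      rw [map_add, map_smul, hfy₀, smul_eq_mul, mul_one]
      linarith)
    rw [hpq, map_add, map_smul, hfy₀, smul_eq_mul, mul_one] at h1
    linarith
  have hux : u ≤ l * f x := by
    have h1 : Tendsto (fun t : ℝ => l * f x + t * l) (𝓝[>] 0) (𝓝 (l * f x + 0 * l)) := by
      have : Tendsto (fun t : ℝ => l * f x + t * l) (𝓝 0) (𝓝 (l * f x + 0 * l)) :=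
        (continuous_const.add (continuous_id.mul continuous_const)).tendsto 0
      exact this.mono_left nhdsWithin_le_nhds
    rw [zero_mul, add_zero] at h1
    exact ge_of_tendsto h1 (eventually_mem_nhdsWithin.mono fun t ht => hlim t ht)
  have hl0 : 0 < l := by
    have h1 : l ≠ 0 := by
      intro h0
      rw [h0, zero_mul] at hux
      linarith
    have h2 : 0 ≤ l := by
      by_contra hneg
      push Not at hneg
      have h3 := hlim (1 + (l * f x) / (-l)) (by
        have : 0 ≤ (l * f x) / (-l) := div_nonneg (hu0.le.trans hux) (by linarith)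
        linarith)
      have h4 : (l * f x) / (-l) * l = -(l * f x) := by
        rw [div_mul_eq_mul_div, div_eq_iff (by linarith : -l ≠ 0)]
        ring
      have h5 : (1 + (l * f x) / (-l)) * l = l + -(l * f x) := by
        rw [add_mul, one_mul, h4]
      rw [h5] at h3
      linarith
    exact lt_of_le_of_ne h2 (Ne.symm h1)
  have hAB : ∀ a ∈ A, ∀ b ∈ B, p a + q b ≤ p x + q x := by
    have h1 : ∀ b ∈ interior B, ∀ a ∈ A, p a ≤ u - q b := by
      intro b hb
      refine le_of_interior hA ⟨0, hA0⟩ p fun a ha => ?_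
      have := hF1 (a, b) ⟨ha, hb⟩
      rw [hFpq] at this
      linarith
    have h2 : ∀ a ∈ A, ∀ b ∈ B, q b ≤ u - p a := by
      intro a ha
      refine le_of_interior hB ⟨0, hB0⟩ q fun b hb => ?_
      have := h1 b hb a ha
      linarith
    intro a ha b hb
    have h3 := h2 a ha b hb
    have h4 := hpq x
    linarith
  refine ⟨l⁻¹ • p, l⁻¹ • q, ?_, ?_, ?_⟩
  · ext y
    show f y = l⁻¹ * p y + l⁻¹ * q y
    rw [← mul_add, hpq, ← mul_assoc, inv_mul_cancel₀ hl0.ne', one_mul]
  · intro y hy
    show l⁻¹ * p y ≤ l⁻¹ * p x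
    have := hAB y hy x hxB
    exact mul_le_mul_of_nonneg_left (by linarith) (inv_nonneg.2 hl0.le)
  · intro y hy
    show l⁻¹ * q y ≤ l⁻¹ * q x
    have := hAB x hxA y hy
    exact mul_le_mul_of_nonneg_left (by linarith) (inv_nonneg.2 hl0.le)

end sumrule

variable {n : ℕ}

/-- `w` is an outer normal of `K` at `x` -/
def NorE (K : Set (EuclideanSpace ℝ (Fin n))) (x w : EuclideanSpace ℝ (Fin n)) : Prop :=
  ∀ y ∈ K, inner ℝ w y ≤ inner ℝ w x

/-- nested supports -/
def Nest (K : Set (EuclideanSpace ℝ (Fin n))) : Prop :=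
  ∀ x ∈ K, ∀ w, NorE K x w → (∀ i, x i ≠ 0 → w i ≠ 0) ∨ (∀ i, w i ≠ 0 → x i ≠ 0)

lemma inner_sum (w y : EuclideanSpace ℝ (Fin n)) : inner ℝ w y = ∑ i, w i * y i := by
  rw [PiLp.inner_apply]
  refine Finset.sum_congr rfl fun i _ => ?_
  simp [mul_comm]

/-- the signs of the normals -/
lemma norE_sign {K : Set (EuclideanSpace ℝ (Fin n))} (hu : Unc K) {x w : EuclideanSpace ℝ (Fin n)}
    (hx : x ∈ K) (hw : NorE K x w) (i : Fin n) : 0 ≤ w i * x i := by
  classical
  set y : EuclideanSpace ℝ (Fin n) := WithLp.toLp 2 (Function.update (WithLp.ofLp x) i (-x i))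
    with hy
  have hyj : ∀ j, y j = if j = i then -x i else x j := by
    intro j
    simp only [hy]
    by_cases hj : j = i
    · rw [hj, if_pos rfl, Function.update_self]
    · rw [if_neg hj, Function.update_of_ne hj]
  have h1 := hw y (hu x hx y fun j => by
    rw [hyj]
    by_cases hj : j = i
    · rw [if_pos hj, abs_neg, hj]
    · rw [if_neg hj])
  rw [inner_sum, inner_sum] at h1
  have h2 : ∑ j, w j * x j - ∑ j, w j * y j = 2 * (w i * x i) := by
    rw [← Finset.sum_sub_distrib]
    rw [Finset.sum_eq_single i]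
    · rw [hyj, if_pos rfl]
      ring
    · intro j _ hj
      rw [hyj, if_neg hj, sub_self]
    · intro h
      exact absurd (mem_univ i) h
  linarith

lemma zero_mem_interior {K : Set (EuclideanSpace ℝ (Fin n))} (hK : Convex ℝ K)
    (hKi : (interior K).Nonempty) (hu : Unc K) : (0 : EuclideanSpace ℝ (Fin n)) ∈ interior K := by
  obtain ⟨x, hx⟩ := hKi
  have hneg : -x ∈ K := hu x (interior_subset hx) _ fun i => by simp
  have h1 := hK.combo_interior_self_mem_interior hx hneg
    (by norm_num : (0 : ℝ) < 1 / 2) (by norm_num : (0 : ℝ) ≤ 1 / 2) (by norm_num)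
  have h2 : (1 / 2 : ℝ) • x + (1 / 2 : ℝ) • (-x) = 0 := by module
  rwa [h2] at h1

/-- boxes -/
lemma nest_box {K : Set (EuclideanSpace ℝ (Fin n))} (hK : Convex ℝ K)
    (hKi : (interior K).Nonempty) (h : Fin n → ℝ)
    (hb : K = {x : EuclideanSpace ℝ (Fin n) | ∀ i, |x i| ≤ h i}) : Nest K := by
  classical
  have hu : Unc K := by
    intro x hx y hy
    rw [hb] at hx ⊢
    intro i
    rw [hy i]
    exact hx i
  have h0 := zero_mem_interior hK hKi hu
  -- the half sides are positive
  have hpos : ∀ i, 0 < h i := by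
    intro i
    obtain ⟨ε, hε, hball⟩ := Metric.isOpen_iff.1 isOpen_interior 0 h0
    have h1 : EuclideanSpace.single i (ε / 2) ∈ K := by
      apply interior_subset
      apply hball
      rw [mem_ball_zero_iff, PiLp.norm_single, Real.norm_eq_abs, abs_of_pos (by positivity)]
      linarith
    rw [hb] at h1
    have h2 := h1 i
    rw [PiLp.single_apply, if_pos rfl, abs_of_pos (by positivity)] at h2
    linarith
  intro x hx w hw
  right
  intro l hwl hxl
  set y : EuclideanSpace ℝ (Fin n) :=
    WithLp.toLp 2 (Function.update (WithLp.ofLp x) l (SignType.sign (w l) * h l)) with hy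
  have hyj : ∀ j, y j = if j = l then SignType.sign (w l) * h l else x j := by
    intro j
    simp only [hy]
    by_cases hj : j = l
    · rw [hj, if_pos rfl, Function.update_self]
    · rw [if_neg hj, Function.update_of_ne hj]
  have hyK : y ∈ K := by
    rw [hb] at hx ⊢
    intro i
    rw [hyj]
    by_cases hi : i = l
    · rw [if_pos hi, abs_mul, hi]
      refine le_trans (mul_le_mul_of_nonneg_right ?_ (abs_nonneg _)) ?_ (b := 1 * |h l|)
      · rcases lt_trichotomy (w l) 0 with h | h | h
        · rw [sign_neg h]; simp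
        · rw [h]; simp
        · rw [sign_pos h]; simp
      · rw [one_mul, abs_of_pos (hpos l)]
    · rw [if_neg hi]
      exact hx i
  have h1 := hw y hyK
  rw [inner_sum, inner_sum] at h1
  have h2 : ∑ j, w j * y j - ∑ j, w j * x j = |w l| * h l := by
    rw [← Finset.sum_sub_distrib]
    rw [Finset.sum_eq_single l]
    · rw [hyj, if_pos rfl, hxl, mul_zero, sub_zero, ← mul_assoc, self_mul_sign]
    · intro j _ hj
      rw [hyj, if_neg hj, sub_self]
    · intro h
      exact absurd (mem_univ l) h
  have h3 : 0 < |w l| * h l := mul_pos (abs_pos.2 hwl) (hpos l)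
  linarith

/-- permutation invariant bodies -/
lemma nest_perm {K : Set (EuclideanSpace ℝ (Fin n))} (hK : Convex ℝ K) (hKc : IsCompact K)
    (hKi : (interior K).Nonempty) (hu : Unc K)
    (hperm : ∀ σ : Equiv.Perm (Fin n), ∀ x ∈ K,
      (WithLp.toLp 2 fun i => x (σ i) : EuclideanSpace ℝ (Fin n)) ∈ K) : Nest K := by
  intro x hx w hw
  obtain ⟨-, -, -, hsol, hunc⟩ := fset_props hK hKc hKi hu
  -- pass to absolute values
  set X : Fin n → ℝ := fun i => |x i| with hX
  set v : Fin n → ℝ := fun i => if x i = 0 then |w i| else w i * SignType.sign (x i) with hv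
  have hXM : X ∈ fset K := hu x hx _ fun i => by
    simp [hX]
  have hnor : Nor (fset K) X v := by
    intro Y hY
    set y : EuclideanSpace ℝ (Fin n) := WithLp.toLp 2 fun i =>
      if x i = 0 then SignType.sign (w i) * |Y i| else SignType.sign (x i) * Y i with hy
    have hyK : ∀ s : Fin n → ℝ, (∀ i, |s i| ≤ |Y i|) → (WithLp.toLp 2 s :
        EuclideanSpace ℝ (Fin n)) ∈ K := by
      intro s hs
      have habs : (fun i => |Y i|) ∈ fset K := hunc Y hY _ fun i => abs_abs _
      have h1 : (fun i => |s i|) ∈ fset K := by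
        refine hsol _ habs _ fun i => ?_
        rw [Set.mem_uIcc]
        exact Or.inl ⟨abs_nonneg _, hs i⟩
      exact hunc _ h1 s fun i => (abs_abs _).symm
    have hsign : ∀ a b : ℝ, |(SignType.sign a : ℝ) * b| ≤ |b| := by
      intro a b
      rw [abs_mul]
      refine mul_le_of_le_one_left (abs_nonneg _) ?_
      rcases lt_trichotomy a 0 with h | h | h
      · rw [sign_neg h]; simp
      · rw [h]; simp
      · rw [sign_pos h]; simp
    have h1 := hw y (hyK _ fun i => by
      by_cases hi : x i = 0
      · rw [if_pos hi]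
        exact (hsign _ _).trans (le_of_eq (abs_abs _))
      · rw [if_neg hi]
        exact hsign _ _)
    rw [inner_sum, inner_sum] at h1
    calc ∑ j, v j * Y j ≤ ∑ j, w j * y j := by
          refine Finset.sum_le_sum fun j _ => ?_
          simp only [hv, hy]
          by_cases hj : x j = 0
          · rw [if_pos hj, if_pos hj, ← mul_assoc, self_mul_sign]
            exact mul_le_mul_of_nonneg_left (le_abs_self _) (abs_nonneg _)
          · rw [if_neg hj, if_neg hj, mul_assoc]
      _ ≤ ∑ j, w j * x j := h1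
      _ = ∑ j, v j * X j := by
          refine Finset.sum_congr rfl fun j _ => ?_
          simp only [hv, hX]
          by_cases hj : x j = 0
          · rw [if_pos hj, hj, abs_zero, mul_zero, mul_zero]
          · rw [if_neg hj, mul_assoc, sign_mul_abs]
  have h1 := nested_of_perm hsol (fun σ Y hY => hperm σ _ hY) hXM (fun i => abs_nonneg _) hnor
  rcases h1 with h1 | h1
  · left
    intro i hi hwi
    refine h1 i (by simpa [hX] using hi) ?_
    simp only [hv]
    rw [if_neg hi, hwi, zero_mul]
  · right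
    intro i hi hxi
    refine h1 i ?_ (by simp [hX, hxi])
    simp only [hv]
    rw [if_pos hxi]
    exact abs_pos.2 hi

/-- strictly monotone bodies -/
lemma nest_mono {K : Set (EuclideanSpace ℝ (Fin n))}
    (hmono : ∀ x ∈ K, ∀ y : EuclideanSpace ℝ (Fin n), (∀ i, |y i| ≤ |x i|) →
      (∃ i, |y i| < |x i|) → y ∈ interior K) : Nest K := by
  classical
  intro x hx w hw
  by_cases hw0 : w = 0
  · right
    intro i hi
    rw [hw0] at hi
    exact absurd rfl hi
  left
  intro i hi hwi
  set y : EuclideanSpace ℝ (Fin n) := WithLp.toLp 2 (Function.update (WithLp.ofLp x) i 0) with hy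
  have hyj : ∀ j, y j = if j = i then 0 else x j := by
    intro j
    simp only [hy]
    by_cases hj : j = i
    · rw [hj, if_pos rfl, Function.update_self]
    · rw [if_neg hj, Function.update_of_ne hj]
  have hyK : y ∈ interior K := by
    refine hmono x hx y (fun j => ?_) ⟨i, ?_⟩
    · rw [hyj]
      by_cases hj : j = i
      · rw [if_pos hj, abs_zero]
        exact abs_nonneg _
      · rw [if_neg hj]
    · rw [hyj, if_pos rfl, abs_zero]
      exact abs_pos.2 hi
  have hwy : inner ℝ w y = inner ℝ w x := by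
    rw [inner_sum, inner_sum]
    refine Finset.sum_congr rfl fun j _ => ?_
    rw [hyj]
    by_cases hj : j = i
    · rw [if_pos hj, hj, hwi, zero_mul, zero_mul]
    · rw [if_neg hj]
  obtain ⟨ε, hε, hball⟩ := Metric.isOpen_iff.1 isOpen_interior y hyK
  have hwn : 0 < ‖w‖ := norm_pos_iff.2 hw0
  have h1 : y + (ε / (2 * ‖w‖)) • w ∈ K := by
    apply interior_subset
    apply hball
    rw [Metric.mem_ball, dist_eq_norm, add_sub_cancel_left, norm_smul, Real.norm_eq_abs,
      abs_of_pos (by positivity)]
    have : ε / (2 * ‖w‖) * ‖w‖ = ε / 2 := by field_simp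
    rw [this]
    linarith
  have h2 := hw _ h1
  rw [inner_add_right, hwy, inner_smul_right, real_inner_self_eq_norm_sq] at h2
  have h3 : 0 < ε / (2 * ‖w‖) * ‖w‖ ^ 2 := by positivity
  linarith

/-- intersections -/
lemma nest_inter {K L : Set (EuclideanSpace ℝ (Fin n))} (hK : Convex ℝ K)
    (hKi : (interior K).Nonempty) (hKu : Unc K) (hL : Convex ℝ L)
    (hLi : (interior L).Nonempty) (hLu : Unc L) (h1 : Nest K) (h2 : Nest L) : Nest (K ∩ L) := by
  intro x hx w hw
  obtain ⟨p, q, hpq, hp, hq⟩ := sum_rule hK hL (zero_mem_interior hK hKi hKu)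
    (zero_mem_interior hL hLi hLu) hx.1 hx.2 (innerSL ℝ w) (fun y hy => by
      simpa using hw y hy)
  set a : EuclideanSpace ℝ (Fin n) := (InnerProductSpace.toDual ℝ _).symm p with ha
  set b : EuclideanSpace ℝ (Fin n) := (InnerProductSpace.toDual ℝ _).symm q with hb
  have hai : ∀ y, inner ℝ a y = p y := fun y => InnerProductSpace.toDual_symm_apply
  have hbi : ∀ y, inner ℝ b y = q y := fun y => InnerProductSpace.toDual_symm_apply
  have hw' : w = a + b := by
    refine ext_inner_right ℝ fun y => ?_
    rw [inner_add_left, hai, hbi]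
    have := congrArg (fun f => f y) hpq
    simpa using this
  have haN : NorE K x a := fun y hy => by
    rw [hai, hai]
    exact hp y hy
  have hbN : NorE L x b := fun y hy => by
    rw [hbi, hbi]
    exact hq y hy
  by_contra hcon
  push Not at hcon
  obtain ⟨⟨i, hi, hwi⟩, ⟨l, hwl, hl⟩⟩ := hcon
  have hs1 := norE_sign hKu hx.1 haN i
  have hs2 := norE_sign hLu hx.2 hbN i
  have hsum : a i + b i = 0 := by
    have := congrArg (fun z => z i) hw'
    simp only [PiLp.add_apply] at this
    rw [← this, hwi]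
  have hai0 : a i = 0 := by
    have h3 : a i * x i + b i * x i = 0 := by rw [← add_mul, hsum, zero_mul]
    have h4 : a i * x i = 0 := by linarith
    rcases mul_eq_zero.1 h4 with h | h
    · exact h
    · exact absurd h hi
  have hbi0 : b i = 0 := by linarith
  have hor : a l ≠ 0 ∨ b l ≠ 0 := by
    by_contra hc
    push Not at hc
    apply hwl
    have := congrArg (fun z => z l) hw'
    simp only [PiLp.add_apply] at this
    rw [this, hc.1, hc.2, add_zero]
  rcases hor with h | h
  · rcases h1 x hx.1 a haN with h3 | h3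
    · exact h3 i hi hai0
    · exact h3 l h hl
  · rcases h2 x hx.2 b hbN with h3 | h3
    · exact h3 i hi hbi0
    · exact h3 l h hl

open Pointwise in
/-- Minkowski sums -/
lemma nest_add {K L : Set (EuclideanSpace ℝ (Fin n))} (hKu : Unc K) (hLu : Unc L)
    (h1 : Nest K) (h2 : Nest L) : Nest (K + L) := by
  rintro _ ⟨a, ha, b, hb, rfl⟩ w hw
  have haN : NorE K a w := by
    intro y hy
    have := hw (y + b) ⟨y, hy, b, hb, rfl⟩
    simp only at this
    rw [inner_add_right, inner_add_right] at this
    linarith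
  have hbN : NorE L b w := by
    intro y hy
    have := hw (a + y) ⟨a, ha, y, hy, rfl⟩
    simp only at this
    rw [inner_add_right, inner_add_right] at this
    linarith
  by_contra hcon
  push Not at hcon
  obtain ⟨⟨i, hi, hwi⟩, ⟨l, hwl, hl⟩⟩ := hcon
  simp only [PiLp.add_apply] at hi hl
  have hs1 := norE_sign hKu ha haN l
  have hs2 := norE_sign hLu hb hbN l
  have hzero : w l * a l = 0 ∧ w l * b l = 0 := by
    have h3 : w l * a l + w l * b l = 0 := by rw [← mul_add, hl, mul_zero]
    constructor <;> linarith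
  have hal : a l = 0 := (mul_eq_zero.1 hzero.1).resolve_left hwl
  have hbl : b l = 0 := (mul_eq_zero.1 hzero.2).resolve_left hwl
  have hor : a i ≠ 0 ∨ b i ≠ 0 := by
    by_contra hc
    push Not at hc
    apply hi
    rw [hc.1, hc.2, add_zero]
  rcases hor with h | h
  · rcases h1 a ha w haN with h3 | h3
    · exact h3 i h hwi
    · exact h3 l hwl hal
  · rcases h2 b hb w hbN with h3 | h3
    · exact h3 i h hwi
    · exact h3 l hwl hbl

/-- polar bodies -/
lemma nest_polar {K : Set (EuclideanSpace ℝ (Fin n))} (hK : Convex ℝ K) (hKc : IsCompact K)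
    (hK0 : (0 : EuclideanSpace ℝ (Fin n)) ∈ K) (h1 : Nest K) :
    Nest {w : EuclideanSpace ℝ (Fin n) | ∀ x ∈ K, inner ℝ w x ≤ 1} := by
  intro w hw v hv
  have h0 : (0 : EuclideanSpace ℝ (Fin n)) ∈ {w : EuclideanSpace ℝ (Fin n) | ∀ x ∈ K,
      inner ℝ w x ≤ 1} := fun x _ => by
    rw [inner_zero_left]
    exact zero_le_one
  have hvw0 : 0 ≤ inner ℝ v w := by
    have := hv 0 h0
    rwa [inner_zero_right] at this
  -- the multiples of `v` in `K`
  have hbip : ∀ c : ℝ, 0 ≤ c → c * inner ℝ v w ≤ 1 → c • v ∈ K := by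
    intro c hc hcv
    by_contra hnot
    obtain ⟨f, u, hf1, hf2⟩ := geometric_hahn_banach_closed_point hK hKc.isClosed hnot
    have hu : 0 < u := by
      have := hf1 0 hK0
      rwa [map_zero] at this
    set a : EuclideanSpace ℝ (Fin n) := u⁻¹ • (InnerProductSpace.toDual ℝ _).symm f with ha
    have hai : ∀ y, inner ℝ a y = u⁻¹ * f y := fun y => by
      rw [ha, real_inner_smul_left, InnerProductSpace.toDual_symm_apply]
    have haP : ∀ x ∈ K, inner ℝ a x ≤ 1 := by
      intro x hx
      rw [hai, inv_mul_le_iff₀ hu, mul_one]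
      exact (hf1 x hx).le
    have h2 := hv a haP
    have h3 : 1 < inner ℝ a (c • v) := by
      rw [hai, lt_inv_mul_iff₀ hu, mul_one]
      exact hf2
    rw [inner_smul_right, real_inner_comm v a] at h3
    have h4 := mul_le_mul_of_nonneg_left h2 hc
    linarith
  by_cases hz : inner ℝ v w = 0
  · -- then all multiples of `v` are in `K`
    by_cases hv0 : v = 0
    · right
      intro i hi
      rw [hv0] at hi
      exact absurd rfl hi
    · exfalso
      obtain ⟨R, hR⟩ := hKc.isBounded.exists_norm_le
      have hvn : 0 < ‖v‖ := norm_pos_iff.2 hv0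
      have h2 := hR _ (hbip ((|R| + 1) / ‖v‖) (by positivity) (by
        rw [hz, mul_zero]
        norm_num))
      rw [norm_smul, Real.norm_eq_abs, abs_of_pos (by positivity),
        div_mul_cancel₀ _ hvn.ne'] at h2
      have := le_abs_self R
      linarith
  · have hpos : 0 < inner ℝ v w := lt_of_le_of_ne hvw0 (Ne.symm hz)
    set c : ℝ := (inner ℝ v w)⁻¹ with hc
    have hcpos : 0 < c := inv_pos.2 hpos
    have hcK : c • v ∈ K := hbip c hcpos.le (by rw [hc, inv_mul_cancel₀ hpos.ne'])
    have hN : NorE K (c • v) w := by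
      intro y hy
      have h2 := hw y hy
      rw [inner_smul_right, real_inner_comm v w, hc, inv_mul_cancel₀ hpos.ne']
      exact h2
    rcases h1 (c • v) hcK w hN with h3 | h3
    · right
      intro i hi
      exact h3 i (by
        rw [PiLp.smul_apply, smul_eq_mul]
        exact mul_ne_zero hcpos.ne' hi)
    · left
      intro i hi
      have := h3 i hi
      rw [PiLp.smul_apply, smul_eq_mul] at this
      exact fun h => this (by rw [h, mul_zero])

end Pool.Agent.Zk58.SS
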