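import Mathlib
import Pool.Agent.Zk58.SS.Class
import Pool.Agent.Zk58.SS.Nested

set_option autoImplicit false

/-!
Unconditional bodies: intersections, Minkowski sums and polar bodies are unconditional bodies;
coverings of boxes; the covering theorems for unconditional bodies.
-/

namespace Pool.Agent.Zk58.SS

open Finset Filter Topology
open scoped Classical

variable {n : ℕ}

lemma body_inter {K L : Set (EuclideanSpace ℝ (Fin n))} (hK : Convex ℝ K) (hKc : IsCompact K)
    (hKi : (interior K).Nonempty) (hKu : Unc K) (hL : Convex ℝ L) (hLc : IsCompact L)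
    (hLi : (interior L).Nonempty) (hLu : Unc L) :
    (Convex ℝ (K ∩ L) ∧ IsCompact (K ∩ L) ∧ (interior (K ∩ L)).Nonempty) ∧ Unc (K ∩ L) := by
  refine ⟨⟨hK.inter hL, hKc.inter hLc, ⟨0, ?_⟩⟩, fun x hx y hy =>
    ⟨hKu x hx.1 y hy, hLu x hx.2 y hy⟩⟩
  rw [interior_inter]
  exact ⟨zero_mem_interior hK hKi hKu, zero_mem_interior hL hLi hLu⟩

open Pointwise in
lemma body_add {K L : Set (EuclideanSpace ℝ (Fin n))} (hK : Convex ℝ K) (hKc : IsCompact K)
    (hKi : (interior K).Nonempty) (hKu : Unc K) (hL : Convex ℝ L) (hLc : IsCompact L)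
    (hLi : (interior L).Nonempty) (hLu : Unc L) :
    (Convex ℝ (K + L) ∧ IsCompact (K + L) ∧ (interior (K + L)).Nonempty) ∧ Unc (K + L) := by
  refine ⟨⟨hK.add hL, hKc.add hLc, ?_⟩, ?_⟩
  · obtain ⟨x, hx⟩ := hKi
    obtain ⟨y, hy⟩ := hLi
    exact ⟨x + y, subset_interior_add_left ⟨x, hx, y, interior_subset hy, rfl⟩⟩
  · rintro _ ⟨a, ha, b, hb, rfl⟩ y hy
    -- change the signs of the coordinates of `a` and `b`
    set ε : Fin n → ℝ := fun i => if y i = a i + b i then 1 else -1 with hε
    have hεa : ∀ i, |ε i| = 1 := by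
      intro i
      simp only [hε]
      split_ifs
      · exact abs_one
      · rw [abs_neg, abs_one]
    refine ⟨WithLp.toLp 2 fun i => ε i * a i, hKu a ha _ fun i => ?_,
      WithLp.toLp 2 fun i => ε i * b i, hLu b hb _ fun i => ?_, ?_⟩
    · show |ε i * a i| = |a i|
      rw [abs_mul, hεa, one_mul]
    · show |ε i * b i| = |b i|
      rw [abs_mul, hεa, one_mul]
    · ext i
      show ε i * a i + ε i * b i = y i
      have h1 : |y i| = |a i + b i| := hy i
      rw [← mul_add]
      simp only [hε]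
      by_cases h : y i = a i + b i
      · rw [if_pos h, one_mul, h]
      · rw [if_neg h]
        rcases abs_eq_abs.1 h1 with h2 | h2
        · exact absurd h2 h
        · rw [h2]
          ring

lemma body_polar {K : Set (EuclideanSpace ℝ (Fin n))} (hK : Convex ℝ K) (hKc : IsCompact K)
    (hKi : (interior K).Nonempty) (hKu : Unc K) :
    (Convex ℝ {w : EuclideanSpace ℝ (Fin n) | ∀ x ∈ K, inner ℝ w x ≤ 1} ∧
      IsCompact {w : EuclideanSpace ℝ (Fin n) | ∀ x ∈ K, inner ℝ w x ≤ 1} ∧
      (interior {w : EuclideanSpace ℝ (Fin n) | ∀ x ∈ K, inner ℝ w x ≤ 1}).Nonempty) ∧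
    Unc {w : EuclideanSpace ℝ (Fin n) | ∀ x ∈ K, inner ℝ w x ≤ 1} := by
  have h0 := zero_mem_interior hK hKi hKu
  refine ⟨⟨?_, ?_, ?_⟩, ?_⟩
  · intro a ha b hb p q hp hq hpq x hx
    rw [inner_add_left, real_inner_smul_left, real_inner_smul_left]
    have h1 := mul_le_mul_of_nonneg_left (ha x hx) hp
    have h2 := mul_le_mul_of_nonneg_left (hb x hx) hq
    linarith
  · refine Metric.isCompact_of_isClosed_isBounded ?_ ?_
    · have : {w : EuclideanSpace ℝ (Fin n) | ∀ x ∈ K, inner ℝ w x ≤ 1} =
          ⋂ x ∈ K, {w : EuclideanSpace ℝ (Fin n) | inner ℝ w x ≤ 1} := by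
        ext w
        simp
      rw [this]
      exact isClosed_biInter fun x _ =>
        isClosed_le (continuous_id.inner continuous_const) continuous_const
    · obtain ⟨ε, hε, hball⟩ := Metric.isOpen_iff.1 isOpen_interior 0 h0
      refine (Metric.isBounded_closedBall (x := 0) (r := 2 / ε)).subset fun w hw => ?_
      rw [mem_closedBall_zero_iff]
      by_cases hw0 : w = 0
      · rw [hw0, norm_zero]
        positivity
      have hwn : 0 < ‖w‖ := norm_pos_iff.2 hw0
      have h1 : (ε / (2 * ‖w‖)) • w ∈ K := by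
        apply interior_subset
        apply hball
        rw [mem_ball_zero_iff, norm_smul, Real.norm_eq_abs, abs_of_pos (by positivity)]
        have : ε / (2 * ‖w‖) * ‖w‖ = ε / 2 := by field_simp
        rw [this]
        linarith
      have h2 := hw _ h1
      rw [inner_smul_right, real_inner_self_eq_norm_sq] at h2
      have h3 : ε / (2 * ‖w‖) * ‖w‖ ^ 2 = ε * ‖w‖ / 2 := by
        field_simp
      rw [h3] at h2
      rw [le_div_iff₀ hε]
      linarith
  · obtain ⟨R, hR⟩ := hKc.isBounded.exists_norm_le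
    refine ⟨0, mem_interior.2 ⟨Metric.ball 0 (1 / (|R| + 1)), ?_, Metric.isOpen_ball,
      Metric.mem_ball_self (by positivity)⟩⟩
    intro w hw x hx
    rw [mem_ball_zero_iff, lt_div_iff₀ (by positivity)] at hw
    have h1 := real_inner_le_norm w x
    have h2 : ‖w‖ * ‖x‖ ≤ ‖w‖ * (|R| + 1) := mul_le_mul_of_nonneg_left
      ((hR x hx).trans ((le_abs_self R).trans (by linarith))) (norm_nonneg _)
    linarith
  · intro w hw v hv x hx
    set ε : Fin n → ℝ := fun i => if v i = w i then 1 else -1 with hε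
    have hεa : ∀ i, |ε i| = 1 := by
      intro i
      simp only [hε]
      split_ifs
      · exact abs_one
      · rw [abs_neg, abs_one]
    have h1 := hw (WithLp.toLp 2 fun i => ε i * x i) (hKu x hx _ fun i => by
      show |ε i * x i| = |x i|
      rw [abs_mul, hεa, one_mul])
    rw [inner_sum] at h1 ⊢
    refine le_trans (le_of_eq ?_) h1
    refine Finset.sum_congr rfl fun i _ => ?_
    show v i * x i = w i * (ε i * x i)
    rw [← mul_assoc]
    congr 1
    simp only [hε]
    by_cases h : v i = w i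
    · rw [if_pos h, mul_one, h]
    · rw [if_neg h]
      rcases abs_eq_abs.1 (hv i) with h2 | h2
      · exact absurd h2 h
      · rw [h2]
        ring

/-- a box is not covered by `2 ^ n - 1` translates of its interior -/
lemma box_lower {K : Set (EuclideanSpace ℝ (Fin n))} (hK : Convex ℝ K)
    (hKi : (interior K).Nonempty) (h : Fin n → ℝ)
    (hb : K = {x : EuclideanSpace ℝ (Fin n) | ∀ i, |x i| ≤ h i})
    (T : Finset (EuclideanSpace ℝ (Fin n))) (hT : K ⊆ ⋃ t ∈ T, (fun x => t + x) '' interior K) :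
    2 ^ n ≤ T.card := by
  have hu : Unc K := by
    intro x hx y hy
    rw [hb] at hx ⊢
    intro i
    rw [hy i]
    exact hx i
  -- points of the interior
  have hint : ∀ x ∈ interior K, ∀ i, |x i| < h i := by
    intro x hx i
    obtain ⟨ε, hε, hball⟩ := Metric.isOpen_iff.1 isOpen_interior x hx
    have hs : ∀ s : ℝ, |s| = 1 → |x i + s * (ε / 2)| ≤ h i := by
      intro s hs
      have h1 : x + (s * (ε / 2)) • EuclideanSpace.single i (1 : ℝ) ∈ K := by
        apply interior_subset
        apply hball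
        rw [Metric.mem_ball, dist_eq_norm, add_sub_cancel_left, norm_smul, Real.norm_eq_abs,
          abs_mul, hs, one_mul, abs_of_pos (by positivity), PiLp.norm_single, norm_one, mul_one]
        linarith
      rw [hb] at h1
      have h2 := h1 i
      rw [PiLp.add_apply, PiLp.smul_apply, PiLp.single_apply, if_pos rfl, smul_eq_mul,
        mul_one] at h2
      exact h2
    have h1 := hs 1 abs_one
    have h2 := hs (-1) (by rw [abs_neg, abs_one])
    rw [abs_le] at h1 h2
    rw [abs_lt]
    constructor <;> linarith [h1.1, h1.2, h2.1, h2.2]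
  have hpos : ∀ i, 0 < h i := by
    intro i
    have := hint 0 (zero_mem_interior hK hKi hu) i
    simpa using this
  -- the vertices
  set V : (Fin n → Bool) → EuclideanSpace ℝ (Fin n) := fun b =>
    WithLp.toLp 2 fun i => if b i then h i else -h i with hV
  have hVi : ∀ b i, V b i = if b i then h i else -h i := fun b i => rfl
  have hVK : ∀ b, V b ∈ K := by
    intro b
    rw [hb]
    intro i
    rw [hVi]
    split_ifs
    · rw [abs_of_pos (hpos i)]
    · rw [abs_neg, abs_of_pos (hpos i)]
  have hex : ∀ b, ∃ t ∈ T, V b - t ∈ interior K := by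
    intro b
    obtain ⟨t, ht, w, hw, htw⟩ := Set.mem_iUnion₂.1 (hT (hVK b))
    refine ⟨t, ht, ?_⟩
    have : V b - t = w := by
      rw [← htw]
      exact add_sub_cancel_left t w
    rw [this]
    exact hw
  choose f hfT hf using hex
  have hinj : Function.Injective f := by
    intro b b' hbb
    funext i
    by_contra hne
    have h1 := hint _ (hf b) i
    have h2 := hint _ (hf b') i
    rw [← hbb] at h2
    rw [PiLp.sub_apply, hVi, abs_lt] at h1 h2
    cases hbi : b i <;> cases hbi' : b' i
    · exact hne (by rw [hbi, hbi'])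
    · rw [hbi] at h1
      rw [hbi'] at h2
      simp only [Bool.false_eq_true, if_false] at h1
      simp only [if_true] at h2
      linarith [h1.1, h1.2, h2.1, h2.2]
    · rw [hbi] at h1
      rw [hbi'] at h2
      simp only [Bool.false_eq_true, if_false] at h2
      simp only [if_true] at h1
      linarith [h1.1, h1.2, h2.1, h2.2]
    · exact hne (by rw [hbi, hbi'])
  have h1 := Finset.card_le_card_of_injOn (s := (univ : Finset (Fin n → Bool))) f
    (fun b _ => hfT b) hinj.injOn
  rw [card_univ, Fintype.card_fun, Fintype.card_bool, Fintype.card_fin] at h1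
  exact h1

/-- nested supports of the set of functions -/
lemma fset_nested {K : Set (EuclideanSpace ℝ (Fin n))} (h : Nest K) :
    ∀ X ∈ fset K, (∀ j, 0 ≤ X j) → ∀ v, Nor (fset K) X v →
      (∀ i, X i ≠ 0 → v i ≠ 0) ∨ (∀ i, 0 < v i → X i ≠ 0) := by
  intro X hX _ v hv
  have hN : NorE K (WithLp.toLp 2 X) (WithLp.toLp 2 v) := by
    intro y hy
    rw [inner_sum, inner_sum]
    exact hv (WithLp.ofLp y) hy
  rcases h _ hX _ hN with h1 | h1
  · exact Or.inl h1
  · exact Or.inr fun i hi => h1 i hi.ne'

/-- unconditional bodies with nested supports -/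
theorem unc_nested {K : Set (EuclideanSpace ℝ (Fin n))} (hK : Convex ℝ K) (hKc : IsCompact K)
    (hKi : (interior K).Nonempty) (hu : Unc K) (h : Nest K) :
    ∃ T : Finset (EuclideanSpace ℝ (Fin n)), T.card ≤ 2 ^ n ∧
      K ⊆ ⋃ t ∈ T, (fun x => t + x) '' interior K := by
  obtain ⟨hc, hco, h0, hsol, hunc⟩ := fset_props hK hKc hKi hu
  have h1 := nested (ι := Fin n) (E := fun _ => ℝ) (fun _ => Set.Icc (-1 : ℝ) 1)
    (fun _ => convex_Icc _ _) (fun _ => isCompact_Icc)
    (fun _ => by rw [interior_Icc]; constructor <;> norm_num) (fun _ => 2) (fun _ => le_rfl)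
    (fun _ => cover_seg) (fset K) hc hco.isClosed h0 hsol (fset K) (fset_eq hunc) hco.isBounded
    (fset_nested h)
  refine cov_fset (P := fun a => a ≤ 2 ^ n) (fun a b hab hb => hab.trans hb) ?_
  obtain ⟨T, hT, hT2⟩ := h1
  refine ⟨T, ?_, hT2⟩
  rwa [Finset.prod_const, card_univ, Fintype.card_fin] at hT

/-- unconditional bodies with nested supports, not boxes -/
theorem unc_strict (hn : 3 ≤ n) {K : Set (EuclideanSpace ℝ (Fin n))} (hK : Convex ℝ K)
    (hKc : IsCompact K) (hKi : (interior K).Nonempty) (hu : Unc K) (h : Nest K)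
    (hbox : ¬ ∃ h : Fin n → ℝ, K = {x : EuclideanSpace ℝ (Fin n) | ∀ i, |x i| ≤ h i}) :
    ∃ T : Finset (EuclideanSpace ℝ (Fin n)), T.card ≤ 2 ^ n - 1 ∧
      K ⊆ ⋃ t ∈ T, (fun x => t + x) '' interior K := by
  obtain ⟨hc, hco, h0, hsol, hunc⟩ := fset_props hK hKc hKi hu
  have h1 := strict hn (E := fun _ => ℝ) (fun _ => Set.Icc (-1 : ℝ) 1)
    (fun _ => convex_Icc _ _) (fun _ => isCompact_Icc)
    (fun _ => by rw [interior_Icc]; constructor <;> norm_num) (fun _ => 2) (fun _ => le_rfl)
    (fun _ => cover_seg) (fset K) hc hco.isClosed h0 hsol (fset K) (fset_eq hunc) hco.isBounded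
    (fset_nested h) (by
      rintro ⟨g, hg, hmax⟩
      refine hbox ⟨g, ?_⟩
      ext x
      constructor
      · intro hx i
        exact hmax (fun i => |x i|) (hunc (WithLp.ofLp x) hx _ fun i => abs_abs _) i
      · intro hx
        have h2 : (fun i => |x i|) ∈ fset K := hsol g hg _ fun i => by
          rw [Set.mem_uIcc]
          exact Or.inl ⟨abs_nonneg _, hx i⟩
        exact hunc _ h2 (WithLp.ofLp x) fun i => (abs_abs _).symm)
  refine cov_fset (P := fun a => a ≤ 2 ^ n - 1) (fun a b hab hb => hab.trans hb) ?_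
  obtain ⟨T, hT, hT2⟩ := h1
  refine ⟨T, ?_, hT2⟩
  rw [Finset.prod_const, card_univ, Fintype.card_fin] at hT
  exact Nat.le_sub_one_of_lt hT

end Pool.Agent.Zk58.SS
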