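import Mathlib
import Pool.Agent.Zk58.SS.Class

set_option autoImplicit false

/-!
The product of a disc and a cube.
-/

namespace Pool.Agent.Zk58.SS

open Finset Filter Topology

/-- the product of the unit disc and the cube -/
def dcube (m : ℕ) : Set (EuclideanSpace ℝ (Fin (m + 2))) :=
  {x | x 0 ^ 2 + x 1 ^ 2 ≤ 1 ∧ ∀ i, |x i| ≤ 1}

variable {m : ℕ}

lemma dcube_convex : Convex ℝ (dcube m) := by
  rintro x ⟨hx1, hx2⟩ y ⟨hy1, hy2⟩ a b ha hb hab
  have hsq : ∀ p q : ℝ, (a * p + b * q) ^ 2 ≤ a * p ^ 2 + b * q ^ 2 := by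
    intro p q
    have h1 : a * p ^ 2 + b * q ^ 2 - (a * p + b * q) ^ 2 = a * b * (p - q) ^ 2 := by
      have hb' : b = 1 - a := by linarith
      rw [hb']
      ring
    have h2 : 0 ≤ a * b * (p - q) ^ 2 := by positivity
    linarith
  constructor
  · show (a * x 0 + b * y 0) ^ 2 + (a * x 1 + b * y 1) ^ 2 ≤ 1
    have h1 := hsq (x 0) (y 0)
    have h2 := hsq (x 1) (y 1)
    have h3 := mul_le_mul_of_nonneg_left hx1 ha
    have h4 := mul_le_mul_of_nonneg_left hy1 hb
    linarith
  · intro i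
    show |a * x i + b * y i| ≤ 1
    calc |a * x i + b * y i| ≤ |a * x i| + |b * y i| := abs_add_le _ _
      _ = a * |x i| + b * |y i| := by rw [abs_mul, abs_mul, abs_of_nonneg ha, abs_of_nonneg hb]
      _ ≤ a * 1 + b * 1 := add_le_add (mul_le_mul_of_nonneg_left (hx2 i) ha)
          (mul_le_mul_of_nonneg_left (hy2 i) hb)
      _ = 1 := by linarith

lemma dcube_compact : IsCompact (dcube m) := by
  have h1 : IsCompact (Set.Icc (-1 : Fin (m + 2) → ℝ) 1 ∩ {x | x 0 ^ 2 + x 1 ^ 2 ≤ 1}) := by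
    refine isCompact_Icc.inter_right ?_
    exact isClosed_le (by fun_prop) continuous_const
  have h2 := h1.image (EuclideanSpace.equiv (Fin (m + 2)) ℝ).symm.continuous
  convert h2 using 1
  ext x
  constructor
  · rintro ⟨hx1, hx2⟩
    refine ⟨EuclideanSpace.equiv (Fin (m + 2)) ℝ x, ⟨⟨fun i => ?_, fun i => ?_⟩, hx1⟩, ?_⟩
    · exact (abs_le.1 (hx2 i)).1
    · exact (abs_le.1 (hx2 i)).2
    · exact ContinuousLinearEquiv.symm_apply_apply _ x
  · rintro ⟨y, ⟨⟨hy1, hy2⟩, hy3⟩, rfl⟩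
    exact ⟨hy3, fun i => abs_le.2 ⟨hy1 i, hy2 i⟩⟩

lemma dcube_interior : (interior (dcube m)).Nonempty := by
  refine ⟨0, mem_interior.2 ⟨Metric.ball 0 (1 / 2), ?_, Metric.isOpen_ball,
    Metric.mem_ball_self (by norm_num)⟩⟩
  intro x hx
  rw [mem_ball_zero_iff] at hx
  have h1 : ∀ i, |x i| ≤ 1 / 2 := by
    intro i
    have := PiLp.norm_apply_le x i
    rw [Real.norm_eq_abs] at this
    linarith
  have h2 : ∀ i, x i ^ 2 ≤ 1 / 4 := by
    intro i
    rw [← sq_abs]
    have := h1 i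
    have h3 := abs_nonneg (x i)
    nlinarith
  exact ⟨by linarith [h2 0, h2 1], fun i => by linarith [h1 i]⟩

lemma dcube_unc : Unc (dcube m) := by
  rintro x ⟨hx1, hx2⟩ y hy
  refine ⟨?_, fun i => by rw [hy i]; exact hx2 i⟩
  rw [← sq_abs (y 0), ← sq_abs (y 1), hy 0, hy 1, sq_abs, sq_abs]
  exact hx1

lemma dcube_ext {x : EuclideanSpace ℝ (Fin (m + 2))} (hx : x ∈ interior (dcube m)) :
    ∃ δ : ℝ, 0 < δ ∧ x + δ • x ∈ dcube m := by
  have h1 : ∀ᶠ δ : ℝ in 𝓝 0, x + δ • x ∈ interior (dcube m) := by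
    have hc : ContinuousAt (fun δ : ℝ => x + δ • x) 0 := by fun_prop
    have : x + (0 : ℝ) • x ∈ interior (dcube m) := by rwa [zero_smul, add_zero]
    exact hc.eventually (isOpen_interior.mem_nhds this)
  obtain ⟨δ, h2, h3⟩ := ((h1.filter_mono nhdsWithin_le_nhds).and
    (self_mem_nhdsWithin : Set.Ioi (0 : ℝ) ∈ 𝓝[>] 0)).exists
  exact ⟨δ, h3, interior_subset h2⟩

lemma dcube_int_abs {x : EuclideanSpace ℝ (Fin (m + 2))} (hx : x ∈ interior (dcube m))
    (i : Fin (m + 2)) : |x i| < 1 := by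
  obtain ⟨δ, hδ, h1⟩ := dcube_ext hx
  have h2 := h1.2 i
  have h3 : (x + δ • x) i = (1 + δ) * x i := by
    show x i + δ * x i = _
    ring
  rw [h3, abs_mul, abs_of_pos (by linarith)] at h2
  by_contra hcon
  push Not at hcon
  nlinarith

lemma dcube_int_disc {x : EuclideanSpace ℝ (Fin (m + 2))} (hx : x ∈ interior (dcube m)) :
    x 0 ^ 2 + x 1 ^ 2 < 1 := by
  obtain ⟨δ, hδ, h1⟩ := dcube_ext hx
  have h2 := h1.1
  have h3 : ∀ i, (x + δ • x) i = (1 + δ) * x i := by
    intro i
    show x i + δ * x i = _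
    ring
  rw [h3, h3] at h2
  by_contra hcon
  push Not at hcon
  have h4 : (1 + δ) ^ 2 * (x 0 ^ 2 + x 1 ^ 2) ≤ 1 := by
    calc (1 + δ) ^ 2 * (x 0 ^ 2 + x 1 ^ 2) = ((1 + δ) * x 0) ^ 2 + ((1 + δ) * x 1) ^ 2 := by ring
      _ ≤ 1 := h2
  nlinarith

/-- smoothness at the coordinate hyperplanes: the disc coordinates -/
lemma dcube_orth_aux {a b : Fin (m + 2)} (hab : a ≠ b)
    (hK : dcube m = {x | x a ^ 2 + x b ^ 2 ≤ 1 ∧ ∀ i, |x i| ≤ 1})
    {x w : EuclideanSpace ℝ (Fin (m + 2))} (hx : x ∈ dcube m) (hw : NorE (dcube m) x w)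
    (ha : x a = 0) : w a = 0 := by
  classical
  rw [hK] at hx
  obtain ⟨hx1, hx2⟩ := hx
  rw [ha, zero_pow two_ne_zero, zero_add] at hx1
  have key : ∀ s : ℝ, |s| = 1 → ∀ t : ℝ, 0 < t → t ≤ 1 → s * w a ≤ t * (w b * x b) := by
    intro s hs t ht ht1
    set y : EuclideanSpace ℝ (Fin (m + 2)) := WithLp.toLp 2 fun i =>
      if i = a then s * t else if i = b then (1 - t ^ 2) * x b else x i with hy
    have hya : y a = s * t := by
      show (if a = a then s * t else _) = _
      rw [if_pos rfl]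
    have hyb : y b = (1 - t ^ 2) * x b := by
      show (if b = a then s * t else if b = b then (1 - t ^ 2) * x b else x b) = _
      rw [if_neg hab.symm, if_pos rfl]
    have hyi : ∀ i, i ≠ a → i ≠ b → y i = x i := by
      intro i h1 h2
      show (if i = a then s * t else if i = b then (1 - t ^ 2) * x b else x i) = _
      rw [if_neg h1, if_neg h2]
    have hs2 : s ^ 2 = 1 := by rw [← sq_abs, hs, one_pow]
    have ht2 : 0 ≤ 1 - t ^ 2 := by nlinarith
    have ht3 : 1 - t ^ 2 ≤ 1 := by nlinarith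
    have hyK : y ∈ dcube m := by
      rw [hK]
      refine ⟨?_, fun i => ?_⟩
      · rw [hya, hyb, mul_pow, hs2, one_mul, mul_pow]
        have h1 : (1 - t ^ 2) ^ 2 ≤ 1 - t ^ 2 := by nlinarith
        have h2 : (1 - t ^ 2) ^ 2 * x b ^ 2 ≤ (1 - t ^ 2) * 1 :=
          mul_le_mul h1 hx1 (sq_nonneg _) ht2
        linarith
      · by_cases h1 : i = a
        · rw [h1, hya, abs_mul, hs, one_mul, abs_of_pos ht]
          exact ht1
        · by_cases h2 : i = b
          · rw [h2, hyb, abs_mul, abs_of_nonneg ht2]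
            calc (1 - t ^ 2) * |x b| ≤ 1 * 1 := mul_le_mul ht3 (hx2 b) (abs_nonneg _) zero_le_one
              _ = 1 := one_mul 1
          · rw [hyi i h1 h2]
            exact hx2 i
    have h1 := hw y hyK
    rw [inner_sum, inner_sum] at h1
    have h2 : ∑ i, w i * y i - ∑ i, w i * x i = w a * (s * t) - t ^ 2 * (w b * x b) := by
      rw [← Finset.sum_sub_distrib]
      have h3 : ∀ i, w i * y i - w i * x i =
          (if i = a then w a * (s * t) else 0) + (if i = b then -(t ^ 2 * (w b * x b)) else 0) := by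
        intro i
        by_cases hi : i = a
        · rw [hi, if_pos rfl, if_neg hab, hya, ha]
          ring
        · rw [if_neg hi]
          by_cases hi2 : i = b
          · rw [hi2, if_pos rfl, hyb]
            ring
          · rw [if_neg hi2, hyi i hi hi2]
            ring
      simp only [h3]
      rw [Finset.sum_add_distrib, Finset.sum_ite_eq' univ a, Finset.sum_ite_eq' univ b,
        if_pos (mem_univ _), if_pos (mem_univ _)]
      ring
    have h4 : t * (s * w a) ≤ t * (t * (w b * x b)) := by nlinarith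
    exact le_of_mul_le_mul_left h4 ht
  have hlim : ∀ s : ℝ, |s| = 1 → s * w a ≤ 0 := by
    intro s hs
    have h1 : Tendsto (fun t : ℝ => t * (w b * x b)) (𝓝[>] 0) (𝓝 (0 * (w b * x b))) :=
      (tendsto_id.mul_const _).mono_left nhdsWithin_le_nhds
    rw [zero_mul] at h1
    refine ge_of_tendsto h1 ?_
    filter_upwards [Ioo_mem_nhdsGT (show (0 : ℝ) < 1 by norm_num)] with t ht
    exact key s hs t ht.1 ht.2.le
  have h1 := hlim 1 abs_one
  have h2 := hlim (-1) (by rw [abs_neg, abs_one])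
  linarith

lemma dcube_nest : Nest (dcube m) := by
  classical
  intro x hx w hw
  right
  intro l hwl hxl
  apply hwl
  by_cases h0 : l = 0
  · subst h0
    exact dcube_orth_aux (a := 0) (b := 1) (by simp) rfl hx hw hxl
  by_cases h1 : l = 1
  · subst h1
    refine dcube_orth_aux (a := 1) (b := 0) (by simp) ?_ hx hw hxl
    ext y
    show (y 0 ^ 2 + y 1 ^ 2 ≤ 1 ∧ _) ↔ (y 1 ^ 2 + y 0 ^ 2 ≤ 1 ∧ _)
    rw [add_comm (y 0 ^ 2) (y 1 ^ 2)]
  -- the coordinates of the cube
  have key : ∀ s : ℝ, |s| = 1 → s * w l ≤ 0 := by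
    intro s hs
    set y : EuclideanSpace ℝ (Fin (m + 2)) := WithLp.toLp 2 fun i => if i = l then s else x i with hy
    have hyl : y l = s := by
      show (if l = l then s else _) = _
      rw [if_pos rfl]
    have hyi : ∀ i, i ≠ l → y i = x i := by
      intro i h
      show (if i = l then s else x i) = _
      rw [if_neg h]
    have hyK : y ∈ dcube m := by
      refine ⟨?_, fun i => ?_⟩
      · rw [hyi 0 (Ne.symm h0), hyi 1 (Ne.symm h1)]
        exact hx.1
      · by_cases hi : i = l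
        · rw [hi, hyl, hs]
        · rw [hyi i hi]
          exact hx.2 i
    have h2 := hw y hyK
    rw [inner_sum, inner_sum] at h2
    have h3 : ∑ i, w i * y i - ∑ i, w i * x i = w l * s := by
      rw [← Finset.sum_sub_distrib, Finset.sum_eq_single l]
      · rw [hyl, hxl, mul_zero, sub_zero]
      · intro i _ hi
        rw [hyi i hi, sub_self]
      · intro h
        exact absurd (mem_univ l) h
    linarith
  have h2 := key 1 abs_one
  have h3 := key (-1) (by rw [abs_neg, abs_one])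
  linarith

lemma dcube_not_box : ¬ ∃ h : Fin (m + 2) → ℝ,
    dcube m = {x : EuclideanSpace ℝ (Fin (m + 2)) | ∀ i, |x i| ≤ h i} := by
  classical
  rintro ⟨h, hb⟩
  have hsingle : ∀ i, EuclideanSpace.single i (1 : ℝ) ∈ dcube m := by
    intro i
    refine ⟨?_, fun j => ?_⟩
    · rw [PiLp.single_apply, PiLp.single_apply]
      by_cases h0 : i = 0
      · subst h0
        simp
      · rw [if_neg (Ne.symm h0)]
        by_cases h1 : i = 1
        · subst h1
          simp
        · rw [if_neg (Ne.symm h1)]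
          norm_num
    · rw [PiLp.single_apply]
      split_ifs
      · rw [abs_one]
      · rw [abs_zero]
        exact zero_le_one
  have hh : ∀ i, 1 ≤ h i := by
    intro i
    have h1 := hsingle i
    rw [hb] at h1
    have h2 := h1 i
    rwa [PiLp.single_apply, if_pos rfl, abs_one] at h2
  have hone : (WithLp.toLp 2 fun _ => (1 : ℝ) : EuclideanSpace ℝ (Fin (m + 2))) ∈ dcube m := by
    rw [hb]
    intro i
    show |(1 : ℝ)| ≤ h i
    rw [abs_one]
    exact hh i
  have h1 : (1 : ℝ) ^ 2 + 1 ^ 2 ≤ 1 := hone.1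
  norm_num at h1

lemma plane_dir (a b c d : ℝ) : ∃ p q : ℝ, p ^ 2 + q ^ 2 = 1 ∧ p * a + q * b ≤ 0 ∧
    p * c + q * d ≤ 0 := by
  -- perpendicular to a given nonzero vector
  have key : ∀ a b c d : ℝ, a ^ 2 + b ^ 2 ≠ 0 → ∃ p q : ℝ, p ^ 2 + q ^ 2 = 1 ∧
      p * a + q * b = 0 ∧ p * c + q * d ≤ 0 := by
    intro a b c d hne
    have hpos : 0 < a ^ 2 + b ^ 2 := lt_of_le_of_ne (by positivity) (Ne.symm hne)
    set r := Real.sqrt (a ^ 2 + b ^ 2) with hr
    have hr0 : 0 < r := Real.sqrt_pos.2 hpos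
    have hr2 : r ^ 2 = a ^ 2 + b ^ 2 := Real.sq_sqrt hpos.le
    rcases le_total (-b / r * c + a / r * d) 0 with h | h
    · refine ⟨-b / r, a / r, ?_, ?_, h⟩
      · rw [div_pow, div_pow, ← add_div, hr2]
        rw [div_eq_one_iff_eq hne]
        ring
      · field_simp
        ring
    · refine ⟨b / r, -a / r, ?_, ?_, ?_⟩
      · rw [div_pow, div_pow, ← add_div, hr2]
        rw [div_eq_one_iff_eq hne]
        ring
      · field_simp
        ring
      · have : b / r * c + -a / r * d = -(-b / r * c + a / r * d) := by ring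
        rw [this]
        linarith
  by_cases h1 : a ^ 2 + b ^ 2 ≠ 0
  · obtain ⟨p, q, h2, h3, h4⟩ := key a b c d h1
    exact ⟨p, q, h2, h3.le, h4⟩
  · push Not at h1
    have ha : a = 0 := by nlinarith [sq_nonneg a, sq_nonneg b]
    have hb : b = 0 := by nlinarith [sq_nonneg a, sq_nonneg b]
    by_cases h2 : c ^ 2 + d ^ 2 ≠ 0
    · obtain ⟨p, q, h3, h4, -⟩ := key c d 0 0 h2
      exact ⟨p, q, h3, by rw [ha, hb]; simp, h4.le⟩
    · push Not at h2
      have hc : c = 0 := by nlinarith [sq_nonneg c, sq_nonneg d]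
      have hd : d = 0 := by nlinarith [sq_nonneg c, sq_nonneg d]
      exact ⟨1, 0, by norm_num, by rw [ha, hb]; simp, by rw [hc, hd]; simp⟩

/-- the lower bound -/
lemma dcube_lower (T : Finset (EuclideanSpace ℝ (Fin (m + 2))))
    (hT : dcube m ⊆ ⋃ t ∈ T, (fun x => t + x) '' interior (dcube m)) : 3 * 2 ^ m ≤ T.card := by
  classical
  set s : Bool → ℝ := fun b => if b then 1 else -1 with hs
  set Tv : (Fin m → Bool) → Finset (EuclideanSpace ℝ (Fin (m + 2))) := fun v =>
    T.filter fun t => ∀ i : Fin m, |s (v i) - t i.succ.succ| < 1 with hTv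
  have hsabs : ∀ b, |s b| = 1 := by
    intro b
    cases b <;> simp [hs]
  -- points
  set pt : ℝ → ℝ → (Fin m → Bool) → EuclideanSpace ℝ (Fin (m + 2)) := fun p q v =>
    WithLp.toLp 2 (Fin.cons p (Fin.cons q fun i => s (v i))) with hpt
  have hpt0 : ∀ p q v, pt p q v 0 = p := fun _ _ _ => rfl
  have hpt1 : ∀ p q v, pt p q v 1 = q := fun _ _ _ => rfl
  have hpti : ∀ p q v (i : Fin m), pt p q v i.succ.succ = s (v i) := fun _ _ _ _ => rfl
  have hmem : ∀ p q v, p ^ 2 + q ^ 2 = 1 → pt p q v ∈ dcube m := by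
    intro p q v hpq
    refine ⟨by rw [hpt0, hpt1, hpq], fun i => ?_⟩
    refine Fin.cases ?_ (fun i => ?_) i
    · rw [hpt0, ← sq_le_one_iff_abs_le_one]
      nlinarith [sq_nonneg q]
    · refine Fin.cases ?_ (fun i => ?_) i
      · show |pt p q v 1| ≤ 1
        rw [hpt1, ← sq_le_one_iff_abs_le_one]
        nlinarith [sq_nonneg p]
      · rw [hpti, hsabs]
  have hcovpt : ∀ p q v, p ^ 2 + q ^ 2 = 1 → ∃ t ∈ Tv v, 0 < p * t 0 + q * t 1 := by
    intro p q v hpq
    obtain ⟨t, ht, z, hz, htz⟩ := Set.mem_iUnion₂.1 (hT (hmem p q v hpq))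
    have hz' : z = pt p q v - t := by
      rw [← htz]
      exact (add_sub_cancel_left t z).symm
    refine ⟨t, mem_filter.2 ⟨ht, fun i => ?_⟩, ?_⟩
    · have h1 := dcube_int_abs hz i.succ.succ
      rw [hz', PiLp.sub_apply, hpti] at h1
      exact h1
    · have h1 := dcube_int_disc hz
      rw [hz', PiLp.sub_apply, PiLp.sub_apply, hpt0, hpt1] at h1
      nlinarith [sq_nonneg (t 0), sq_nonneg (t 1)]
  have hcard : ∀ v, 3 ≤ (Tv v).card := by
    intro v
    by_contra hcon
    have h1 : (Tv v).card ≤ 2 := by omega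
    -- two vectors which contain all elements
    obtain ⟨t₁, t₂, h12⟩ : ∃ t₁ t₂, Tv v ⊆ {t₁, t₂} := by
      rcases Nat.lt_or_ge (Tv v).card 1 with h2 | h2
      · have : Tv v = ∅ := Finset.card_eq_zero.1 (by omega)
        exact ⟨0, 0, by rw [this]; exact empty_subset _⟩
      · rcases Nat.lt_or_ge (Tv v).card 2 with h3 | h3
        · obtain ⟨t, ht⟩ := Finset.card_eq_one.1 (by omega : (Tv v).card = 1)
          exact ⟨t, t, by rw [ht]; simp⟩
        · obtain ⟨t, t', -, ht⟩ := Finset.card_eq_two.1 (by omega : (Tv v).card = 2)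
          exact ⟨t, t', by rw [ht]⟩
    obtain ⟨p, q, hpq, h3, h4⟩ := plane_dir (t₁ 0) (t₁ 1) (t₂ 0) (t₂ 1)
    obtain ⟨t, ht, h5⟩ := hcovpt p q v hpq
    have h6 := h12 ht
    rw [mem_insert, mem_singleton] at h6
    rcases h6 with h6 | h6
    · rw [h6] at h5
      linarith
    · rw [h6] at h5
      linarith
  have hdisj : ∀ v ∈ (univ : Finset (Fin m → Bool)), ∀ v' ∈ (univ : Finset (Fin m → Bool)),
      v ≠ v' → Disjoint (Tv v) (Tv v') := by
    intro v _ v' _ hne
    rw [disjoint_left]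
    intro t ht ht'
    obtain ⟨i, hi⟩ := Function.ne_iff.1 hne
    have h1 := (mem_filter.1 ht).2 i
    have h2 := (mem_filter.1 ht').2 i
    rw [abs_lt] at h1 h2
    cases hv : v i <;> cases hv' : v' i
    · exact hi (by rw [hv, hv'])
    · rw [hv] at h1
      rw [hv'] at h2
      simp only [hs, Bool.false_eq_true, if_false] at h1
      simp only [hs, if_true] at h2
      linarith [h1.1, h1.2, h2.1, h2.2]
    · rw [hv] at h1
      rw [hv'] at h2
      simp only [hs, Bool.false_eq_true, if_false] at h2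
      simp only [hs, if_true] at h1
      linarith [h1.1, h1.2, h2.1, h2.2]
    · exact hi (by rw [hv, hv'])
  calc 3 * 2 ^ m = ∑ _v : Fin m → Bool, 3 := by
        rw [Finset.sum_const, card_univ, Fintype.card_fun, Fintype.card_bool, Fintype.card_fin,
          smul_eq_mul, mul_comm]
    _ ≤ ∑ v : Fin m → Bool, (Tv v).card := Finset.sum_le_sum fun v _ => hcard v
    _ = (univ.biUnion Tv).card := (Finset.card_biUnion hdisj).symm
    _ ≤ T.card := by
        refine Finset.card_le_card fun t ht => ?_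
        obtain ⟨v, -, hv⟩ := mem_biUnion.1 ht
        exact (mem_filter.1 hv).1

end Pool.Agent.Zk58.SS
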