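import Mathlib

set_option autoImplicit false
set_option linter.unusedSectionVars false

/-!
Labellings of three quarters of the vertices of the cube.
-/

namespace Pool.Agent.Zk58.SS.Gap

open Finset

section basic

variable {ι : Type} [DecidableEq ι]

/-- change one sign -/
def fl (s : ι → Bool) (j : ι) : ι → Bool := Function.update s j (!s j)

lemma fl_same (s : ι → Bool) (j : ι) : fl s j j = !s j := Function.update_self ..

lemma fl_ne (s : ι → Bool) {i j : ι} (h : i ≠ j) : fl s j i = s i := Function.update_of_ne h ..

lemma fl_fl (s : ι → Bool) (j : ι) : fl (fl s j) j = s := by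
  funext i
  by_cases h : i = j
  · subst h
    rw [fl_same, fl_same, Bool.not_not]
  · rw [fl_ne _ h, fl_ne _ h]

lemma fl_comm (s : ι → Bool) (i j : ι) : fl (fl s i) j = fl (fl s j) i := by
  funext k
  by_cases h : k = j
  · subst h
    rw [fl_same]
    by_cases h2 : k = i
    · subst h2
      simp only [fl_same]
    · rw [fl_ne _ h2, fl_ne _ h2, fl_same]
  · rw [fl_ne _ h]
    by_cases h2 : k = i
    · subst h2
      rw [fl_same, fl_same, fl_ne _ h]
    · rw [fl_ne _ h2, fl_ne _ h2, fl_ne _ h]

/-- `f` is a good labelling of the complement of `O` -/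
structure Lab [Fintype ι] (A : Finset ι) (O : Finset (ι → Bool)) (f : (ι → Bool) → ι) : Prop where
  card : 2 ^ Fintype.card ι ≤ 4 * O.card
  ind : ∀ s ∈ O, ∀ j ∈ A, fl s j ∉ O
  light : ∀ e, e ∉ O → ∃ j ∈ A, fl e j ∉ O
  heavy : ∀ e, e ∉ O → f e ∈ A → fl e (f e) ∉ O
  serve : ∀ Q : Finset ι, Q.Nonempty → ∀ s : ι → Bool,
    (∃ e, e ∉ O ∧ (∀ q ∈ Q, e q = s q) ∧ f e ∈ Q) ∨
    (A ⊆ Q ∧ ∀ j ∈ A, ∃ e, e ∉ O ∧ (∀ q ∈ Q, e q = fl s j q) ∧ fl e j ∈ O ∧ f e ∈ Q)

end basic

section option

variable {ι : Type} [DecidableEq ι]

/-- one more sign -/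
def cs (b : Bool) (s : ι → Bool) : Option ι → Bool := fun x => x.elim b s

/-- forget the last sign -/
def tl (t : Option ι → Bool) : ι → Bool := fun i => t (some i)

lemma tl_cs (b : Bool) (s : ι → Bool) : tl (cs b s) = s := rfl

lemma cs_none (b : Bool) (s : ι → Bool) : cs b s none = b := rfl

lemma cs_some (b : Bool) (s : ι → Bool) (i : ι) : cs b s (some i) = s i := rfl

lemma cs_tl (t : Option ι → Bool) : cs (t none) (tl t) = t := by
  funext x
  cases x <;> rfl

lemma tl_fl_some (t : Option ι → Bool) (j : ι) : tl (fl t (some j)) = fl (tl t) j := by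
  funext i
  by_cases h : i = j
  · subst h
    rw [fl_same]
    exact fl_same t (some i)
  · rw [fl_ne _ h]
    exact fl_ne t (fun hh => h (Option.some.inj hh))

lemma tl_fl_none (t : Option ι → Bool) : tl (fl t none) = tl t := by
  funext i
  exact fl_ne t (Option.some_ne_none i)

lemma fl_some_none (t : Option ι → Bool) (j : ι) : fl t (some j) none = t none :=
  fl_ne t (Option.some_ne_none j).symm

/-- join two sets -/
def jn (O₁ O₂ : Finset (ι → Bool)) [Fintype ι] : Finset (Option ι → Bool) :=
  O₁.image (cs true) ∪ O₂.image (cs false)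

lemma mem_jn [Fintype ι] {O₁ O₂ : Finset (ι → Bool)} {t : Option ι → Bool} :
    t ∈ jn O₁ O₂ ↔ (t none = true ∧ tl t ∈ O₁) ∨ (t none = false ∧ tl t ∈ O₂) := by
  unfold jn
  rw [mem_union, mem_image, mem_image]
  constructor
  · rintro (⟨s, hs, rfl⟩ | ⟨s, hs, rfl⟩)
    · exact Or.inl ⟨rfl, hs⟩
    · exact Or.inr ⟨rfl, hs⟩
  · rintro (⟨h1, h2⟩ | ⟨h1, h2⟩)
    · refine Or.inl ⟨tl t, h2, ?_⟩
      rw [← h1, cs_tl]
    · refine Or.inr ⟨tl t, h2, ?_⟩
      rw [← h1, cs_tl]

lemma cs_inj (b : Bool) : Function.Injective (cs b : (ι → Bool) → (Option ι → Bool)) := by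
  intro s s' h
  have := congrArg tl h
  exact this

lemma card_jn [Fintype ι] (O₁ O₂ : Finset (ι → Bool)) : (jn O₁ O₂).card = O₁.card + O₂.card := by
  unfold jn
  rw [card_union_of_disjoint, card_image_of_injective _ (cs_inj true),
    card_image_of_injective _ (cs_inj false)]
  rw [disjoint_left]
  intro t h1 h2
  obtain ⟨s, -, rfl⟩ := mem_image.1 h1
  obtain ⟨s', -, h⟩ := mem_image.1 h2
  have := congrFun h none
  simp [cs_none] at this

/-- the part of `Q` without `none` -/
def Qs (Q : Finset (Option ι)) : Finset ι := Q.eraseNone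

lemma mem_Qs {Q : Finset (Option ι)} {i : ι} : i ∈ Qs Q ↔ some i ∈ Q := by
  unfold Qs
  rw [mem_eraseNone]

/-- a new coordinate outside of `A` -/
lemma step_out [Fintype ι] {A : Finset ι} {O : Finset (ι → Bool)} {f : (ι → Bool) → ι}
    (h : Lab A O f) (hO : ∃ e, e ∉ O) :
    ∃ (O' : Finset (Option ι → Bool)) (f' : (Option ι → Bool) → Option ι),
      Lab (A.map Function.Embedding.some) O' f' := by
  obtain ⟨e₁, he₁⟩ := hO
  obtain ⟨j₀, hj₀, he₂⟩ := h.light e₁ he₁
  set e₂ := fl e₁ j₀ with he₂def
  have h12 : e₁ ≠ e₂ := by
    intro hh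
    have h1 := congrFun hh j₀
    rw [he₂def, fl_same] at h1
    cases h3 : e₁ j₀ <;> simp [h3] at h1
  set f' : (Option ι → Bool) → Option ι := fun t =>
    if (t none = true ∧ tl t = e₁) ∨ (t none = false ∧ tl t = e₂) then none
    else some (f (tl t)) with hf'
  have hmem : ∀ t : Option ι → Bool, t ∈ jn O O ↔ tl t ∈ O := by
    intro t
    rw [mem_jn]
    cases t none <;> simp
  -- choose the last sign
  have hchoose : ∀ e : ι → Bool, ∃ b : Bool, f' (cs b e) = some (f e) := by
    intro e
    by_cases h1 : e = e₁
    · refine ⟨false, ?_⟩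
      simp only [hf', cs_none, tl_cs]
      rw [if_neg]
      rintro (⟨h2, -⟩ | ⟨-, h2⟩)
      · exact absurd h2 (by decide)
      · exact h12 (h1.symm.trans h2)
    · refine ⟨true, ?_⟩
      simp only [hf', cs_none, tl_cs]
      rw [if_neg]
      rintro (⟨-, h2⟩ | ⟨h2, -⟩)
      · exact h1 h2
      · exact absurd h2 (by decide)
  have hor : ∀ t : Option ι → Bool, f' t = none ∨ f' t = some (f (tl t)) := by
    intro t
    simp only [hf']
    split_ifs
    · exact Or.inl rfl
    · exact Or.inr rfl
  refine ⟨jn O O, f', ?_, ?_, ?_, ?_, ?_⟩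
  · rw [card_jn, Fintype.card_option, pow_succ]
    have := h.card
    omega
  · intro s hs j hj
    obtain ⟨i, hi, rfl⟩ := mem_map.1 hj
    rw [hmem] at hs ⊢
    show tl (fl s (some i)) ∉ O
    rw [tl_fl_some]
    exact h.ind _ hs i hi
  · intro e he
    rw [hmem] at he
    obtain ⟨j, hj, hj2⟩ := h.light _ he
    refine ⟨some j, mem_map.2 ⟨j, hj, rfl⟩, ?_⟩
    rw [hmem, tl_fl_some]
    exact hj2
  · intro e he hfe
    rw [hmem] at he
    rcases hor e with h1 | h1
    · rw [h1] at hfe
      obtain ⟨i, -, hi⟩ := mem_map.1 hfe
      exact absurd hi (Option.some_ne_none i)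
    · rw [h1] at hfe ⊢
      obtain ⟨i, hi, hi2⟩ := mem_map.1 hfe
      have hi3 : i = f (tl e) := Option.some.inj hi2
      rw [hmem, tl_fl_some]
      exact h.heavy _ he (hi3 ▸ hi)
  · intro Q hQ s
    by_cases hQs : (Qs Q).Nonempty
    · rcases h.serve (Qs Q) hQs (tl s) with ⟨e, he1, he2, he3⟩ | ⟨hAQ, hall⟩
      · left
        by_cases hn : none ∈ Q
        · refine ⟨cs (s none) e, by rw [hmem]; exact he1, ?_, ?_⟩
          · intro q hq
            cases q with
            | none => rfl
            | some i => exact he2 i (mem_Qs.2 hq)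
          · rcases hor (cs (s none) e) with h1 | h1
            · rw [h1]
              exact hn
            · rw [h1]
              exact mem_Qs.1 he3
        · obtain ⟨b, hb⟩ := hchoose e
          refine ⟨cs b e, by rw [hmem]; exact he1, ?_, ?_⟩
          · intro q hq
            cases q with
            | none => exact absurd hq hn
            | some i => exact he2 i (mem_Qs.2 hq)
          · rw [hb]
            exact mem_Qs.1 he3
      · right
        refine ⟨fun x hx => ?_, fun j hj => ?_⟩
        · obtain ⟨i, hi, rfl⟩ := mem_map.1 hx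
          exact mem_Qs.1 (hAQ hi)
        · obtain ⟨i, hi, rfl⟩ := mem_map.1 hj
          obtain ⟨e, he1, he2, he3, he4⟩ := hall i hi
          by_cases hn : none ∈ Q
          · refine ⟨cs (s none) e, by rw [hmem]; exact he1, ?_, ?_, ?_⟩
            · intro q hq
              cases q with
              | none => exact (fl_some_none s i).symm
              | some k =>
                have h5 : fl s (some i) (some k) = tl (fl s (some i)) k := rfl
                show e k = fl s (some i) (some k)
                rw [h5, tl_fl_some]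
                exact he2 k (mem_Qs.2 hq)
            · rw [hmem]
              show tl (fl (cs (s none) e) (some i)) ∈ O
              rw [tl_fl_some]
              exact he3
            · rcases hor (cs (s none) e) with h1 | h1
              · rw [h1]
                exact hn
              · rw [h1]
                exact mem_Qs.1 he4
          · obtain ⟨b, hb⟩ := hchoose e
            refine ⟨cs b e, by rw [hmem]; exact he1, ?_, ?_, ?_⟩
            · intro q hq
              cases q with
              | none => exact absurd hq hn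
              | some k =>
                have h5 : fl s (some i) (some k) = tl (fl s (some i)) k := rfl
                show e k = fl s (some i) (some k)
                rw [h5, tl_fl_some]
                exact he2 k (mem_Qs.2 hq)
            · rw [hmem]
              show tl (fl (cs b e) (some i)) ∈ O
              rw [tl_fl_some]
              exact he3
            · rw [hb]
              exact mem_Qs.1 he4
    · -- only the new coordinate
      left
      have hn : none ∈ Q := by
        obtain ⟨q, hq⟩ := hQ
        cases q with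
        | none => exact hq
        | some i => exact absurd ⟨i, mem_Qs.2 hq⟩ hQs
      have hagree : ∀ (b : Bool) (e : ι → Bool), b = s none → ∀ q ∈ Q, cs b e q = s q := by
        intro b e hb q hq
        cases q with
        | none => exact hb
        | some i => exact absurd ⟨i, mem_Qs.2 hq⟩ hQs
      cases hs : s none
      · refine ⟨cs false e₂, by rw [hmem]; exact he₂, hagree _ _ hs.symm, ?_⟩
        have : f' (cs false e₂) = none := by
          simp only [hf', cs_none, tl_cs]
          rw [if_pos (by simp)]
        rw [this]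
        exact hn
      · refine ⟨cs true e₁, by rw [hmem]; exact he₁, hagree _ _ hs.symm, ?_⟩
        have : f' (cs true e₁) = none := by
          simp only [hf', cs_none, tl_cs]
          rw [if_pos (by simp)]
        rw [this]
        exact hn

/-- change all signs -/
def ng (s : ι → Bool) : ι → Bool := fun i => !s i

lemma fl_ng (s : ι → Bool) (j : ι) : fl (ng s) j = ng (fl s j) := by
  funext i
  by_cases h : i = j
  · subst h
    rw [fl_same]
    show (!!s i) = !(fl s i i)
    rw [fl_same]
  · rw [fl_ne _ h]
    show (!s i) = !(fl s j i)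
    rw [fl_ne _ h]

/-- the additional conditions for `A = univ` -/
structure Lab' [Fintype ι] (O : Finset (ι → Bool)) (f : (ι → Bool) → ι) (o : ι) : Prop where
  lab : Lab univ O f
  anti : ∀ s, (s ∈ O ∨ fl s o ∈ O) → (ng s ∈ O ∨ fl (ng s) o ∈ O)
  ex : ∃ e, e ∉ O ∧ fl e o ∉ O

/-- a new coordinate in `A` -/
lemma step_in [Fintype ι] {O : Finset (ι → Bool)} {f : (ι → Bool) → ι} {o : ι}
    (h : Lab' O f o) :
    ∃ (O' : Finset (Option ι → Bool)) (f' : (Option ι → Bool) → Option ι) (o' : Option ι),
      Lab' O' f' o' := by
  obtain ⟨e₁, he₁, he₁'⟩ := h.ex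
  have he₂ : ng e₁ ∉ O ∧ fl (ng e₁) o ∉ O := by
    by_contra hcon
    have h1 : ng e₁ ∈ O ∨ fl (ng e₁) o ∈ O := by tauto
    have h2 := h.anti _ h1
    have h3 : ng (ng e₁) = e₁ := by
      funext i
      show (!!e₁ i) = e₁ i
      rw [Bool.not_not]
    rw [h3] at h2
    tauto
  set f' : (Option ι → Bool) → Option ι := fun t =>
    if t none = true then (if tl t = e₁ then none else some (f (tl t)))
    else (if tl t = ng e₁ then none else some (f (fl (tl t) o))) with hf'
  set O₂ : Finset (ι → Bool) := O.image fun s => fl s o with hO₂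
  have hO₂mem : ∀ s, s ∈ O₂ ↔ fl s o ∈ O := by
    intro s
    rw [hO₂, mem_image]
    constructor
    · rintro ⟨s', hs', rfl⟩
      rwa [fl_fl]
    · intro hs
      exact ⟨_, hs, fl_fl s o⟩
  have hmemT : ∀ t : Option ι → Bool, t none = true → (t ∈ jn O O₂ ↔ tl t ∈ O) := by
    intro t ht
    rw [mem_jn, ht]
    simp
  have hmemF : ∀ t : Option ι → Bool, t none = false → (t ∈ jn O O₂ ↔ fl (tl t) o ∈ O) := by
    intro t ht
    rw [mem_jn, ht, hO₂mem]
    simp
  have hfT : ∀ t : Option ι → Bool, t none = true → tl t = e₁ → f' t = none := by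
    intro t ht h1
    simp only [hf']
    rw [if_pos ht, if_pos h1]
  have hfT' : ∀ t : Option ι → Bool, t none = true → tl t ≠ e₁ → f' t = some (f (tl t)) := by
    intro t ht h1
    simp only [hf']
    rw [if_pos ht, if_neg h1]
  have hfF : ∀ t : Option ι → Bool, t none = false → tl t = ng e₁ → f' t = none := by
    intro t ht h1
    simp only [hf']
    rw [if_neg (by rw [ht]; decide), if_pos h1]
  have hfF' : ∀ t : Option ι → Bool, t none = false → tl t ≠ ng e₁ →
      f' t = some (f (fl (tl t) o)) := by
    intro t ht h1
    simp only [hf']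
    rw [if_neg (by rw [ht]; decide), if_neg h1]
  -- independence
  have hind : ∀ s ∈ jn O O₂, ∀ j, fl s j ∉ jn O O₂ := by
    intro s hs j
    cases hn : s none
    · rw [hmemF s hn] at hs
      cases j with
      | none =>
        rw [hmemT _ (by rw [fl_same, hn]; rfl), tl_fl_none]
        have := h.lab.ind _ hs o (mem_univ _)
        rwa [fl_fl] at this
      | some i =>
        rw [hmemF _ (by rw [fl_some_none, hn]), tl_fl_some, fl_comm]
        exact h.lab.ind _ hs i (mem_univ _)
    · rw [hmemT s hn] at hs
      cases j with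
      | none =>
        rw [hmemF _ (by rw [fl_same, hn]; rfl), tl_fl_none]
        exact h.lab.ind _ hs o (mem_univ _)
      | some i =>
        rw [hmemT _ (by rw [fl_some_none, hn]), tl_fl_some]
        exact h.lab.ind _ hs i (mem_univ _)
  have hheavy : ∀ t, t ∉ jn O O₂ → fl t (f' t) ∉ jn O O₂ := by
    intro t ht
    cases hn : t none
    · rw [hmemF t hn] at ht
      by_cases h1 : tl t = ng e₁
      · rw [hfF t hn h1, hmemT _ (by rw [fl_same, hn]; rfl), tl_fl_none, h1]
        exact he₂.1
      · rw [hfF' t hn h1, hmemF _ (by rw [fl_some_none, hn]), tl_fl_some, fl_comm]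
        exact h.lab.heavy _ ht (mem_univ _)
    · rw [hmemT t hn] at ht
      by_cases h1 : tl t = e₁
      · rw [hfT t hn h1, hmemF _ (by rw [fl_same, hn]; rfl), tl_fl_none, h1]
        exact he₁'
      · rw [hfT' t hn h1, hmemT _ (by rw [fl_some_none, hn]), tl_fl_some]
        exact h.lab.heavy _ ht (mem_univ _)
  refine ⟨jn O O₂, f', some o, ⟨⟨?_, fun s hs j _ => hind s hs j, ?_, fun e he _ => hheavy e he,
    ?_⟩, ?_, ?_⟩⟩
  · rw [card_jn, Fintype.card_option, pow_succ, hO₂, card_image_of_injective]
    · have := h.lab.card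
      omega
    · intro s s' hss
      have := congrArg (fun x => fl x o) hss
      simpa only [fl_fl] using this
  · intro e he
    exact ⟨f' e, mem_univ _, hheavy e he⟩
  · intro Q hQ s
    have hQs_proper : ∀ s' : ι → Bool, (Qs Q).Nonempty → Qs Q ≠ univ →
        ∃ e, e ∉ O ∧ (∀ q ∈ Qs Q, e q = s' q) ∧ f e ∈ Qs Q := by
      intro s' h1 h2
      rcases h.lab.serve (Qs Q) h1 s' with h3 | ⟨h3, -⟩
      · exact h3
      · exact absurd (univ_subset_iff.1 h3) h2
    by_cases hfull : Q = univ
    · by_cases hs : s ∈ jn O O₂
      · right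
        refine ⟨by rw [hfull], fun j _ => ⟨fl s j, hind s hs j, fun _ _ => rfl, ?_, ?_⟩⟩
        · rwa [fl_fl]
        · rw [hfull]
          exact mem_univ _
      · left
        refine ⟨s, hs, fun _ _ => rfl, ?_⟩
        rw [hfull]
        exact mem_univ _
    left
    have hsomeQ : ∀ (t : Option ι → Bool), (∀ i ∈ Qs Q, tl t i = s (some i)) →
        (none ∈ Q → t none = s none) → ∀ q ∈ Q, t q = s q := by
      intro t h1 h2 q hq
      cases q with
      | none => exact h2 hq
      | some i => exact h1 i (mem_Qs.2 hq)
    have hneg : e₁ ≠ ng e₁ := by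
      intro hh
      have := congrFun hh o
      change e₁ o = !e₁ o at this
      cases h5 : e₁ o <;> simp [h5] at this
    by_cases hne : (Qs Q).Nonempty
    · by_cases hun : Qs Q = univ
      · -- all old coordinates, not the new one
        have hn : none ∉ Q := by
          intro hn
          apply hfull
          rw [eq_univ_iff_forall]
          intro x
          cases x with
          | none => exact hn
          | some i =>
            rw [← mem_Qs, hun]
            exact mem_univ _
        by_cases hcase : tl s ∉ O ∧ tl s ≠ e₁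
        · refine ⟨cs true (tl s), ?_, hsomeQ _ (fun i _ => rfl) (fun h => absurd h hn), ?_⟩
          · rw [hmemT _ rfl]
            exact hcase.1
          · rw [hfT' (cs true (tl s)) rfl hcase.2, ← mem_Qs, hun]
            exact mem_univ _
        · have hcase2 : fl (tl s) o ∉ O ∧ tl s ≠ ng e₁ := by
            by_cases h1 : tl s ∈ O
            · refine ⟨h.lab.ind _ h1 o (mem_univ _), ?_⟩
              intro h2
              rw [h2] at h1
              exact he₂.1 h1
            · have h2 : tl s = e₁ := by tauto
              rw [h2]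
              exact ⟨he₁', hneg⟩
          refine ⟨cs false (tl s), ?_, hsomeQ _ (fun i _ => rfl) (fun h => absurd h hn), ?_⟩
          · rw [hmemF _ rfl]
            exact hcase2.1
          · rw [hfF' (cs false (tl s)) rfl hcase2.2, ← mem_Qs, hun]
            exact mem_univ _
      · obtain ⟨e, he1, he2, he3⟩ := hQs_proper (tl s) hne hun
        obtain ⟨e', he1', he2', he3'⟩ := hQs_proper (fl (tl s) o) hne hun
        have hT : (cs true e ∉ jn O O₂) ∧ (∀ i ∈ Qs Q, tl (cs true e) i = s (some i)) :=
          ⟨by rw [hmemT _ rfl]; exact he1, he2⟩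
        have hF : (cs false (fl e' o) ∉ jn O O₂) ∧
            (∀ i ∈ Qs Q, tl (cs false (fl e' o)) i = s (some i)) := by
          refine ⟨?_, ?_⟩
          · rw [hmemF _ rfl]
            show fl (fl e' o) o ∉ O
            rw [fl_fl]
            exact he1'
          · intro i hi
            show fl e' o i = tl s i
            by_cases hio : i = o
            · subst hio
              rw [fl_same, he2' i hi, fl_same, Bool.not_not]
            · rw [fl_ne _ hio, he2' i hi, fl_ne _ hio]
        by_cases hn : none ∈ Q
        · cases hs : s none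
          · refine ⟨cs false (fl e' o), hF.1, hsomeQ _ hF.2 (fun _ => hs.symm), ?_⟩
            by_cases h1 : fl e' o = ng e₁
            · rw [hfF (cs false (fl e' o)) rfl h1]
              exact hn
            · rw [hfF' (cs false (fl e' o)) rfl h1, ← mem_Qs]
              show f (fl (fl e' o) o) ∈ Qs Q
              rw [fl_fl]
              exact he3'
          · refine ⟨cs true e, hT.1, hsomeQ _ hT.2 (fun _ => hs.symm), ?_⟩
            by_cases h1 : e = e₁
            · rw [hfT (cs true e) rfl h1]
              exact hn
            · rw [hfT' (cs true e) rfl h1, ← mem_Qs]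
              exact he3
        · by_cases h1 : e = e₁
          · have h2 : fl e' o ≠ ng e₁ := by
              intro h2
              obtain ⟨i, hi⟩ := hne
              have h3 := hF.2 i hi
              have h4 := hT.2 i hi
              change fl e' o i = s (some i) at h3
              change e i = s (some i) at h4
              rw [h2] at h3
              rw [h1, ← h3] at h4
              change e₁ i = !e₁ i at h4
              cases h5 : e₁ i <;> simp [h5] at h4
            refine ⟨cs false (fl e' o), hF.1, hsomeQ _ hF.2 (fun h => absurd h hn), ?_⟩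
            rw [hfF' (cs false (fl e' o)) rfl h2, ← mem_Qs]
            show f (fl (fl e' o) o) ∈ Qs Q
            rw [fl_fl]
            exact he3'
          · refine ⟨cs true e, hT.1, hsomeQ _ hT.2 (fun h => absurd h hn), ?_⟩
            rw [hfT' (cs true e) rfl h1, ← mem_Qs]
            exact he3
    · -- only the new coordinate
      have hn : none ∈ Q := by
        obtain ⟨q, hq⟩ := hQ
        cases q with
        | none => exact hq
        | some i => exact absurd ⟨i, mem_Qs.2 hq⟩ hne
      have hemp : ∀ i ∈ Qs Q, False := fun i hi => hne ⟨i, hi⟩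
      cases hs : s none
      · refine ⟨cs false (ng e₁), ?_, hsomeQ _ (fun i hi => (hemp i hi).elim)
          (fun _ => hs.symm), ?_⟩
        · rw [hmemF _ rfl]
          exact he₂.2
        · rw [hfF (cs false (ng e₁)) rfl rfl]
          exact hn
      · refine ⟨cs true e₁, ?_, hsomeQ _ (fun i hi => (hemp i hi).elim) (fun _ => hs.symm), ?_⟩
        · rw [hmemT _ rfl]
          exact he₁
        · rw [hfT (cs true e₁) rfl rfl]
          exact hn
  · -- symmetry
    have hU : ∀ t : Option ι → Bool, (t ∈ jn O O₂ ∨ fl t (some o) ∈ jn O O₂) ↔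
        (tl t ∈ O ∨ fl (tl t) o ∈ O) := by
      intro t
      cases hn : t none
      · rw [hmemF t hn, hmemF _ (by rw [fl_some_none, hn]), tl_fl_some, fl_fl]
        exact or_comm
      · rw [hmemT t hn, hmemT _ (by rw [fl_some_none, hn]), tl_fl_some]
    intro t ht
    rw [hU] at ht ⊢
    exact h.anti _ ht
  · refine ⟨cs true e₁, ?_, ?_⟩
    · rw [hmemT _ rfl]
      exact he₁
    · rw [hmemT _ (fl_some_none _ _), tl_fl_some]
      exact he₁'

end option

end Pool.Agent.Zk58.SS.Gap
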