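import Mathlib
import Pool.Agent.Zk58.SS.GapComb

set_option autoImplicit false
set_option linter.unusedSectionVars false

/-!
Existence of the labellings.
-/

namespace Pool.Agent.Zk58.SS.Gap

open Finset

section transport

variable {κ ι : Type} [DecidableEq κ] [DecidableEq ι] [Fintype κ] [Fintype ι]

lemma fl_comp (e : κ ≃ ι) (s : ι → Bool) (j : κ) : fl s (e j) ∘ e = fl (s ∘ e) j := by
  funext i
  by_cases h : i = j
  · subst h
    rw [fl_same]
    exact fl_same s (e i)
  · rw [fl_ne _ h]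
    exact fl_ne s (fun hh => h (e.injective hh))

lemma lab_equiv (e : κ ≃ ι) {B : Finset κ} {O : Finset (κ → Bool)} {f : (κ → Bool) → κ}
    (h : Lab B O f) :
    ∃ (O' : Finset (ι → Bool)) (f' : (ι → Bool) → ι), Lab (B.map e.toEmbedding) O' f' := by
  set O' : Finset (ι → Bool) := univ.filter fun s => s ∘ e ∈ O with hO'
  have hmem : ∀ s : ι → Bool, s ∈ O' ↔ s ∘ e ∈ O := fun s => by simp [hO']
  have hback : ∀ s : κ → Bool, (s ∘ e.symm) ∘ e = s := by
    intro s
    funext i
    simp
  refine ⟨O', fun s => e (f (s ∘ e)), ?_, ?_, ?_, ?_, ?_⟩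
  · have h1 : O'.card = O.card := by
      refine Finset.card_bij (fun s _ => s ∘ e) (fun s hs => (hmem s).1 hs) ?_ ?_
      · intro s _ s' _ hss
        funext i
        have := congrFun hss (e.symm i)
        simpa using this
      · intro s hs
        exact ⟨s ∘ e.symm, (hmem _).2 (by rw [hback]; exact hs), hback s⟩
    rw [h1, ← Fintype.card_congr e]
    exact h.card
  · intro s hs j hj
    obtain ⟨i, hi, rfl⟩ := mem_map.1 hj
    rw [hmem] at hs ⊢
    show fl s (e i) ∘ e ∉ O
    rw [fl_comp]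
    exact h.ind _ hs i hi
  · intro s hs
    rw [hmem] at hs
    obtain ⟨j, hj, hj2⟩ := h.light _ hs
    refine ⟨e j, mem_map.2 ⟨j, hj, rfl⟩, ?_⟩
    rw [hmem, fl_comp]
    exact hj2
  · intro s hs hfs
    rw [hmem] at hs
    obtain ⟨i, hi, hi2⟩ := mem_map.1 hfs
    have hi3 : i = f (s ∘ e) := e.injective hi2
    rw [hmem, fl_comp]
    exact h.heavy _ hs (hi3 ▸ hi)
  · intro Q hQ s
    set Q' : Finset κ := Q.map e.symm.toEmbedding with hQ'
    have hQmem : ∀ i, i ∈ Q' ↔ e i ∈ Q := by
      intro i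
      rw [hQ', mem_map]
      constructor
      · rintro ⟨j, hj, rfl⟩
        show e (e.symm j) ∈ Q
        rwa [e.apply_symm_apply]
      · intro hi
        exact ⟨e i, hi, e.symm_apply_apply i⟩
    have hQ'ne : Q'.Nonempty := by
      obtain ⟨q, hq⟩ := hQ
      exact ⟨e.symm q, (hQmem _).2 (by rwa [e.apply_symm_apply])⟩
    rcases h.serve Q' hQ'ne (s ∘ e) with ⟨t, ht1, ht2, ht3⟩ | ⟨hBQ, hall⟩
    · left
      refine ⟨t ∘ e.symm, ?_, ?_, ?_⟩
      · rw [hmem, hback]
        exact ht1
      · intro q hq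
        have := ht2 (e.symm q) ((hQmem _).2 (by rwa [e.apply_symm_apply]))
        simpa using this
      · rw [hback]
        exact (hQmem _).1 ht3
    · right
      refine ⟨fun x hx => ?_, fun j hj => ?_⟩
      · obtain ⟨i, hi, rfl⟩ := mem_map.1 hx
        exact (hQmem _).1 (hBQ hi)
      · obtain ⟨i, hi, rfl⟩ := mem_map.1 hj
        obtain ⟨t, ht1, ht2, ht3, ht4⟩ := hall i hi
        refine ⟨t ∘ e.symm, ?_, ?_, ?_, ?_⟩
        · rw [hmem, hback]
          exact ht1
        · intro q hq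
          have h5 := ht2 (e.symm q) ((hQmem _).2 (by rwa [e.apply_symm_apply]))
          rw [← fl_comp] at h5
          simpa using h5
        · rw [hmem]
          show fl (t ∘ e.symm) (e i) ∘ e ∈ O
          rw [fl_comp, hback]
          exact ht3
        · rw [hback]
          exact (hQmem _).1 ht4

end transport

/-- the labelling of the six vertices -/
def f3 (e : Fin 3 → Bool) : Fin 3 := if e 0 = e 1 then 0 else if e 0 = e 2 then 2 else 1

/-- the two omitted vertices -/
def O3 : Finset (Fin 3 → Bool) := {fun _ => true, fun _ => false}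

/-- the second labelling -/
def g3 (e : Fin 3 → Bool) : Fin 3 :=
  if e 0 = true then (if e 1 = true then (if e 2 = true then 1 else 0)
    else (if e 2 = true then 2 else 1)) else (if e 2 = true then 0 else 2)

/-- the two omitted vertices in the second case -/
def P3 : Finset (Fin 3 → Bool) := univ.filter fun e => e 0 = false ∧ e 1 = false

/-- the first alternative -/
def srv₁ (O : Finset (Fin 3 → Bool)) (f : (Fin 3 → Bool) → Fin 3) (Q : Finset (Fin 3))
    (s : Fin 3 → Bool) : Prop := ∃ e, e ∉ O ∧ (∀ q ∈ Q, e q = s q) ∧ f e ∈ Q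

/-- the second alternative -/
def srv₂ (A : Finset (Fin 3)) (O : Finset (Fin 3 → Bool)) (f : (Fin 3 → Bool) → Fin 3)
    (Q : Finset (Fin 3)) (s : Fin 3 → Bool) : Prop :=
  A ⊆ Q ∧ ∀ j ∈ A, ∃ e, e ∉ O ∧ (∀ q ∈ Q, e q = fl s j q) ∧ fl e j ∈ O ∧ f e ∈ Q

instance (O : Finset (Fin 3 → Bool)) (f : (Fin 3 → Bool) → Fin 3) (Q : Finset (Fin 3))
    (s : Fin 3 → Bool) : Decidable (srv₁ O f Q s) := by
  unfold srv₁
  infer_instance

instance (A : Finset (Fin 3)) (O : Finset (Fin 3 → Bool)) (f : (Fin 3 → Bool) → Fin 3)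
    (Q : Finset (Fin 3)) (s : Fin 3 → Bool) : Decidable (srv₂ A O f Q s) := by
  unfold srv₂
  infer_instance

lemma srv_O3 : ∀ Q : Finset (Fin 3), Q.Nonempty → ∀ s : Fin 3 → Bool,
    srv₁ O3 f3 Q s ∨ srv₂ univ O3 f3 Q s := by decide +kernel

lemma srv_P3 : ∀ Q : Finset (Fin 3), Q.Nonempty → ∀ s : Fin 3 → Bool,
    srv₁ P3 g3 Q s ∨ srv₂ {0, 1} P3 g3 Q s := by decide +kernel

lemma lab_O3 : Lab (univ : Finset (Fin 3)) O3 f3 where
  card := by decide +kernel
  ind := by decide +kernel
  light := by decide +kernel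
  heavy := by decide +kernel
  serve := srv_O3

lemma lab'_O3 : Lab' O3 f3 0 where
  lab := lab_O3
  anti := by decide +kernel
  ex := by decide +kernel

lemma lab_P3 : Lab ({0, 1} : Finset (Fin 3)) P3 g3 where
  card := by decide +kernel
  ind := by decide +kernel
  light := by decide +kernel
  heavy := by decide +kernel
  serve := srv_P3

lemma family_in (k : ℕ) : ∃ (κ : Type) (_ : Fintype κ) (_ : DecidableEq κ)
    (O : Finset (κ → Bool)) (f : (κ → Bool) → κ) (o : κ), Fintype.card κ = k + 3 ∧ Lab' O f o := by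
  induction k with
  | zero => exact ⟨Fin 3, inferInstance, inferInstance, O3, f3, 0, by simp, lab'_O3⟩
  | succ k ih =>
    obtain ⟨κ, i1, i2, O, f, o, hcard, h⟩ := ih
    obtain ⟨O', f', o', h'⟩ := step_in h
    refine ⟨Option κ, inferInstance, inferInstance, O', f', o', ?_, h'⟩
    rw [Fintype.card_option, hcard]

lemma exists_not_mem {ι : Type} [Fintype ι] [DecidableEq ι] {A : Finset ι} {O : Finset (ι → Bool)}
    {f : (ι → Bool) → ι} (h : Lab A O f) (hA : A.Nonempty) : ∃ e, e ∉ O := by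
  obtain ⟨j, hj⟩ := hA
  by_cases h1 : (fun _ => true : ι → Bool) ∈ O
  · exact ⟨_, h.ind _ h1 j hj⟩
  · exact ⟨_, h1⟩

lemma family (m k : ℕ) (hm : 2 ≤ m) (hmk : 3 ≤ m + k) :
    ∃ (κ : Type) (_ : Fintype κ) (_ : DecidableEq κ) (B : Finset κ)
    (O : Finset (κ → Bool)) (f : (κ → Bool) → κ), Fintype.card κ = m + k ∧ B.card = m ∧
      Lab B O f := by
  induction k with
  | zero =>
    obtain ⟨l, rfl⟩ : ∃ l, m = l + 3 := ⟨m - 3, by omega⟩
    obtain ⟨κ, i1, i2, O, f, o, hcard, h⟩ := family_in l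
    exact ⟨κ, i1, i2, univ, O, f, hcard, by rw [card_univ, hcard], h.lab⟩
  | succ k ih =>
    by_cases hmk' : 3 ≤ m + k
    · obtain ⟨κ, i1, i2, B, O, f, hcard, hB, h⟩ := ih hmk'
      have hBne : B.Nonempty := by
        rw [← card_pos, hB]
        omega
      obtain ⟨O', f', h'⟩ := step_out h (exists_not_mem h hBne)
      refine ⟨Option κ, inferInstance, inferInstance, B.map Function.Embedding.some, O', f', ?_,
        ?_, h'⟩
      · rw [Fintype.card_option, hcard]
        omega
      · rw [card_map, hB]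
    · have hm2 : m = 2 := by omega
      have hk0 : k = 0 := by omega
      subst hm2 hk0
      exact ⟨Fin 3, inferInstance, inferInstance, {0, 1}, P3, g3, by simp, by decide, lab_P3⟩

/-- **Existence of a good labelling.** -/
theorem exists_lab {ι : Type} [Fintype ι] [DecidableEq ι] (hι : 3 ≤ Fintype.card ι)
    (A : Finset ι) (hA : 2 ≤ A.card) :
    ∃ (O : Finset (ι → Bool)) (f : (ι → Bool) → ι), Lab A O f := by
  have hle : A.card ≤ Fintype.card ι := card_le_univ A
  obtain ⟨κ, i1, i2, B, O, f, hcard, hB, h⟩ := family A.card (Fintype.card ι - A.card) hA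
    (by omega)
  have hcard' : Fintype.card κ = Fintype.card ι := by omega
  -- an equivalence which maps `B` to `A`
  have e1 : {x // x ∈ B} ≃ {x // x ∈ A} := Fintype.equivOfCardEq (by simp [hB])
  have e2 : {x // ¬ x ∈ B} ≃ {x // ¬ x ∈ A} := Fintype.equivOfCardEq (by
    rw [Fintype.card_subtype_compl, Fintype.card_subtype_compl]
    simp [hB, hcard'])
  set e : κ ≃ ι := (Equiv.sumCompl (fun x => x ∈ B)).symm.trans
    ((Equiv.sumCongr e1 e2).trans (Equiv.sumCompl (fun x => x ∈ A))) with he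
  have heB : B.map e.toEmbedding = A := by
    apply Finset.eq_of_subset_of_card_le
    · intro x hx
      obtain ⟨y, hy, rfl⟩ := mem_map.1 hx
      show e y ∈ A
      have : e y = (e1 ⟨y, hy⟩ : ι) := by
        rw [he]
        simp [Equiv.sumCompl_symm_apply_of_pos hy]
      rw [this]
      exact (e1 ⟨y, hy⟩).2
    · rw [card_map, hB]
  obtain ⟨O', f', h'⟩ := lab_equiv e h
  rw [heB] at h'
  exact ⟨O', f', h'⟩

end Pool.Agent.Zk58.SS.Gap
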