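import Mathlib
import Pool.Agent.Zk58.SS.Strict

set_option autoImplicit false

/-!
Limits of normals when one weight of every direction is very large.
-/

namespace Pool.Agent.Zk58.SS

open Finset Filter Topology
open scoped Classical

variable {ι : Type} [Fintype ι] [LinearOrder ι]

/-- **The limit of the normals.** -/
theorem heavy_limit {E : ι → Type} [∀ j, NormedAddCommGroup (E j)]
    [∀ j, NormedSpace ℝ (E j)] [∀ j, FiniteDimensional ℝ (E j)]
    (C : ∀ j, Set (E j)) (hCc : ∀ j, Convex ℝ (C j)) (hC0 : ∀ j, (0 : E j) ∈ interior (C j))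
    (N : ι → ℕ) (M : Set (ι → ℝ)) (hMc : Convex ℝ M) (hMcl : IsClosed M)
    (hM0 : (0 : ι → ℝ) ∈ interior M) (hsol : Pool.Agent.R753.Sol M)
    (K : Set (∀ j, E j)) (hK : K = {x | (fun j => gauge (C j) (x j)) ∈ M})
    (hKb : Bornology.IsBounded K)
    (u : ∀ j, Fin (N j) → E j) (κ₀ D₀ : ℝ) (hκ₀0 : 0 < κ₀)
    (hu1 : ∀ j c x s, 0 ≤ s → gauge (C j) (x - s • u j c) ≤ gauge (C j) x + D₀ * s)
    (c₀ : ∀ j, E j → Fin (N j)) (hu2 : ∀ j x s, 0 ≤ s → s ≤ gauge (C j) x →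
      gauge (C j) (x - s • u j (c₀ j x)) ≤ gauge (C j) x - κ₀ * s)
    {J : Type} [Fintype J] (c : J → ∀ j, Fin (N j)) (β : J → ι → ℝ) (hβ : ∀ e j, 0 < β e j)
    (F : J → ι)
    (hfail : ¬ ∃ T : Finset (∀ j, E j), T.card ≤ Fintype.card J ∧
      K ⊆ ⋃ t ∈ T, (fun x => t + x) '' interior K) :
    ∃ (X : ι → ℝ) (cs : ∀ j, Fin (N j)), X ∈ M ∧ (∀ j, 0 ≤ X j) ∧ ∀ e, ∃ w, Nor M X w ∧
      ∑ j, |w j| = 1 ∧ (∀ j, X j ≠ 0 → 0 ≤ w j) ∧
      (X (F e) ≠ 0 → c e (F e) = cs (F e) → w (F e) = 0 ∧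
        0 ≤ ∑ j, w j * (if X j ≠ 0 ∧ c e j = cs j then -(κ₀ * β e j) else D₀ * β e j)) := by
  obtain ⟨hconv, hcomp, hint0, hint⟩ := Pool.Agent.R753.body C hCc hC0 M hMc hMcl hM0 hsol K hK hKb
  have hGc : Continuous (fun (x : ∀ j, E j) (j : ι) => gauge (C j) (x j)) := by
    refine continuous_pi fun j => ?_
    exact (continuous_gauge (hCc j) (mem_interior_iff_mem_nhds.1 (hC0 j))).comp
      (continuous_apply j)
  set α : ℕ → J → ι → ℝ := fun W e j => if j = F e then ((W : ℝ) + 1) * β e j else β e j with hα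
  have hα0 : ∀ W e j, 0 < α W e j := by
    intro W e j
    have := hβ e j
    simp only [hα]
    split_ifs <;> positivity
  have hex : ∀ W : ℕ, ∃ x ∈ K, ∀ e, ∀ t : ℝ, 0 < t →
      x - t • (fun j => α W e j • u j (c e j)) ∉ interior K := by
    intro W
    by_contra hc
    push Not at hc
    exact hfail (cover_dirs hconv hcomp (fun (e : J) (j : ι) => α W e j • u j (c e j)) hc)
  choose x hxK hx using hex
  set 𝒰 : Ultrafilter ℕ := Filter.hyperfilter ℕ with h𝒰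
  have h𝒰top : (𝒰 : Filter ℕ) ≤ atTop := by
    rw [h𝒰, ← Nat.cofinite_eq_atTop]
    exact Filter.hyperfilter_le_cofinite
  obtain ⟨xl, hxlK, hxl⟩ : ∃ xl ∈ K, Tendsto x 𝒰 (𝓝 xl) := by
    obtain ⟨xl, hxl1, hxl2⟩ := hcomp.ultrafilter_le_nhds' (𝒰.map x)
      (Filter.mem_map.2 (Filter.univ_mem' hxK))
    exact ⟨xl, hxl1, hxl2⟩
  obtain ⟨cs, hcs⟩ : ∃ cs : ∀ j, Fin (N j), ∀ᶠ W in (𝒰 : Filter ℕ),
      (fun j => c₀ j (x W j)) = cs := by
    have h1 : ∀ᶠ W in (𝒰 : Filter ℕ), ∃ cs : ∀ j, Fin (N j), (fun j => c₀ j (x W j)) = cs :=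
      Filter.Eventually.of_forall fun W => ⟨_, rfl⟩
    exact (Ultrafilter.eventually_exists_iff).1 h1
  set X : ℕ → ι → ℝ := fun W j => gauge (C j) (x W j) with hX
  set Xl : ι → ℝ := fun j => gauge (C j) (xl j) with hXl
  have hXt : Tendsto X 𝒰 (𝓝 Xl) := (hGc.tendsto xl).comp hxl
  have hXM : ∀ W, X W ∈ M := by
    intro W
    have := hxK W
    rw [hK] at this
    exact this
  have hXlM : Xl ∈ M := by
    have := hxlK
    rw [hK] at this
    exact this
  have hX0 : ∀ W j, 0 ≤ X W j := fun W j => gauge_nonneg _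
  have hXl0 : ∀ j, 0 ≤ Xl j := fun j => gauge_nonneg _
  refine ⟨Xl, cs, hXlM, hXl0, fun e => ?_⟩
  set S : Finset ι := univ.filter fun j => Xl j ≠ 0 ∧ c e j = cs j with hS
  have hSmem : ∀ j, j ∈ S ↔ Xl j ≠ 0 ∧ c e j = cs j := fun j => by simp [hS]
  have hpos : ∀ᶠ W in (𝒰 : Filter ℕ), ∀ j ∈ S, 0 < X W j := by
    rw [Filter.eventually_all_finset]
    intro j hj
    have h1 : Tendsto (fun W => X W j) 𝒰 (𝓝 (Xl j)) := (tendsto_pi_nhds.1 hXt) j
    have h2 : 0 < Xl j := lt_of_le_of_ne (hXl0 j) (Ne.symm ((hSmem j).1 hj).1)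
    exact h1.eventually (lt_mem_nhds h2)
  obtain ⟨w, wl, hw, hwt, hwN, hw1⟩ := limit_normal hMc hM0 hsol hint hX hXM hXt
    (fun j => u j (c e j)) (fun W => hα0 W e) (κ₀ := κ₀) (D₀ := D₀) S
    (by
      filter_upwards [hcs, hpos] with W h1 h2 j hj
      refine ⟨h2 j hj, fun s hs hsX => ?_⟩
      have h3 := hu2 j (x W j) s hs hsX
      have h4 : c₀ j (x W j) = c e j := by
        rw [((hSmem j).1 hj).2]
        exact congrFun h1 j
      rwa [h4] at h3)
    (fun W j s hs => hu1 j (c e j) (x W j) s hs) (fun W => hx W e)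
  have hwlnn : ∀ j, Xl j ≠ 0 → 0 ≤ wl j := fun j hj => nor_nonneg hsol hXlM hXl0 hwN hj
  refine ⟨wl, hwN, hw1, hwlnn, fun hF1 hF2 => ?_⟩
  have hFS : F e ∈ S := (hSmem _).2 ⟨hF1, hF2⟩
  set g : ι → ℝ := fun j => if j ∈ S then -(κ₀ * β e j) else D₀ * β e j with hg
  have hgeq : ∀ j, (if Xl j ≠ 0 ∧ c e j = cs j then -(κ₀ * β e j) else D₀ * β e j) = g j := by
    intro j
    simp only [hg]
    exact if_congr (hSmem j).symm rfl rfl
  simp only [hgeq]
  -- the inequality for large `W`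
  have hin : ∀ᶠ W in (𝒰 : Filter ℕ), 0 ≤ w W (F e) ∧
      κ₀ * (((W : ℝ) + 1) * β e (F e)) * w W (F e) ≤ ∑ j ∈ univ.erase (F e), w W j * g j ∧
      ∀ j, |w W j| ≤ 1 := by
    filter_upwards [hw, hpos] with W h1 h2
    obtain ⟨h3, h4, h5⟩ := h1
    refine ⟨nor_nonneg hsol (hXM W) (hX0 W) h3 (h2 _ hFS).ne', ?_, ?_⟩
    · rw [← Finset.add_sum_erase _ _ (mem_univ (F e)), if_pos hFS] at h5
      have h6 : ∑ j ∈ univ.erase (F e), w W j *
          (if j ∈ S then -(κ₀ * α W e j) else D₀ * α W e j) =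
          ∑ j ∈ univ.erase (F e), w W j * g j := by
        refine Finset.sum_congr rfl fun j hj => ?_
        have h7 : α W e j = β e j := by
          simp only [hα]
          rw [if_neg (Finset.ne_of_mem_erase hj)]
        rw [h7]
      have h8 : α W e (F e) = ((W : ℝ) + 1) * β e (F e) := by
        simp only [hα]
        rw [if_pos trivial]
      rw [h6, h8] at h5
      have h9 : w W (F e) * -(κ₀ * (((W : ℝ) + 1) * β e (F e))) =
          -(κ₀ * (((W : ℝ) + 1) * β e (F e)) * w W (F e)) := by ring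
      rw [h9] at h5
      linarith
    · intro j
      rw [← h4]
      exact Finset.single_le_sum (f := fun j => |w W j|) (fun j _ => abs_nonneg _) (mem_univ j)
  have hwF : wl (F e) = 0 := by
    refine le_antisymm ?_ (hwlnn _ hF1)
    set B : ℝ := ∑ j ∈ univ.erase (F e), |g j| with hB
    have h1 : Tendsto (fun W : ℕ => B / (κ₀ * β e (F e)) * (1 / ((W : ℝ) + 1))) 𝒰
        (𝓝 (B / (κ₀ * β e (F e)) * 0)) :=
      (tendsto_one_div_add_atTop_nhds_zero_nat.mono_left h𝒰top).const_mul _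
    rw [mul_zero] at h1
    refine le_of_tendsto_of_tendsto (hwt (F e)) h1 ?_
    filter_upwards [hin] with W h2
    obtain ⟨h3, h4, h5⟩ := h2
    have h6 : ∑ j ∈ univ.erase (F e), w W j * g j ≤ B := by
      refine Finset.sum_le_sum fun j _ => ?_
      calc w W j * g j ≤ |w W j * g j| := le_abs_self _
        _ = |w W j| * |g j| := abs_mul _ _
        _ ≤ 1 * |g j| := mul_le_mul_of_nonneg_right (h5 j) (abs_nonneg _)
        _ = |g j| := one_mul _
    have hβF := hβ e (F e)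
    rw [div_mul_div_comm, mul_one, le_div_iff₀ (by positivity)]
    calc w W (F e) * (κ₀ * β e (F e) * ((W : ℝ) + 1))
        = κ₀ * (((W : ℝ) + 1) * β e (F e)) * w W (F e) := by ring
      _ ≤ B := h4.trans h6
  refine ⟨hwF, ?_⟩
  have h1 : 0 ≤ ∑ j ∈ univ.erase (F e), wl j * g j := by
    have h2 : Tendsto (fun W => ∑ j ∈ univ.erase (F e), w W j * g j) 𝒰
        (𝓝 (∑ j ∈ univ.erase (F e), wl j * g j)) :=
      tendsto_finsetSum _ fun j _ => (hwt j).mul_const _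
    refine ge_of_tendsto h2 ?_
    filter_upwards [hin] with W h3
    obtain ⟨h4, h5, -⟩ := h3
    refine le_trans ?_ h5
    have hβF := hβ e (F e)
    positivity
  rw [← Finset.add_sum_erase _ _ (mem_univ (F e)), hwF, zero_mul, zero_add]
  exact h1

end Pool.Agent.Zk58.SS
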