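import Mathlib
import Pool.Agent.Zk58.SS.GapLimit
import Pool.Agent.Zk58.SS.GapLab

set_option autoImplicit false
set_option linter.unusedSectionVars false

/-!
Sums of convex bodies with respect to a set with nested supports: the second value.
-/

namespace Pool.Agent.Zk58.SS

open Finset Filter Topology

section delta

variable {ι : Type} [Fintype ι] [LinearOrder ι]

/-- the number of the tuples which are used -/
lemma card_used {N : ι → ℕ} (hN : ∀ j, 2 ≤ N j) (O : Finset (ι → Bool))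
    (hO : 2 ^ Fintype.card ι ≤ 4 * O.card) (hι : 2 ≤ Fintype.card ι)
    [Fintype {c : ∀ j, Fin (N j) // ¬ ((∀ j, (c j : ℕ) ≤ 1) ∧ bit c ∈ O)}] :
    Fintype.card {c : ∀ j, Fin (N j) // ¬ ((∀ j, (c j : ℕ) ≤ 1) ∧ bit c ∈ O)} ≤
      ∏ j, N j - 2 ^ (Fintype.card ι - 2) := by
  classical
  have hcard : Fintype.card (∀ j, Fin (N j)) = ∏ j, N j := by
    rw [Fintype.card_pi]
    simp
  have h1 : Fintype.card {c : ∀ j, Fin (N j) // ¬ ((∀ j, (c j : ℕ) ≤ 1) ∧ bit c ∈ O)} =
      Fintype.card (∀ j, Fin (N j)) -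
      Fintype.card {c : ∀ j, Fin (N j) // ((∀ j, (c j : ℕ) ≤ 1) ∧ bit c ∈ O)} := by
    convert Fintype.card_subtype_compl
      (fun c : ∀ j, Fin (N j) => (∀ j, (c j : ℕ) ≤ 1) ∧ bit c ∈ O)
  have h2 : O.card ≤
      Fintype.card {c : ∀ j, Fin (N j) // ((∀ j, (c j : ℕ) ≤ 1) ∧ bit c ∈ O)} := by
    rw [← Fintype.card_coe]
    have hb : ∀ s : ι → Bool, bit (fun j => if s j then (⟨1, by have := hN j; omega⟩ : Fin (N j))
        else ⟨0, by have := hN j; omega⟩) = s := by
      intro s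
      funext j
      unfold bit
      cases h : s j <;> simp [h]
    refine Fintype.card_le_of_injective (fun s : O => ⟨fun j =>
      if s.1 j then (⟨1, by have := hN j; omega⟩ : Fin (N j)) else ⟨0, by have := hN j; omega⟩,
      ⟨fun j => ?_, ?_⟩⟩) ?_
    · show (((if s.1 j then (⟨1, by have := hN j; omega⟩ : Fin (N j))
        else ⟨0, by have := hN j; omega⟩) : Fin (N j)) : ℕ) ≤ 1
      split_ifs <;> simp
    · rw [hb]
      exact s.2
    · intro s s' hss
      have h3 := congrArg (fun c => bit c.1) hss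
      simp only [hb] at h3
      exact Subtype.ext h3
  have h3 : 2 ^ Fintype.card ι = 4 * 2 ^ (Fintype.card ι - 2) := by
    obtain ⟨m, hm⟩ : ∃ m, Fintype.card ι = m + 2 := ⟨Fintype.card ι - 2, by omega⟩
    rw [hm, pow_add]
    simp only [Nat.add_sub_cancel]
    ring
  rw [h1, hcard]
  omega

lemma bit_val {N : ι → ℕ} {c : ∀ j, Fin (N j)} {i : ι} {a : Fin (N i)} (h : c i = a) :
    bit c i = decide (0 < (a : ℕ)) := by
  unfold bit
  rw [h]

/-- the normals which are left for given small weights `δ` -/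
theorem delta_step {E : ι → Type} [∀ j, NormedAddCommGroup (E j)]
    [∀ j, NormedSpace ℝ (E j)] [∀ j, FiniteDimensional ℝ (E j)]
    (C : ∀ j, Set (E j)) (hCc : ∀ j, Convex ℝ (C j)) (hC0 : ∀ j, (0 : E j) ∈ interior (C j))
    (N : ι → ℕ) (hN : ∀ j, 2 ≤ N j) (M : Set (ι → ℝ)) (hMc : Convex ℝ M) (hMcl : IsClosed M)
    (hM0 : (0 : ι → ℝ) ∈ interior M) (hsol : Pool.Agent.R753.Sol M)
    (K : Set (∀ j, E j)) (hK : K = {x | (fun j => gauge (C j) (x j)) ∈ M})
    (hKb : Bornology.IsBounded K)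
    (hnest : ∀ X ∈ M, (∀ j, 0 ≤ X j) → ∀ v, Nor M X v →
      (∀ i, X i ≠ 0 → v i ≠ 0) ∨ (∀ i, 0 < v i → X i ≠ 0))
    (u : ∀ j, Fin (N j) → E j) (κ₀ D₀ : ℝ) (hκ₀0 : 0 < κ₀) (hD₀0 : 0 < D₀)
    (hu1 : ∀ j c x s, 0 ≤ s → gauge (C j) (x - s • u j c) ≤ gauge (C j) x + D₀ * s)
    (c₀ : ∀ j, E j → Fin (N j)) (hu2 : ∀ j x s, 0 ≤ s → s ≤ gauge (C j) x →
      gauge (C j) (x - s • u j (c₀ j x)) ≤ gauge (C j) x - κ₀ * s)
    {ρ : ℝ} (hρ0 : 0 < ρ) (hball : ∀ Y : ι → ℝ, (∀ j, |Y j| ≤ ρ) → Y ∈ M)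
    (hι : 2 ≤ Fintype.card ι)
    {A : Finset ι} (hA : A.Nonempty) {O : Finset (ι → Bool)} {f : (ι → Bool) → ι}
    (hlab : Gap.Lab A O f)
    (hfail : ¬ ∃ T : Finset (∀ j, E j), T.card ≤ ∏ j, N j - 2 ^ (Fintype.card ι - 2) ∧
      K ⊆ ⋃ t ∈ T, (fun x => t + x) '' interior K)
    (δ : ℝ) (hδ0 : 0 < δ) :
    ∃ X ∈ M, (∀ j, 0 ≤ X j) ∧ ∀ j ∈ A, ∃ L : Finset ι, L ⊆ A ∧ L ≠ A ∧ j ∈ L ∧ ∃ w, Nor M X w ∧
      ∑ i, |w i| = 1 ∧ 0 ≤ w j ∧ (∀ q ∈ L, 0 ≤ w q ∧ w q ≤ max (D₀ / κ₀) 1 * w j) ∧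
      ∀ q, q ∉ L → |w q| ≤ max (D₀ / κ₀) 1 * δ * w j := by
  classical
  set P : (∀ j, Fin (N j)) → Prop := fun c => (∀ j, (c j : ℕ) ≤ 1) ∧ bit c ∈ O with hP
  set F : (∀ j, Fin (N j)) → ι := fun c =>
    if h : bit c ∈ O ∧ ∃ j, 2 ≤ (c j : ℕ) then h.2.choose else f (bit c) with hF
  have hF1 : ∀ c, bit c ∉ O → F c = f (bit c) := by
    intro c hc
    simp only [hF]
    rw [dif_neg (fun h => hc h.1)]
  have hF2 : ∀ c, bit c ∈ O → (∃ j, 2 ≤ (c j : ℕ)) → 2 ≤ (c (F c) : ℕ) := by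
    intro c hc h
    have h1 : F c = (⟨hc, h⟩ : bit c ∈ O ∧ ∃ j, 2 ≤ (c j : ℕ)).2.choose := by
      simp only [hF]
      rw [dif_pos ⟨hc, h⟩]
    rw [h1]
    exact (⟨hc, h⟩ : bit c ∈ O ∧ ∃ j, 2 ≤ (c j : ℕ)).2.choose_spec
  set β : (∀ j, Fin (N j)) → ι → ℝ := fun c j =>
    if j ∈ A ∧ (∀ i, (c i : ℕ) ≤ 1) ∧ Gap.fl (bit c) j ∈ O then δ else 1 with hβ
  have hβ0 : ∀ c j, 0 < β c j := by
    intro c j
    simp only [hβ]
    split_ifs
    · exact hδ0
    · exact one_pos
  obtain ⟨X, cs, hXM, hX0, hX⟩ := heavy_limit C hCc hC0 N M hMc hMcl hM0 hsol K hK hKb u κ₀ D₀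
    hκ₀0 hu1 c₀ hu2 (J := {c : ∀ j, Fin (N j) // ¬ P c}) (fun c => c.1) (fun c => β c.1)
    (fun c j => hβ0 c.1 j) (fun c => F c.1) (by
      rintro ⟨T, hT, hT2⟩
      refine hfail ⟨T, hT.trans ?_, hT2⟩
      exact card_used hN O hlab.card hι)
  -- when all required indices are matched
  have hclose : ∀ c : ∀ j, Fin (N j), ¬ P c → (∀ q, X q ≠ 0 → c q = cs q) → X (F c) ≠ 0 →
      False := by
    intro c hPc hmatch hXF
    obtain ⟨w, hwN, hw1, hwnn, hw⟩ := hX ⟨c, hPc⟩
    obtain ⟨hwF, hsum⟩ := hw hXF (hmatch _ hXF)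
    have hout : ∀ i, 0 < w i → X i ≠ 0 := by
      rcases hnest X hXM hX0 w hwN with h | h
      · exact absurd hwF (h _ hXF)
      · exact h
    have hterm : ∀ j, w j * (if X j ≠ 0 ∧ c j = cs j then -(κ₀ * β c j) else D₀ * β c j) ≤ 0 := by
      intro j
      have hb := hβ0 c j
      by_cases hj : X j ≠ 0
      · rw [if_pos ⟨hj, hmatch j hj⟩]
        have := hwnn j hj
        have h2 : 0 ≤ w j * (κ₀ * β c j) := by positivity
        linarith
      · rw [if_neg (fun h => hj h.1)]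
        have h1 : w j ≤ 0 := by
          by_contra hcon
          push Not at hcon
          exact hj (hout j hcon)
        exact mul_nonpos_of_nonpos_of_nonneg h1 (by positivity)
    have hzero : ∀ j, w j * (if X j ≠ 0 ∧ c j = cs j then -(κ₀ * β c j) else D₀ * β c j) = 0 := by
      intro j
      have h1 : ∑ j, w j * (if X j ≠ 0 ∧ c j = cs j then -(κ₀ * β c j) else D₀ * β c j) = 0 :=
        le_antisymm (Finset.sum_nonpos fun j _ => hterm j) hsum
      exact (Finset.sum_eq_zero_iff_of_nonpos (fun j _ => hterm j)).1 h1 j (mem_univ j)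
    have h2 : ∑ j, w j * X j = 0 := by
      refine Finset.sum_eq_zero fun j _ => ?_
      by_cases hj : X j ≠ 0
      · have h3 := hzero j
        rw [if_pos ⟨hj, hmatch j hj⟩] at h3
        have hb := hβ0 c j
        have h4 : -(κ₀ * β c j) ≠ 0 := by
          have : 0 < κ₀ * β c j := by positivity
          linarith
        rw [(mul_eq_zero.1 h3).resolve_right h4, zero_mul]
      · push Not at hj
        rw [hj, mul_zero]
    have h3 := nor_size hρ0.le hball hwN
    rw [hw1, h2, mul_one] at h3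
    linarith
  set Q : Finset ι := univ.filter fun j => X j ≠ 0 with hQ
  have hQmem : ∀ j, j ∈ Q ↔ X j ≠ 0 := fun j => by simp [hQ]
  have hJne : ∃ c : ∀ j, Fin (N j), ¬ P c := by
    obtain ⟨e, he⟩ := Gap.exists_not_mem hlab hA
    refine ⟨fun j => if e j then ⟨1, by have := hN j; omega⟩ else ⟨0, by have := hN j; omega⟩,
      fun hc => he ?_⟩
    have : bit (fun j => if e j then (⟨1, by have := hN j; omega⟩ : Fin (N j))
        else ⟨0, by have := hN j; omega⟩) = e := by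
      funext j
      unfold bit
      cases h : e j <;> simp [h]
    rw [← this]
    exact hc.2
  have hQne : Q.Nonempty := by
    by_contra hcon
    rw [not_nonempty_iff_eq_empty] at hcon
    obtain ⟨c, hc⟩ := hJne
    obtain ⟨w, hwN, hw1, -, -⟩ := hX ⟨c, hc⟩
    have h3 := nor_size hρ0.le hball hwN
    have h4 : ∑ j, w j * X j = 0 := by
      refine Finset.sum_eq_zero fun j _ => ?_
      have : X j = 0 := by
        by_contra hne
        have := (hQmem j).2 hne
        rw [hcon] at this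
        exact absurd this (notMem_empty j)
      rw [this, mul_zero]
    rw [hw1, h4, mul_one] at h3
    linarith
  -- a tuple with given values on `Q` and given bits outside
  have hbitQ : ∀ (e : ι → Bool), (∀ q ∈ Q, e q = bit cs q) →
      bit (fun j => if j ∈ Q then cs j else
        (if e j then (⟨1, by have := hN j; omega⟩ : Fin (N j))
          else ⟨0, by have := hN j; omega⟩)) = e := by
    intro e he
    funext j
    by_cases hj : j ∈ Q
    · rw [he j hj]
      unfold bit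
      beta_reduce
      rw [if_pos hj]
    · unfold bit
      beta_reduce
      rw [if_neg hj]
      cases h : e j <;> simp
  rcases hlab.serve Q hQne (bit cs) with ⟨e, he1, he2, he3⟩ | ⟨hAQ, hall⟩
  · exfalso
    refine hclose (fun j => if j ∈ Q then cs j else
        (if e j then (⟨1, by have := hN j; omega⟩ : Fin (N j))
          else ⟨0, by have := hN j; omega⟩)) ?_ ?_ ?_
    · intro hc
      have := hc.2
      rw [hbitQ e he2] at this
      exact he1 this
    · intro q hq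
      beta_reduce
      rw [if_pos ((hQmem q).2 hq)]
    · rw [hF1 _ (by rw [hbitQ e he2]; exact he1), hbitQ e he2]
      exact (hQmem _).1 he3
  by_cases hbig : ∃ q ∈ Q, 2 ≤ (cs q : ℕ)
  · exfalso
    obtain ⟨q₀, hq₀, hq₀2⟩ := hbig
    obtain ⟨j, hj⟩ := hA
    obtain ⟨e, he1, he2, he3, he4⟩ := hall j hj
    have he5 : ∀ q ∈ Q, Gap.fl e j q = bit cs q := by
      intro q hq
      by_cases hqj : q = j
      · subst hqj
        rw [Gap.fl_same, he2 q hq, Gap.fl_same, Bool.not_not]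
      · rw [Gap.fl_ne _ hqj, he2 q hq, Gap.fl_ne _ hqj]
    have hex : ∃ i, 2 ≤ (((fun j' => if j' ∈ Q then cs j' else
        (if Gap.fl e j j' then (⟨1, by have := hN j'; omega⟩ : Fin (N j'))
          else ⟨0, by have := hN j'; omega⟩)) i : Fin (N i)) : ℕ) := by
      refine ⟨q₀, ?_⟩
      beta_reduce
      rw [if_pos hq₀]
      exact hq₀2
    refine hclose (fun j' => if j' ∈ Q then cs j' else
        (if Gap.fl e j j' then (⟨1, by have := hN j'; omega⟩ : Fin (N j'))
          else ⟨0, by have := hN j'; omega⟩)) ?_ ?_ ?_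
    · intro hc
      obtain ⟨i, hi⟩ := hex
      have := hc.1 i
      omega
    · intro q hq
      beta_reduce
      rw [if_pos ((hQmem q).2 hq)]
    · have h1 := hF2 (fun j' => if j' ∈ Q then cs j' else
        (if Gap.fl e j j' then (⟨1, by have := hN j'; omega⟩ : Fin (N j'))
          else ⟨0, by have := hN j'; omega⟩)) (by rw [hbitQ _ he5]; exact he3) hex
      rw [← hQmem]
      by_contra hcon
      beta_reduce at h1
      rw [if_neg hcon] at h1
      split_ifs at h1 <;> simp at h1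
  push Not at hbig
  refine ⟨X, hXM, hX0, fun j hj => ?_⟩
  obtain ⟨e, he1, he2, he3, he4⟩ := hall j hj
  have hjQ : j ∈ Q := hAQ hj
  set c : ∀ j', Fin (N j') := fun j' =>
    if j' ∈ Q ∧ j' ≠ j then cs j' else
      (if e j' then (⟨1, by have := hN j'; omega⟩ : Fin (N j'))
        else ⟨0, by have := hN j'; omega⟩) with hc
  have hc1 : ∀ i, (c i : ℕ) ≤ 1 := by
    intro i
    simp only [hc]
    by_cases hi : i ∈ Q ∧ i ≠ j
    · rw [if_pos hi]
      have := hbig i hi.1
      omega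
    · rw [if_neg hi]
      split_ifs <;> simp
  have hbc : bit c = e := by
    funext i
    by_cases hi : i ∈ Q ∧ i ≠ j
    · rw [he2 i hi.1, Gap.fl_ne _ hi.2]
      have h1 : c i = cs i := by
        simp only [hc]
        rw [if_pos hi]
      rw [bit_val h1]
      rfl
    · have h1 : c i = (if e i then (⟨1, by have := hN i; omega⟩ : Fin (N i))
          else ⟨0, by have := hN i; omega⟩) := by
        simp only [hc]
        rw [if_neg hi]
      rw [bit_val h1]
      cases h : e i <;> simp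
  have hcP : ¬ P c := fun h => he1 (hbc ▸ h.2)
  have hFc : F c = f e := by rw [hF1 c (by rw [hbc]; exact he1), hbc]
  have hfj : f e ≠ j := by
    intro hfe
    have := hlab.heavy e he1 (by rw [hfe]; exact hj)
    rw [hfe] at this
    exact this he3
  obtain ⟨w, hwN, hw1, hwnn, hw⟩ := hX ⟨c, hcP⟩
  have hmatch : ∀ q ∈ Q, q ≠ j → c q = cs q := by
    intro q hq hqj
    simp only [hc]
    rw [if_pos ⟨hq, hqj⟩]
  have hXF : X (F c) ≠ 0 := by
    rw [hFc]
    exact (hQmem _).1 he4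
  obtain ⟨hwF, hsum⟩ := hw hXF (hmatch _ ((hQmem _).2 hXF) (by rw [hFc]; exact hfj))
  have hout : ∀ i, 0 < w i → X i ≠ 0 := by
    rcases hnest X hXM hX0 w hwN with h | h
    · exact absurd hwF (h _ hXF)
    · exact h
  have hwj : 0 ≤ w j := hwnn j ((hQmem j).1 hjQ)
  -- `c j` is not the required index
  have hcj : c j ≠ cs j := by
    intro h
    have h1 : bit c j = bit cs j := by
      unfold bit
      rw [h]
    rw [hbc, he2 j hjQ, Gap.fl_same] at h1
    cases h2 : bit cs j <;> simp [h2] at h1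
  set L : Finset ι := A.filter fun i => Gap.fl e i ∈ O with hL
  have hLmem : ∀ i, i ∈ L ↔ i ∈ A ∧ Gap.fl e i ∈ O := fun i => by simp [hL]
  have hβL : ∀ i, β c i = if i ∈ L then δ else 1 := by
    intro i
    simp only [hβ]
    rw [hbc]
    refine if_congr ?_ rfl rfl
    rw [hLmem]
    exact ⟨fun h => ⟨h.1, h.2.2⟩, fun h => ⟨h.1, hc1, h.2⟩⟩
  have hjL : j ∈ L := (hLmem j).2 ⟨hj, he3⟩
  have hβj : β c j = δ := by rw [hβL, if_pos hjL]
  -- each term
  set G : ι → ℝ := fun i => if X i ≠ 0 ∧ c i = cs i then -(κ₀ * β c i) else D₀ * β c i with hG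
  have hGj : G j = D₀ * δ := by
    simp only [hG]
    rw [if_neg (fun h => hcj h.2), hβj]
  have hterm : ∀ i, i ≠ j → w i * G i ≤ 0 := by
    intro i hij
    have hb := hβ0 c i
    simp only [hG]
    by_cases hi : X i ≠ 0
    · rw [if_pos ⟨hi, hmatch i ((hQmem i).2 hi) hij⟩]
      have := hwnn i hi
      have h2 : 0 ≤ w i * (κ₀ * β c i) := by positivity
      linarith
    · rw [if_neg (fun h => hi h.1)]
      have h1 : w i ≤ 0 := by
        by_contra hcon
        push Not at hcon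
        exact hi (hout i hcon)
      exact mul_nonpos_of_nonpos_of_nonneg h1 (by positivity)
  have hbound : ∀ i, i ≠ j → -(w i * G i) ≤ D₀ * δ * w j := by
    intro i hij
    have h1 : 0 ≤ w j * G j + ∑ l ∈ univ.erase j, w l * G l := by
      rw [Finset.add_sum_erase univ (fun l => w l * G l) (mem_univ j)]
      exact hsum
    have h2 : ∑ l ∈ univ.erase j, w l * G l ≤ w i * G i := by
      rw [← Finset.add_sum_erase (univ.erase j) (fun l => w l * G l)
        (Finset.mem_erase.2 ⟨hij, mem_univ i⟩)]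
      have : ∑ l ∈ (univ.erase j).erase i, w l * G l ≤ 0 := by
        refine Finset.sum_nonpos fun l hl => hterm l ?_
        exact Finset.ne_of_mem_erase (Finset.mem_of_mem_erase hl)
      linarith
    rw [hGj] at h1
    have h3 : w j * (D₀ * δ) = D₀ * δ * w j := by ring
    linarith
  have hR1 : (1 : ℝ) ≤ max (D₀ / κ₀) 1 := le_max_right _ _
  have hR2 : D₀ / κ₀ ≤ max (D₀ / κ₀) 1 := le_max_left _ _
  refine ⟨L, fun i hi => ((hLmem i).1 hi).1, ?_, hjL, w, hwN, hw1, hwj, ?_, ?_⟩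
  · intro hLA
    obtain ⟨i, hi, hi2⟩ := hlab.light e he1
    rw [← hLA] at hi
    exact hi2 ((hLmem i).1 hi).2
  · intro q hq
    have hqA := ((hLmem q).1 hq).1
    have hqX : X q ≠ 0 := (hQmem q).1 (hAQ hqA)
    refine ⟨hwnn q hqX, ?_⟩
    by_cases hqj : q = j
    · rw [hqj]
      calc w j = 1 * w j := (one_mul _).symm
        _ ≤ max (D₀ / κ₀) 1 * w j := mul_le_mul_of_nonneg_right hR1 hwj
    · have h1 := hbound q hqj
      simp only [hG] at h1
      rw [if_pos ⟨hqX, hmatch q (hAQ hqA) hqj⟩, hβL, if_pos hq] at h1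
      have h2 : δ * (κ₀ * w q) ≤ δ * (D₀ * w j) := by linarith
      have h3 : κ₀ * w q ≤ D₀ * w j := le_of_mul_le_mul_left h2 hδ0
      calc w q ≤ D₀ / κ₀ * w j := by
            rw [div_mul_eq_mul_div, le_div_iff₀ hκ₀0]
            linarith
        _ ≤ max (D₀ / κ₀) 1 * w j := mul_le_mul_of_nonneg_right hR2 hwj
  · intro q hq
    have hqj : q ≠ j := fun h => hq (h ▸ hjL)
    have h1 := hbound q hqj
    have hβq : β c q = 1 := by rw [hβL, if_neg hq]
    simp only [hG] at h1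
    by_cases hqX : X q ≠ 0
    · rw [if_pos ⟨hqX, hmatch q ((hQmem q).2 hqX) hqj⟩, hβq, mul_one] at h1
      rw [abs_of_nonneg (hwnn q hqX)]
      have h3 : κ₀ * w q ≤ D₀ * δ * w j := by linarith
      calc w q ≤ D₀ / κ₀ * (δ * w j) := by
            rw [div_mul_eq_mul_div, le_div_iff₀ hκ₀0]
            linarith
        _ ≤ max (D₀ / κ₀) 1 * (δ * w j) := mul_le_mul_of_nonneg_right hR2 (by positivity)
        _ = max (D₀ / κ₀) 1 * δ * w j := by ring
    · rw [if_neg (fun h => hqX h.1), hβq, mul_one] at h1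
      have h2 : w q ≤ 0 := by
        by_contra hcon
        push Not at hcon
        exact hqX (hout q hcon)
      rw [abs_of_nonpos h2]
      have h3 : D₀ * (-w q) ≤ D₀ * (δ * w j) := by linarith
      have h4 : -w q ≤ δ * w j := le_of_mul_le_mul_left h3 hD₀0
      calc -w q ≤ 1 * (δ * w j) := by rw [one_mul]; exact h4
        _ ≤ max (D₀ / κ₀) 1 * (δ * w j) := mul_le_mul_of_nonneg_right hR1 (by positivity)
        _ = max (D₀ / κ₀) 1 * δ * w j := by ring

end delta

end Pool.Agent.Zk58.SS
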