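import Mathlib
import Pool.Agent.Zk58.SS.Gap

set_option autoImplicit false

/-!
Sums of convex bodies with respect to a set with nested supports: the second value.
-/

namespace Pool.Agent.Zk58.SS

open Finset Filter Topology

variable {ι : Type} [Fintype ι] [LinearOrder ι]

/-- the part of `M` in the orthant of the nonnegative vectors is compact -/
lemma compact_pos {E : ι → Type} [∀ j, NormedAddCommGroup (E j)]
    [∀ j, NormedSpace ℝ (E j)] [∀ j, Nontrivial (E j)]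
    (C : ∀ j, Set (E j)) (hCk : ∀ j, IsCompact (C j)) (hC0 : ∀ j, (0 : E j) ∈ interior (C j))
    (M : Set (ι → ℝ)) (hMcl : IsClosed M)
    (K : Set (∀ j, E j)) (hK : K = {x | (fun j => gauge (C j) (x j)) ∈ M})
    (hKb : Bornology.IsBounded K) : IsCompact {X | X ∈ M ∧ ∀ j, 0 ≤ X j} := by
  have hv : ∀ j, ∃ v : E j, gauge (C j) v = 1 ∧ 0 < ‖v‖ := by
    intro j
    obtain ⟨e, he⟩ := exists_ne (0 : E j)
    have hnh : C j ∈ 𝓝 (0 : E j) := mem_interior_iff_mem_nhds.1 (hC0 j)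
    have h1 : 0 < gauge (C j) e :=
      (gauge_pos (absorbent_nhds_zero hnh)
        (NormedSpace.isVonNBounded_iff ℝ |>.2 (hCk j).isBounded)).2 he
    refine ⟨(gauge (C j) e)⁻¹ • e, ?_, ?_⟩
    · rw [gauge_smul_of_nonneg (inv_nonneg.2 h1.le), smul_eq_mul, inv_mul_cancel₀ h1.ne']
    · rw [norm_pos_iff]
      exact smul_ne_zero (inv_ne_zero h1.ne') he
  choose v hv1 hv0 using hv
  obtain ⟨R, hR⟩ := hKb.exists_norm_le
  have hb : ∀ X ∈ {X : ι → ℝ | X ∈ M ∧ ∀ j, 0 ≤ X j}, ∀ j, X j ≤ |R| / ‖v j‖ := by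
    rintro X ⟨hX, hX0⟩ j
    have h1 : (fun j => X j • v j) ∈ K := by
      rw [hK]
      show (fun j => gauge (C j) (X j • v j)) ∈ M
      have : (fun j => gauge (C j) (X j • v j)) = X := by
        funext i
        rw [gauge_smul_of_nonneg (hX0 i), hv1, smul_eq_mul, mul_one]
      rw [this]
      exact hX
    have h2 := (norm_le_pi_norm (fun j => X j • v j) j).trans ((hR _ h1).trans (le_abs_self R))
    rw [norm_smul, Real.norm_eq_abs, abs_of_nonneg (hX0 j)] at h2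
    rwa [le_div_iff₀ (hv0 j)]
  refine Metric.isCompact_of_isClosed_isBounded ?_ ?_
  · refine hMcl.inter ?_
    have : {X : ι → ℝ | ∀ j, 0 ≤ X j} = ⋂ j, {X : ι → ℝ | 0 ≤ X j} := by
      ext X
      simp
    show IsClosed {X : ι → ℝ | ∀ j, 0 ≤ X j}
    rw [this]
    exact isClosed_iInter fun j => isClosed_le continuous_const (continuous_apply j)
  · refine (Metric.isBounded_Icc (0 : ι → ℝ) (fun j => |R| / ‖v j‖)).subset ?_
    intro X hX
    exact ⟨fun j => hX.2 j, fun j => hb X hX j⟩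

/-- **The second value.** -/
theorem gap (hι : 3 ≤ Fintype.card ι) {E : ι → Type} [∀ j, NormedAddCommGroup (E j)]
    [∀ j, NormedSpace ℝ (E j)] [∀ j, FiniteDimensional ℝ (E j)] [∀ j, Nontrivial (E j)]
    (C : ∀ j, Set (E j)) (hCc : ∀ j, Convex ℝ (C j))
    (hCk : ∀ j, IsCompact (C j)) (hC0 : ∀ j, (0 : E j) ∈ interior (C j))
    (N : ι → ℕ) (hN : ∀ j, 2 ≤ N j)
    (hcov : ∀ j, ∃ T : Finset (E j), T.card ≤ N j ∧
      C j ⊆ ⋃ t ∈ T, (fun x => t + x) '' interior (C j))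
    (M : Set (ι → ℝ)) (hMc : Convex ℝ M) (hMcl : IsClosed M)
    (hM0 : (0 : ι → ℝ) ∈ interior M) (hsol : Pool.Agent.R753.Sol M)
    (K : Set (∀ j, E j)) (hK : K = {x | (fun j => gauge (C j) (x j)) ∈ M})
    (hKb : Bornology.IsBounded K)
    (hnest : ∀ X ∈ M, (∀ j, 0 ≤ X j) → ∀ v, Nor M X v →
      (∀ i, X i ≠ 0 → v i ≠ 0) ∨ (∀ i, 0 < v i → X i ≠ 0))
    (hbox : ¬ ∃ h ∈ M, ∀ X ∈ M, ∀ i, X i ≤ h i) :
    ∃ T : Finset (∀ j, E j), T.card ≤ ∏ j, N j - 2 ^ (Fintype.card ι - 2) ∧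
      K ⊆ ⋃ t ∈ T, (fun x => t + x) '' interior K := by
  classical
  have hnonemp : Nonempty ι := Fintype.card_pos_iff.1 (by omega)
  set P : Set (ι → ℝ) := {X | X ∈ M ∧ ∀ j, 0 ≤ X j} with hP
  have hPc : IsCompact P := compact_pos C hCk hC0 M hMcl K hK hKb
  have hP0 : (0 : ι → ℝ) ∈ P := ⟨interior_subset hM0, fun _ => le_rfl⟩
  -- the maxima of the coordinates
  have hmax : ∀ i, ∃ X ∈ P, ∀ Y ∈ P, Y i ≤ X i := by
    intro i
    obtain ⟨X, hX, hX2⟩ := hPc.exists_isMaxOn ⟨0, hP0⟩ (continuous_apply i).continuousOn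
    exact ⟨X, hX, fun Y hY => hX2 hY⟩
  choose Z hZP hZ using hmax
  set h : ι → ℝ := fun i => Z i i with hh
  have hh0 : ∀ i, 0 ≤ h i := fun i => (hZP i).2 i
  have hhmax : ∀ Y ∈ P, ∀ i, Y i ≤ h i := fun Y hY i => hZ i Y hY
  set hA : Finset ι → ι → ℝ := fun A i => if i ∈ A then h i else 0 with hhA
  have huniv : hA univ ∉ M := by
    intro hmem
    refine hbox ⟨hA univ, hmem, fun X hX i => ?_⟩
    have h1 : (fun i => max (X i) 0) ∈ M := by
      refine hsol X hX _ fun i => ?_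
      rw [Set.mem_uIcc]
      rcases le_total (X i) 0 with h | h
      · right
        rw [max_eq_right h]
        exact ⟨h, le_rfl⟩
      · left
        rw [max_eq_left h]
        exact ⟨h, le_rfl⟩
    have h2 := hhmax _ ⟨h1, fun i => le_max_right _ _⟩ i
    simp only [hhA]
    rw [if_pos (mem_univ i)]
    exact (le_max_left _ _).trans h2
  -- a minimal set
  obtain ⟨A, hA1, hA2⟩ : ∃ A : Finset ι, hA A ∉ M ∧ ∀ B : Finset ι, B ⊆ A → B ≠ A → hA B ∈ M := by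
    obtain ⟨A, hA1, hA2⟩ := WellFounded.has_min (r := ((· < ·) : Finset ι → Finset ι → Prop))
      wellFounded_lt {A : Finset ι | hA A ∉ M} ⟨univ, huniv⟩
    refine ⟨A, hA1, fun B hB hBA => ?_⟩
    by_contra hcon
    exact hA2 B hcon (lt_of_le_of_ne hB hBA)
  have hA0 : hA ∅ ∈ M := by
    have : hA ∅ = 0 := by
      funext i
      simp only [hhA]
      rw [if_neg (notMem_empty i)]
      rfl
    rw [this]
    exact hP0.1
  have hAcard : 2 ≤ A.card := by
    by_contra hcon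
    have h1 : A.card = 0 ∨ A.card = 1 := by omega
    rcases h1 with h1 | h1
    · rw [Finset.card_eq_zero] at h1
      rw [h1] at hA1
      exact hA1 hA0
    · obtain ⟨i, rfl⟩ := Finset.card_eq_one.1 h1
      apply hA1
      refine hsol (Z i) (hZP i).1 _ fun j => ?_
      rw [Set.mem_uIcc]
      left
      simp only [hhA]
      by_cases hj : j ∈ ({i} : Finset ι)
      · rw [if_pos hj]
        rw [mem_singleton] at hj
        subst hj
        exact ⟨hh0 _, le_rfl⟩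
      · rw [if_neg hj]
        exact ⟨le_rfl, (hZP i).2 j⟩
  have hAne : A.Nonempty := Finset.card_pos.1 (by omega)
  obtain ⟨O, f, hlab⟩ := Gap.exists_lab hι A hAcard
  -- the constants
  choose u κ D hκ0 hκ1 hD1 hu1 hu2 using fun j =>
    Pool.Agent.H665R3.Lam.step (hCc j) (hCk j) (hC0 j) (hcov j)
  choose c₀ hc₀ using hu2
  obtain ⟨κ₀, hκ₀0, hκ₀⟩ : ∃ κ₀ : ℝ, 0 < κ₀ ∧ ∀ j, κ₀ ≤ κ j := by
    obtain ⟨j, -, hj⟩ := Finset.exists_min_image Finset.univ κ Finset.univ_nonempty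
    exact ⟨κ j, hκ0 j, fun i => hj i (Finset.mem_univ i)⟩
  obtain ⟨D₀, hD₀0, hD₀⟩ : ∃ D₀ : ℝ, 0 < D₀ ∧ ∀ j, D j ≤ D₀ := by
    obtain ⟨j, -, hj⟩ := Finset.exists_max_image Finset.univ D Finset.univ_nonempty
    exact ⟨D j, zero_lt_one.trans_le (hD1 j), fun i => hj i (Finset.mem_univ i)⟩
  obtain ⟨ρ, hρ0, hball⟩ : ∃ ρ : ℝ, 0 < ρ ∧ ∀ Y : ι → ℝ, (∀ j, |Y j| ≤ ρ) → Y ∈ M := by
    obtain ⟨ρ, hρ, hb⟩ := Metric.isOpen_iff.1 (isOpen_interior (s := M)) 0 hM0
    refine ⟨ρ / 2, by positivity, fun Y hY => interior_subset (hb ?_)⟩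
    rw [Metric.mem_ball]
    refine lt_of_le_of_lt ((dist_pi_le_iff (by positivity : (0 : ℝ) ≤ ρ / 2)).2 ?_)
      (by linarith : ρ / 2 < ρ)
    intro i
    rw [Real.dist_eq, Pi.zero_apply, sub_zero]
    exact hY i
  by_contra hfail
  set R : ℝ := max (D₀ / κ₀) 1 with hR
  have hR1 : 1 ≤ R := le_max_right _ _
  have hstep : ∀ r : ℕ, ∃ X ∈ M, (∀ j, 0 ≤ X j) ∧ ∀ j ∈ A, ∃ L : Finset ι,
      L ⊆ A ∧ L ≠ A ∧ j ∈ L ∧ ∃ w, Nor M X w ∧ ∑ i, |w i| = 1 ∧ 0 ≤ w j ∧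
      (∀ q ∈ L, 0 ≤ w q ∧ w q ≤ R * w j) ∧
      ∀ q, q ∉ L → |w q| ≤ R * (1 / ((r : ℝ) + 1)) * w j := by
    intro r
    refine delta_step C hCc hC0 N hN M hMc hMcl hM0 hsol K hK hKb hnest u κ₀ D₀ hκ₀0 hD₀0
      ?_ c₀ ?_ hρ0 hball (by omega) hAne hlab hfail _ (by positivity)
    · intro j c x s hs
      have h1 := hu1 j c x s hs
      have h2 := mul_le_mul_of_nonneg_right (hD₀ j) hs
      linarith
    · intro j x s hs hsx
      have h1 := hc₀ j x s hs hsx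
      have h2 := mul_le_mul_of_nonneg_right (hκ₀ j) hs
      linarith
  choose X hXM hX0 hX using hstep
  set 𝒰 : Ultrafilter ℕ := Filter.hyperfilter ℕ with h𝒰
  have h𝒰top : (𝒰 : Filter ℕ) ≤ atTop := by
    rw [h𝒰, ← Nat.cofinite_eq_atTop]
    exact Filter.hyperfilter_le_cofinite
  obtain ⟨Xl, hXlP, hXl⟩ : ∃ Xl ∈ P, Tendsto X 𝒰 (𝓝 Xl) := by
    obtain ⟨Xl, h1, h2⟩ := hPc.ultrafilter_le_nhds' (𝒰.map X)
      (Filter.mem_map.2 (Filter.univ_mem' fun r => ⟨hXM r, hX0 r⟩))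
    exact ⟨Xl, h1, h2⟩
  have key : ∀ j ∈ A, h j ≤ Xl j := by
    intro j hj
    choose L hL1 hL2 hL3 w hwN hw1 hwj hwL hwout using fun r => hX r j hj
    obtain ⟨L₀, hL₀⟩ : ∃ L₀ : Finset ι, ∀ᶠ r in (𝒰 : Filter ℕ), L r = L₀ := by
      have h1 : ∀ᶠ r in (𝒰 : Filter ℕ), ∃ L₀ : Finset ι, L r = L₀ :=
        Filter.Eventually.of_forall fun r => ⟨_, rfl⟩
      exact (Ultrafilter.eventually_exists_iff).1 h1
    obtain ⟨r₀, hr₀⟩ := hL₀.exists
    have hL₀A : L₀ ⊆ A := hr₀ ▸ hL1 r₀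
    have hL₀ne : L₀ ≠ A := hr₀ ▸ hL2 r₀
    have hjL₀ : j ∈ L₀ := hr₀ ▸ hL3 r₀
    obtain ⟨wl, -, hwl⟩ : ∃ wl ∈ Metric.closedBall (0 : ι → ℝ) 1, Tendsto w 𝒰 (𝓝 wl) := by
      obtain ⟨wl, h1, h2⟩ := (isCompact_closedBall (0 : ι → ℝ) 1).ultrafilter_le_nhds' (𝒰.map w)
        (Filter.mem_map.2 (Filter.univ_mem' fun r => by
          show w r ∈ Metric.closedBall (0 : ι → ℝ) 1
          rw [mem_closedBall_zero_iff, pi_norm_le_iff_of_nonneg zero_le_one]
          intro i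
          rw [Real.norm_eq_abs, ← hw1 r]
          exact Finset.single_le_sum (f := fun i => |w r i|) (fun i _ => abs_nonneg _)
            (mem_univ i)))
      exact ⟨wl, h1, h2⟩
    have hwt : ∀ i, Tendsto (fun r => w r i) 𝒰 (𝓝 (wl i)) := fun i => (tendsto_pi_nhds.1 hwl) i
    have hXt : ∀ i, Tendsto (fun r => X r i) 𝒰 (𝓝 (Xl i)) := fun i => (tendsto_pi_nhds.1 hXl) i
    have hδt : Tendsto (fun r : ℕ => 1 / ((r : ℝ) + 1)) 𝒰 (𝓝 0) :=
      tendsto_one_div_add_atTop_nhds_zero_nat.mono_left h𝒰top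
    have hwlN : Nor M Xl wl := by
      intro Y hY
      have h1 : Tendsto (fun r => ∑ i, w r i * Y i) 𝒰 (𝓝 (∑ i, wl i * Y i)) :=
        tendsto_finsetSum _ fun i _ => (hwt i).mul_const _
      have h2 : Tendsto (fun r => ∑ i, w r i * X r i) 𝒰 (𝓝 (∑ i, wl i * Xl i)) :=
        tendsto_finsetSum _ fun i _ => (hwt i).mul (hXt i)
      exact le_of_tendsto_of_tendsto h1 h2 (Filter.Eventually.of_forall fun r => hwN r Y hY)
    have hwl1 : ∑ i, |wl i| = 1 := by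
      have h1 : Tendsto (fun r => ∑ i, |w r i|) 𝒰 (𝓝 (∑ i, |wl i|)) :=
        tendsto_finsetSum _ fun i _ => (hwt i).abs
      have h2 : Tendsto (fun r => ∑ i, |w r i|) 𝒰 (𝓝 1) :=
        Tendsto.congr (fun r => (hw1 r).symm) tendsto_const_nhds
      exact tendsto_nhds_unique h1 h2
    have hin : ∀ q ∈ L₀, 0 ≤ wl q ∧ wl q ≤ R * wl j := by
      intro q hq
      constructor
      · refine ge_of_tendsto (hwt q) ?_
        filter_upwards [hL₀] with r hr
        exact (hwL r q (hr ▸ hq)).1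
      · refine le_of_tendsto_of_tendsto (hwt q) ((hwt j).const_mul R) ?_
        filter_upwards [hL₀] with r hr
        exact (hwL r q (hr ▸ hq)).2
    have hout : ∀ q, q ∉ L₀ → wl q = 0 := by
      intro q hq
      have h1 : Tendsto (fun r : ℕ => R * (1 / ((r : ℝ) + 1)) * w r j) 𝒰
          (𝓝 (R * 0 * wl j)) := (hδt.const_mul R).mul (hwt j)
      rw [mul_zero, zero_mul] at h1
      have h2 : |wl q| ≤ 0 := by
        refine le_of_tendsto_of_tendsto (hwt q).abs h1 ?_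
        filter_upwards [hL₀] with r hr
        exact hwout r q (fun h => hq (hr ▸ h))
      exact abs_eq_zero.1 (le_antisymm h2 (abs_nonneg _))
    have hwlj : 0 < wl j := by
      by_contra hcon
      push Not at hcon
      have h1 : ∀ i, wl i = 0 := by
        intro i
        by_cases hi : i ∈ L₀
        · obtain ⟨h2, h3⟩ := hin i hi
          have h4 : R * wl j ≤ 0 := mul_nonpos_of_nonneg_of_nonpos (by linarith) hcon
          linarith
        · exact hout i hi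
      have h2 : ∑ i, |wl i| = 0 := Finset.sum_eq_zero fun i _ => by rw [h1 i, abs_zero]
      rw [h2] at hwl1
      exact zero_ne_one hwl1
    have h1 := hwlN (hA L₀) (hA2 L₀ hL₀A hL₀ne)
    have h2 : ∑ i, wl i * (hA L₀ i - Xl i) ≤ 0 := by
      simp only [mul_sub, Finset.sum_sub_distrib]
      linarith
    have h3 : ∀ i, 0 ≤ wl i * (hA L₀ i - Xl i) := by
      intro i
      by_cases hi : i ∈ L₀
      · simp only [hhA]
        rw [if_pos hi]
        exact mul_nonneg (hin i hi).1 (by linarith [hhmax Xl hXlP i])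
      · rw [hout i hi, zero_mul]
    have h4 : wl j * (hA L₀ j - Xl j) ≤ 0 :=
      (Finset.single_le_sum (f := fun i => wl i * (hA L₀ i - Xl i)) (fun i _ => h3 i)
        (mem_univ j)).trans h2
    simp only [hhA] at h4
    rw [if_pos hjL₀] at h4
    by_contra hcon
    push Not at hcon
    have := mul_pos hwlj (sub_pos.2 hcon)
    linarith
  apply hA1
  refine hsol Xl hXlP.1 _ fun i => ?_
  rw [Set.mem_uIcc]
  left
  simp only [hhA]
  by_cases hi : i ∈ A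
  · rw [if_pos hi]
    exact ⟨hh0 i, key i hi⟩
  · rw [if_neg hi]
    exact ⟨le_rfl, hXlP.2 i⟩

end Pool.Agent.Zk58.SS
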