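import Mathlib
import Pool.Agent.Zk58.SS.Body
import Pool.Agent.Zk58.SS.GapMain
import Pool.Agent.Zk58.SS.DiscCube

set_option autoImplicit false

/-!
Unconditional bodies with nested supports: the second value.
-/

namespace Pool.Agent.Zk58.SS

open Finset Filter Topology

variable {n : ℕ}

/-- unconditional bodies with nested supports, not boxes -/
theorem unc_gap (hn : 3 ≤ n) {K : Set (EuclideanSpace ℝ (Fin n))} (hK : Convex ℝ K)
    (hKc : IsCompact K) (hKi : (interior K).Nonempty) (hu : Unc K) (h : Nest K)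
    (hbox : ¬ ∃ h : Fin n → ℝ, K = {x : EuclideanSpace ℝ (Fin n) | ∀ i, |x i| ≤ h i}) :
    ∃ T : Finset (EuclideanSpace ℝ (Fin n)), T.card ≤ 3 * 2 ^ (n - 2) ∧
      K ⊆ ⋃ t ∈ T, (fun x => t + x) '' interior K := by
  obtain ⟨hc, hco, h0, hsol, hunc⟩ := fset_props hK hKc hKi hu
  have h1 := gap (ι := Fin n) (by rwa [Fintype.card_fin]) (E := fun _ => ℝ)
    (fun _ => Set.Icc (-1 : ℝ) 1)
    (fun _ => convex_Icc _ _) (fun _ => isCompact_Icc)
    (fun _ => by rw [interior_Icc]; constructor <;> norm_num) (fun _ => 2) (fun _ => le_rfl)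
    (fun _ => cover_seg) (fset K) hc hco.isClosed h0 hsol (fset K) (fset_eq hunc) hco.isBounded
    (fset_nested h) (by
      rintro ⟨g, hg, hmax⟩
      refine hbox ⟨g, ?_⟩
      ext x
      constructor
      · intro hx i
        exact hmax (fun i => |x i|) (hunc (WithLp.ofLp x) hx _ fun i => abs_abs _) i
      · intro hx
        have h2 : (fun i => |x i|) ∈ fset K := hsol g hg _ fun i => by
          rw [Set.mem_uIcc]
          exact Or.inl ⟨abs_nonneg _, hx i⟩
        exact hunc _ h2 (WithLp.ofLp x) fun i => (abs_abs _).symm)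
  refine cov_fset (P := fun a => a ≤ 3 * 2 ^ (n - 2)) (fun a b hab hb => hab.trans hb) ?_
  obtain ⟨T, hT, hT2⟩ := h1
  refine ⟨T, ?_, hT2⟩
  rw [Finset.prod_const, card_univ, Fintype.card_fin] at hT
  obtain ⟨m, rfl⟩ : ∃ m, n = m + 2 := ⟨n - 2, by omega⟩
  have h3 : 2 ^ (m + 2) = 4 * 2 ^ m := by ring
  rw [h3] at hT
  simp only [Nat.add_sub_cancel] at hT ⊢
  omega

/-- sharpness -/
theorem gap_sharp (hn : 2 ≤ n) : ∃ K : Set (EuclideanSpace ℝ (Fin n)),
    (Convex ℝ K ∧ IsCompact K ∧ (interior K).Nonempty) ∧ Unc K ∧ Nest K ∧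
    (¬ ∃ h : Fin n → ℝ, K = {x : EuclideanSpace ℝ (Fin n) | ∀ i, |x i| ≤ h i}) ∧
    ∀ T : Finset (EuclideanSpace ℝ (Fin n)), K ⊆ ⋃ t ∈ T, (fun x => t + x) '' interior K →
      3 * 2 ^ (n - 2) ≤ T.card := by
  obtain ⟨m, rfl⟩ : ∃ m, n = m + 2 := ⟨n - 2, by omega⟩
  refine ⟨dcube m, ⟨dcube_convex, dcube_compact, dcube_interior⟩, dcube_unc, dcube_nest,
    dcube_not_box, fun T hT => ?_⟩
  simp only [Nat.add_sub_cancel]
  exact dcube_lower T hT

end Pool.Agent.Zk58.SS
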